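import Pool.Agent.DCH.Defs
/-!
# Rcb (size 2): basic recognizable sets

`Rcg_coord`: the data are `(N, p)`; for the coordinate `i` use `h`, for a coordinate `j ≠ i` the value `x i`
does not change. `Rcg_le`, `Rcg_eq`, `Rcg_mod` are special cases (`N = c`, `p = 1`; `N = c + 1`, `p = 1`;
`N = 0`, the given `p`). `Rcg_finite`: let `N` be larger than all coordinates of all elements of `S`, `p = 1`:
both sides are false.
-/
namespace DCh
open RCone

variable {k : ℕ}

theorem Rcg_coord (i : Fin k) (P : ℕ → Prop) (N p : ℕ) (hp : 0 < p)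
    (h : ∀ n, N ≤ n → (P n ↔ P (n + p))) : Rcg {x : Fin k → ℕ | P (x i)} := by
  refine ⟨N, p, hp, fun j x hx => ?_⟩
  show P (x i) ↔ P ((x + Pi.single j p : Fin k → ℕ) i)
  by_cases hj : j = i
  · subst hj
    rw [Pi.add_apply, Pi.single_eq_same]
    exact h _ hx
  · rw [Pi.add_apply, Pi.single_eq_of_ne (Ne.symm hj), add_zero]

theorem Rcg_le (i : Fin k) (c : ℕ) : Rcg {x : Fin k → ℕ | c ≤ x i} :=
  Rcg_coord i (fun n => c ≤ n) c 1 one_pos (fun n hn => by
    constructor
    · intro _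
      omega
    · intro _
      exact hn)

theorem Rcg_eq (i : Fin k) (c : ℕ) : Rcg {x : Fin k → ℕ | x i = c} :=
  Rcg_coord i (fun n => n = c) (c + 1) 1 one_pos (fun n hn => by omega)

theorem Rcg_mod (i : Fin k) (p r : ℕ) (hp : 0 < p) : Rcg {x : Fin k → ℕ | x i % p = r} :=
  Rcg_coord i (fun n => n % p = r) 0 p hp (fun n _ => by rw [Nat.add_mod_right])

theorem Rcg_finite {S : Set (Fin k → ℕ)} (h : S.Finite) : Rcg S := by
  classical
  set N : ℕ := ∑ y ∈ h.toFinset, ∑ j : Fin k, (y j + 1) with hN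
  have key : ∀ x : Fin k → ℕ, ∀ i : Fin k, N ≤ x i → x ∉ S := by
    intro x i hx hxS
    have h1 : ∑ j : Fin k, (x j + 1) ≤ N :=
      Finset.single_le_sum (f := fun y : Fin k → ℕ => ∑ j : Fin k, (y j + 1))
        (fun _ _ => Nat.zero_le _) (h.mem_toFinset.2 hxS)
    have h2 : x i + 1 ≤ ∑ j : Fin k, (x j + 1) :=
      Finset.single_le_sum (f := fun j : Fin k => x j + 1)
        (fun _ _ => Nat.zero_le _) (Finset.mem_univ i)
    omega
  refine ⟨N, 1, one_pos, fun i x hx => ?_⟩
  refine iff_of_false (key x i hx) (key _ i ?_)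
  rw [Pi.add_apply]
  omega

end DCh
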