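import Pool.Agent.DCH.Rca
import Pool.Agent.DCH.Rcb
/-!
# Bsa (size 2): a coordinate in whose direction `V` is closed is good

Let `c : ℕ`. If `c % p ≠ r` then `slc V i c = ∅` (the coordinate `i` of `Function.update x i c` is `c`), and
`V ∩ ∅ = ∅` is recognizable. Let `c % p = r`. Then
`V ∩ slc V i c = ({x | c ≤ x i} ∩ {x | x i % p = r} ∩ slc V i c) ∪ {x | ∃ t < c, x ∈ {x | x i = t} ∩ slc V i t ∩ slc V i c}`:
for `x` in the first set, `x i = c + n * p` for some `n` and `x = Function.update x i c + Pi.single i (n * p)` is in
`V` by `hup` (induction over `n`); and for `x i = t` one has `x ∈ slc V i t ↔ x ∈ V` (`Function.update_eq_self`).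
All the sets on the right are recognizable (modules Rca, Rcb).
-/
namespace DCh
open RCone

theorem good_of_closed {k : ℕ} {V : Set (Fin k → ℕ)} {i : Fin k} {p r : ℕ} (hp : 0 < p)
    (hmod : ∀ x ∈ V, x i % p = r) (hup : ∀ x ∈ V, x + Pi.single i p ∈ V)
    (hs : ∀ c, Rcg (slc V i c)) : Good V i := by
  intro c
  by_cases hc : c % p = r
  · have hn : ∀ (n : ℕ) (y : Fin k → ℕ), y ∈ V → y + Pi.single i (n * p) ∈ V := by
      intro n
      induction n with
      | zero =>
        intro y hy
        simpa using hy
      | succ n ih =>
        intro y hy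
        have h1 := hup _ (ih y hy)
        have h2 : y + Pi.single i (n * p) + Pi.single i p = y + Pi.single i ((n + 1) * p) := by
          rw [add_assoc, ← Pi.single_add]
          congr 2
          ring
        rwa [h2] at h1
    have e : V ∩ slc V i c = (({x | c ≤ x i} ∩ {x | x i % p = r}) ∩ slc V i c) ∪
        {x | ∃ t < c, x ∈ (fun t => ({x : Fin k → ℕ | x i = t} ∩ slc V i t) ∩ slc V i c) t} := by
      ext x
      constructor
      · rintro ⟨hx, hxc⟩
        by_cases hcx : c ≤ x i
        · exact Or.inl ⟨⟨hcx, hmod x hx⟩, hxc⟩
        · refine Or.inr ⟨x i, by omega, ⟨rfl, ?_⟩, hxc⟩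
          show Function.update x i (x i) ∈ V
          rw [Function.update_eq_self]
          exact hx
      · rintro (⟨⟨hcx, hxr⟩, hxc⟩ | ⟨t, ht, ⟨hxt, hxs⟩, hxc⟩)
        · refine ⟨?_, hxc⟩
          have hcx' : c ≤ x i := hcx
          have hxr' : x i % p = r := hxr
          have hd : p ∣ x i - c := by
            rw [← Nat.modEq_iff_dvd' hcx']
            show c % p = x i % p
            rw [hc, hxr']
          obtain ⟨n, hnn⟩ := hd
          have h1 := hn n _ hxc
          have h2 : Function.update x i c + Pi.single i (n * p) = x := by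
            funext j
            by_cases hj : j = i
            · subst hj
              simp only [Pi.add_apply, Function.update_self, Pi.single_eq_same]
              rw [mul_comm n p]
              omega
            · simp [Function.update_of_ne hj, Pi.single_eq_of_ne hj]
          rwa [h2] at h1
        · refine ⟨?_, hxc⟩
          have hxs' : Function.update x i t ∈ V := hxs
          have hxt' : x i = t := hxt
          rw [← hxt', Function.update_eq_self] at hxs'
          exact hxs'
    rw [e]
    refine Rcg.union (Rcg.inter (Rcg.inter (Rcg_le i c) (Rcg_mod i p r hp)) (hs c)) ?_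
    exact Rcg.ex_lt c (fun t => ({x : Fin k → ℕ | x i = t} ∩ slc V i t) ∩ slc V i c)
      (fun t _ => Rcg.inter (Rcg.inter (Rcg_eq i t) (hs t)) (hs c))
  · have e : V ∩ slc V i c = ∅ := by
      ext x
      simp only [Set.mem_inter_iff, Set.mem_empty_iff_false, iff_false, not_and]
      intro _ hx
      apply hc
      have h1 := hmod (Function.update x i c) hx
      rwa [Function.update_self] at h1
    rw [e]
    exact Rcg_finite Set.finite_empty

end DCh
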