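import Pool.Agent.DCH.Defs
/-!
# Rcc (size 2): pullbacks and translates of recognizable sets

`Rcg.pullback`: first, if `N ≤ y j` for all `j` in a finset `J`, then `y ∈ S ↔ y + (fun j => if j ∈ J then p
else 0) ∈ S` (induction over `J`, adding one `Pi.single j p` at a time). For `x : Fin k → ℕ` with `N ≤ x i`
take `J = {j | c j = i}`: `(x + Pi.single i p) ∘ c = x ∘ c + (fun j => if c j = i then p else 0)`, and
`N ≤ (x ∘ c) j` for `j ∈ J`. `Rcg.shift`: the same data `(N, p)`: `(x + v) i ≥ x i ≥ N` and
`x + Pi.single i p + v = (x + v) + Pi.single i p`.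
-/
namespace DCh
open RCone

variable {k K : ℕ}

private theorem rcc_finset {S : Set (Fin K → ℕ)} {N p : ℕ}
    (h : ∀ (i : Fin K) (x : Fin K → ℕ), N ≤ x i → (x ∈ S ↔ x + Pi.single i p ∈ S))
    (J : Finset (Fin K)) (y : Fin K → ℕ) (hy : ∀ j ∈ J, N ≤ y j) :
    (y ∈ S ↔ (y + fun j => if j ∈ J then p else 0) ∈ S) := by
  classical
  induction J using Finset.induction_on with
  | empty =>
    have : (y + fun j => if j ∈ (∅ : Finset (Fin K)) then p else 0) = y := by
      funext j; simp
    rw [this]
  | insert a J ha ih =>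
    have h1 := ih (fun j hj => hy j (Finset.mem_insert_of_mem hj))
    have h2 := h a (y + fun j => if j ∈ J then p else 0) (by
      have := hy a (Finset.mem_insert_self a J)
      simp only [Pi.add_apply]
      omega)
    have h3 : (y + fun j => if j ∈ insert a J then p else 0)
        = (y + fun j => if j ∈ J then p else 0) + Pi.single a p := by
      funext j
      simp only [Pi.add_apply]
      by_cases hja : j = a
      · subst hja
        simp [ha]
      · simp [hja]
    rw [h3, h1, h2]

theorem Rcg.pullback (c : Fin K → Fin k) {S : Set (Fin K → ℕ)} (h : Rcg S) :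
    Rcg {x : Fin k → ℕ | x ∘ c ∈ S} := by
  classical
  obtain ⟨N, p, hp, H⟩ := h
  refine ⟨N, p, hp, fun i x hx => ?_⟩
  have h1 := rcc_finset H (Finset.univ.filter (fun j => c j = i)) (x ∘ c) (by
    intro j hj
    have : c j = i := (Finset.mem_filter.mp hj).2
    simp [this, hx])
  have h2 : (x + Pi.single i p) ∘ c
      = (x ∘ c + fun j => if j ∈ Finset.univ.filter (fun j => c j = i) then p else 0) := by
    funext j
    simp only [Function.comp, Pi.add_apply, Finset.mem_filter, Finset.mem_univ, true_and]
    by_cases hj : c j = i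
    · subst hj
      simp
    · simp [hj]
  simp only [Set.mem_setOf_eq]
  rw [h2]
  exact h1

theorem Rcg.shift (v : Fin k → ℕ) {S : Set (Fin k → ℕ)} (h : Rcg S) :
    Rcg {x : Fin k → ℕ | x + v ∈ S} := by
  obtain ⟨N, p, hp, H⟩ := h
  refine ⟨N, p, hp, fun i x hx => ?_⟩
  have h1 := H i (x + v) (by simp only [Pi.add_apply]; omega)
  have h2 : x + Pi.single i p + v = x + v + Pi.single i p := by
    funext j
    simp only [Pi.add_apply]
    omega
  simp only [Set.mem_setOf_eq]
  rw [h2]
  exact h1

end DCh
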