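import Pool.Agent.DCH.Rgb
/-!
# Rgd (size 3): recognizable sets of vectors give regular languages

Let `N, p` be as in `Rcg S`. The DFA has the states `Fin k → Fin (N + p)`, the start state `0`, reading the
letter `i` changes the coordinate `i` from `n` to `nx n := if n + 1 < N + p then n + 1 else N`. Put
`red n = if n < N + p then n else N + (n - N) % p`; then `red (n+1) = nx (red n)`, so the state after the word
`u` is `fun i => red (cnt u i)`. A state `s` is accepting iff the vector `fun i => (s i : ℕ)` is in `S`.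
It remains to prove `x ∈ S ↔ (fun i => red (x i)) ∈ S`: from `Rcg`, by induction over `n`,
`x ∈ S ↔ x + Pi.single i (n * p) ∈ S` if `N ≤ x i`; change the coordinates one after the other
(`x i = red (x i) + n p` for some `n`, and `n = 0` unless `N ≤ red (x i)`); e.g. induction over a finset `J` of
coordinates for the vector `fun i => if i ∈ J then red (x i) else x i`.
`regular_Lk`: intersection with `regular_srt`.
-/
namespace DCh
open RCone

variable {k : ℕ}

theorem Rcg.add_mul {S : Set (Fin k → ℕ)} {N p : ℕ}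
    (h : ∀ (i : Fin k) (x : Fin k → ℕ), N ≤ x i → (x ∈ S ↔ x + Pi.single i p ∈ S))
    (i : Fin k) (x : Fin k → ℕ) (hx : N ≤ x i) (n : ℕ) :
    x ∈ S ↔ x + Pi.single i (n * p) ∈ S := by
  induction n with
  | zero => simp
  | succ n ih =>
    have h1 := h i (x + Pi.single i (n * p)) (by rw [Pi.add_apply]; omega)
    rw [ih, h1, add_assoc, ← Pi.single_add]
    have h2 : n * p + p = (n + 1) * p := by ring
    rw [h2]

private def nx (N p : ℕ) (hp : 0 < p) (n : Fin (N + p)) : Fin (N + p) :=
  if h : (n : ℕ) + 1 < N + p then ⟨n + 1, h⟩ else ⟨N, by omega⟩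

private def rd (N p : ℕ) (hp : 0 < p) (n : ℕ) : Fin (N + p) := (nx N p hp)^[n] ⟨0, by omega⟩

private theorem rd_spec (N p : ℕ) (hp : 0 < p) (n : ℕ) :
    ∃ m : ℕ, n = (rd N p hp n : ℕ) + m * p ∧ (m = 0 ∨ N ≤ (rd N p hp n : ℕ)) := by
  induction n with
  | zero => exact ⟨0, by simp [rd], Or.inl rfl⟩
  | succ n ih =>
    obtain ⟨m, h1, h2⟩ := ih
    have h3 : rd N p hp (n + 1) = nx N p hp (rd N p hp n) := by
      unfold rd
      rw [Function.iterate_succ_apply']
    have h4 := (rd N p hp n).2
    rw [h3]
    by_cases h5 : (rd N p hp n : ℕ) + 1 < N + p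
    · have h6 : ((nx N p hp (rd N p hp n) : Fin (N + p)) : ℕ) = (rd N p hp n : ℕ) + 1 := by
        unfold nx
        rw [dif_pos h5]
      refine ⟨m, by rw [h6]; omega, ?_⟩
      rw [h6]
      rcases h2 with h2 | h2
      · exact Or.inl h2
      · exact Or.inr (by omega)
    · have h6 : ((nx N p hp (rd N p hp n) : Fin (N + p)) : ℕ) = N := by
        unfold nx
        rw [dif_neg h5]
      refine ⟨m + 1, ?_, Or.inr (by rw [h6])⟩
      rw [h6, Nat.add_mul]
      omega

private theorem mem_iff_of {S : Set (Fin k → ℕ)} {N p : ℕ}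
    (h : ∀ (i : Fin k) (x : Fin k → ℕ), N ≤ x i → (x ∈ S ↔ x + Pi.single i p ∈ S))
    (x y : Fin k → ℕ) (hxy : ∀ i, ∃ m : ℕ, x i = y i + m * p ∧ (m = 0 ∨ N ≤ y i)) :
    x ∈ S ↔ y ∈ S := by
  have key : ∀ J : Finset (Fin k), (fun i => if i ∈ J then x i else y i) ∈ S ↔ y ∈ S := by
    intro J
    induction J using Finset.induction_on with
    | empty => simp
    | insert i J hi ih =>
      rw [← ih]
      obtain ⟨m, h1, h2⟩ := hxy i
      have h3 : (fun j => if j ∈ insert i J then x j else y j)
          = (fun j => if j ∈ J then x j else y j) + Pi.single i (m * p) := by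
        funext j
        by_cases hj : j = i
        · subst hj
          simp [hi, h1]
        · simp [Finset.mem_insert, hj, Pi.single_eq_of_ne hj]
      rw [h3]
      rcases h2 with h2 | h2
      · subst h2
        simp
      · exact (Rcg.add_mul h i _ (by simpa [hi] using h2) m).symm
  have h4 := key Finset.univ
  simpa using h4

private def dfa (k N p : ℕ) (hp : 0 < p) (S : Set (Fin k → ℕ)) : DFA (Fin k) (Fin k → Fin (N + p)) where
  step s a := Function.update s a (nx N p hp (s a))
  start := fun _ => ⟨0, by omega⟩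
  accept := {s | (fun i => ((s i : Fin (N + p)) : ℕ)) ∈ S}

private theorem dfa_eval (k N p : ℕ) (hp : 0 < p) (S : Set (Fin k → ℕ)) (u : List (Fin k)) :
    ∀ s, (dfa k N p hp S).evalFrom s u = fun i => (nx N p hp)^[u.count i] (s i) := by
  induction u with
  | nil => intro s; rfl
  | cons a u ih =>
    intro s
    have h1 : (dfa k N p hp S).evalFrom s (a :: u)
        = (dfa k N p hp S).evalFrom (Function.update s a (nx N p hp (s a))) u := rfl
    rw [h1, ih]
    funext i
    by_cases hi : i = a
    · subst hi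
      rw [Function.update_self, List.count_cons_self, Function.iterate_succ_apply]
    · rw [Function.update_of_ne hi, List.count_cons_of_ne (Ne.symm hi)]

theorem regular_cnt {S : Set (Fin k → ℕ)} (h : Rcg S) :
    Language.IsRegular (T := Fin k) {u | cnt u ∈ S} := by
  obtain ⟨N, p, hp, h⟩ := h
  refine ⟨Fin k → Fin (N + p), inferInstance, dfa k N p hp S, ?_⟩
  ext u
  rw [DFA.mem_accepts]
  change (dfa k N p hp S).evalFrom (dfa k N p hp S).start u ∈ (dfa k N p hp S).accept ↔ cnt u ∈ S
  rw [dfa_eval]
  refine (mem_iff_of h (cnt u) _ fun i => ?_).symm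
  obtain ⟨m, h1, h2⟩ := rd_spec N p hp (cnt u i)
  exact ⟨m, h1, h2⟩

theorem regular_Lk {S : Set (Fin k → ℕ)} (h : Rcg S) : (Lk S).IsRegular := by
  have h1 : Lk S = ({u | Srt u} : Language (Fin k)) ⊓ ({u | cnt u ∈ S} : Language (Fin k)) := by
    ext u
    exact Iff.rfl
  rw [h1]
  exact Language.IsRegular.inf (regular_srt k) (regular_cnt h)

end DCh
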