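import Pool.Agent.DCH.Rca
import Pool.Agent.DCH.Rcb
import Pool.Agent.DCH.Rcc
import Pool.Agent.DCH.Rgd
/-!
# Bsb (size 3): making the lines of direction `i` finite

Put `H = hull V i p`, with the data `(N, q)` of `Rcg H`, and `G = {x | x + Pi.single i (N * p) ∈ H}`
(recognizable: `Rcg.shift`). `H` is closed under `+ Pi.single i (n * p)`.
(1) If `N ≤ x i` then `x ∈ G ↔ x ∈ H`. `←`: closure of `H`. `→`: by the closure of `H`,
`x + Pi.single i (N * q * p) ∈ H` (as `N * q * p = N * p + (N * (q - 1)) * p`), and this is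
`x + Pi.single i ((N * p) * q)`, so `x ∈ H` by `Rcg.add_mul` (module Rgd).
(2) `V ∩ G = ({x | N ≤ x i} ∩ H) ∪ {x | ∃ t < N, x ∈ {x | x i = t} ∩ slc V i t ∩ G}`, by (1) and `H ⊆ V`
(`n = 0`); for `x i = t`: `x ∈ slc V i t ↔ x ∈ V`. So `V ∩ G` is recognizable.
(3) `V ∩ Gᶜ` is thin: let `n₀` be as in `LineP` for the point `x`, and let `n ≥ max n₀ N` with
`x + Pi.single i n ∈ V`. Then `x + Pi.single i (n + m * p) ∈ V` for all `m` (induction), so
`x + Pi.single i n ∈ H`, so it is in `G` by (1).
-/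
namespace DCh
open RCone

private theorem bsb_single_add {k : ℕ} (i : Fin k) (a b : ℕ) (x : Fin k → ℕ) :
    x + Pi.single i a + Pi.single i b = x + Pi.single i (a + b) := by
  rw [add_assoc, ← Pi.single_add]

private theorem bsb_closed {k : ℕ} {V : Set (Fin k → ℕ)} {i : Fin k} {p : ℕ} (x : Fin k → ℕ)
    (h : x ∈ hull V i p) (m : ℕ) : x + Pi.single i (m * p) ∈ hull V i p := by
  intro n
  rw [bsb_single_add, ← add_mul]
  exact h _

theorem remove_dir {k : ℕ} {V : Set (Fin k → ℕ)} {i : Fin k} {p : ℕ} (hp : 0 < p)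
    (hper : LineP V i p) (hhull : Rcg (hull V i p)) (hs : ∀ c, Rcg (slc V i c)) :
    ∃ G : Set (Fin k → ℕ), Rcg G ∧ Rcg (V ∩ G) ∧ Thin (V ∩ Gᶜ) i := by
  obtain ⟨N, q, hq, hNq⟩ := id hhull
  have hGr : Rcg {x : Fin k → ℕ | x + Pi.single i (N * p) ∈ hull V i p} := Rcg.shift _ hhull
  have hHV : ∀ x, x ∈ hull V i p → x ∈ V := by
    intro x hx
    have := hx 0
    simpa using this
  have h1 : ∀ x : Fin k → ℕ, N ≤ x i →
      (x ∈ {x : Fin k → ℕ | x + Pi.single i (N * p) ∈ hull V i p} ↔ x ∈ hull V i p) := by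
    intro x hx
    constructor
    · intro hG
      have hG' : x + Pi.single i (N * p) ∈ hull V i p := hG
      have h2 := bsb_closed _ hG' (N * (q - 1))
      rw [bsb_single_add] at h2
      have h3 : N * p + N * (q - 1) * p = N * p * q := by
        obtain ⟨q', rfl⟩ : ∃ q', q = q' + 1 := ⟨q - 1, by omega⟩
        simp only [Nat.add_sub_cancel]
        ring
      rw [h3] at h2
      exact (Rcg.add_mul hNq i x hx (N * p)).2 h2
    · intro hH
      exact bsb_closed x hH N
  refine ⟨{x : Fin k → ℕ | x + Pi.single i (N * p) ∈ hull V i p}, hGr, ?_, ?_⟩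
  · have hset : V ∩ {x : Fin k → ℕ | x + Pi.single i (N * p) ∈ hull V i p} =
        ({x | N ≤ x i} ∩ hull V i p) ∪
          {x | ∃ t < N, x ∈ {x | x i = t} ∩ slc V i t ∩
            {x : Fin k → ℕ | x + Pi.single i (N * p) ∈ hull V i p}} := by
      ext x
      constructor
      · rintro ⟨hV, hG⟩
        rcases le_or_gt N (x i) with h | h
        · left
          exact ⟨h, (h1 x h).1 hG⟩
        · right
          refine ⟨x i, h, ⟨rfl, ?_⟩, hG⟩
          change Function.update x i (x i) ∈ V
          rw [Function.update_eq_self]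
          exact hV
      · rintro (⟨h, hH⟩ | ⟨t, ht, ⟨h2, h3⟩, h4⟩)
        · exact ⟨hHV x hH, (h1 x h).2 hH⟩
        · refine ⟨?_, h4⟩
          have h5 : x i = t := h2
          have h6 : Function.update x i t ∈ V := h3
          rw [← h5, Function.update_eq_self] at h6
          exact h6
    rw [hset]
    refine Rcg.union (Rcg.inter (Rcg_le i N) hhull) (Rcg.ex_lt N _ ?_)
    intro t _
    exact Rcg.inter (Rcg.inter (Rcg_eq i t) (hs t)) hGr
  · intro x
    obtain ⟨n₀, hn₀⟩ := hper x
    refine ⟨max n₀ N, ?_⟩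
    rintro n hn ⟨hV, hG⟩
    apply hG
    have hn1 : n₀ ≤ n := le_trans (le_max_left _ _) hn
    have hn2 : N ≤ n := le_trans (le_max_right _ _) hn
    have hm : ∀ m : ℕ, x + Pi.single i (n + m * p) ∈ V := by
      intro m
      induction m with
      | zero => simpa using hV
      | succ m ih =>
        have h7 := (hn₀ (n + m * p) (by omega)).1 ih
        have h8 : n + (m + 1) * p = n + m * p + p := by ring
        rw [h8]
        exact h7
    have hH : x + Pi.single i n ∈ hull V i p := by
      intro m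
      rw [bsb_single_add]
      exact hm m
    exact (h1 _ (by simp only [Pi.add_apply, Pi.single_eq_same]; omega)).2 hH

end DCh
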