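import Pool.Agent.DCH.Bsb
/-!
# Bsc (size 2): making all the lines finite

By induction over a finset `J` of coordinates: `∃ W ∈ 𝒱, ¬ Rcg W ∧ ∀ i ∈ J, Thin W i` (finally
`J = Finset.univ`). Step: for `W` and the new coordinate `i` take the period `p` of `LinePer W`, the set `G` of
`remove_dir` and `W' = W ∩ Gᶜ`, in `𝒱` by `hcl` and `Rcg.compl`. If `W'` were recognizable then so would be
`W = (W ∩ G) ∪ (W ∩ Gᶜ)`. `Thin` passes to subsets.
-/
namespace DCh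
open RCone

theorem remove_all {k : ℕ} (𝒱 : Set (Set (Fin k → ℕ)))
    (hcl : ∀ V ∈ 𝒱, ∀ R : Set (Fin k → ℕ), Rcg R → V ∩ R ∈ 𝒱)
    (hper : ∀ V ∈ 𝒱, LinePer V) (hhull : ∀ V ∈ 𝒱, ∀ (i : Fin k) (p : ℕ), 0 < p → Rcg (hull V i p))
    (hs : ∀ V ∈ 𝒱, ∀ (i : Fin k) (c : ℕ), Rcg (slc V i c)) {V : Set (Fin k → ℕ)} (hV : V ∈ 𝒱)
    (hn : ¬ Rcg V) : ∃ W ∈ 𝒱, ¬ Rcg W ∧ ∀ i, Thin W i := by
  classical
  have key : ∀ J : Finset (Fin k), ∃ W ∈ 𝒱, ¬ Rcg W ∧ ∀ i ∈ J, Thin W i := by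
    intro J
    induction J using Finset.induction_on with
    | empty => exact ⟨V, hV, hn, fun i hi => absurd hi (Finset.notMem_empty i)⟩
    | insert i J _ ih =>
      obtain ⟨W, hW, hnW, hT⟩ := ih
      obtain ⟨p, hp, hlp⟩ := hper W hW i
      obtain ⟨G, hG, hWG, hTG⟩ := remove_dir hp hlp (hhull W hW i p hp) (hs W hW i)
      refine ⟨W ∩ Gᶜ, hcl W hW _ hG.compl, ?_, ?_⟩
      · intro h
        apply hnW
        have h1 := hWG.union h
        rwa [← Set.inter_union_distrib_left, Set.union_compl_self, Set.inter_univ] at h1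
      · intro j hj
        rcases Finset.mem_insert.1 hj with rfl | hj
        · exact hTG
        · intro x
          obtain ⟨n0, h0⟩ := hT j hj x
          exact ⟨n0, fun n hn h => h0 n hn h.1⟩
  obtain ⟨W, hW, hnW, hT⟩ := key Finset.univ
  exact ⟨W, hW, hnW, fun i => hT i (Finset.mem_univ i)⟩

end DCh
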