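import Pool.Agent.DCH.Rcb
/-!
# Bsd (size 3): if all lines are finite, every coordinate is good

Let `c : ℕ`; we show that `V ∩ slc V i c` is finite (`Rcg_finite`). Let `(N, q)` be the data of
`Rcg (slc V i c)`. (1) If `x ∈ slc V i c` and `j ≠ i` then `x j < N`: otherwise `x + Pi.single j (n * q)` is in
`slc V i c` for all `n` (induction), i.e. `Function.update x i c + Pi.single j (n * q) ∈ V` for all `n`, which
contradicts `Thin V j` at the point `Function.update x i c` (take `n ≥ n₀`, `n * q ≥ n`).
(2) Hence the set `Z = {z | z ∈ V ∧ z i = c ∧ ∀ j ≠ i, z j < N}` is finite (`Set.Finite.subset` of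
`{z | ∀ j, z j ≤ N + c}`, `Set.Finite.pi` or `Set.finite_Iic`), and for `x ∈ slc V i c` the point
`Function.update x i c` is in `Z`. (3) For `z ∈ Z` only finitely many `n` satisfy `Function.update z i n ∈ V`
(`Thin V i` at `Function.update z i 0`). (4) `V ∩ slc V i c` is contained in the union over `z ∈ Z` of the images
under `n ↦ Function.update z i n` of these finite sets: `x = Function.update (Function.update x i c) i (x i)`.
-/
namespace DCh
open RCone

theorem good_of_thin {k : ℕ} {V : Set (Fin k → ℕ)} (hthin : ∀ i, Thin V i)
    (hs : ∀ (i : Fin k) (c : ℕ), Rcg (slc V i c)) (i : Fin k) : Good V i := by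
  classical
  intro c
  apply Rcg_finite
  obtain ⟨N, q, hq, hR⟩ := hs i c
  have h1 : ∀ x ∈ slc V i c, ∀ j, j ≠ i → x j < N := by
    intro x hx j hj
    by_contra hN
    push Not at hN
    have hall : ∀ n : ℕ, x + Pi.single j (n * q) ∈ slc V i c := by
      intro n
      induction n with
      | zero => simpa using hx
      | succ n ih =>
        have h := (hR j (x + Pi.single j (n * q)) (by simp; omega)).1 ih
        rw [add_assoc, ← Pi.single_add] at h
        rwa [Nat.succ_mul]
    obtain ⟨n₀, hn₀⟩ := hthin j (Function.update x i c)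
    have h2 := hall n₀
    have h3 := hn₀ (n₀ * q) (Nat.le_mul_of_pos_right _ hq)
    apply h3
    have h4 : Function.update x i c + Pi.single j (n₀ * q)
        = Function.update (x + Pi.single j (n₀ * q)) i c := by
      ext l
      by_cases hl : l = i
      · subst hl; simp [Ne.symm hj]
      · simp [hl]
    rw [h4]
    exact h2
  have hZ : {z : Fin k → ℕ | z i = c ∧ ∀ j, j ≠ i → z j < N}.Finite := by
    refine (Set.finite_Icc (0 : Fin k → ℕ) (fun _ => N + c)).subset ?_
    rintro z ⟨hz1, hz2⟩
    refine ⟨fun j => Nat.zero_le _, fun j => ?_⟩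
    by_cases hj : j = i
    · subst hj
      show z j ≤ N + c
      omega
    · have := hz2 j hj
      show z j ≤ N + c
      omega
  have hF : ∀ z : Fin k → ℕ, {n : ℕ | Function.update z i n ∈ V}.Finite := by
    intro z
    obtain ⟨n₀, hn₀⟩ := hthin i (Function.update z i 0)
    refine (Set.finite_Iio n₀).subset ?_
    intro n hn
    by_contra hlt
    have hge : n ≥ n₀ := by simpa using hlt
    refine hn₀ n hge ?_
    have h4 : Function.update z i 0 + Pi.single i n = Function.update z i n := by
      ext l
      by_cases hl : l = i
      · subst hl; simp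
      · simp [hl]
    rw [h4]
    exact hn
  refine (hZ.biUnion (fun z _ => (hF z).image (fun n => Function.update z i n))).subset ?_
  rintro x ⟨hxV, hx⟩
  refine Set.mem_biUnion (x := Function.update x i c) ⟨by simp, fun j hj => ?_⟩ ?_
  · rw [Function.update_of_ne hj]
    exact h1 x hx j hj
  · refine ⟨x i, ?_, ?_⟩
    · show Function.update (Function.update x i c) i (x i) ∈ V
      simpa using hxV
    · simp

end DCh
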