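import Pool.Agent.DCH.Defs
/-!
# Rgb (size 2): the sorted words form a regular language

A DFA: states `Option (Option (Fin k))`: `none` is a sink, `some none` is the start state (nothing read),
`some (some i)` means that the word read so far is sorted and its last letter is `i`; reading `j` from
`some (some i)` gives `some (some j)` if `i ≤ j` and `none` otherwise. Invariant, by induction over the word
(cons, from an arbitrary state): from `some (some i)` the word `u` is accepted iff `(i :: u)` is sorted.
(Or: induction from the right.) The second statement is an intersection of preimages:
`RCone.regular_preimage` with `Prod.fst` and `Prod.snd`; `Language.IsRegular.inf`.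
-/
namespace DCh
open RCone

private def rgbStep (k : ℕ) : Option (Option (Fin k)) → Fin k → Option (Option (Fin k))
  | none, _ => none
  | some none, j => some (some j)
  | some (some i), j => if i ≤ j then some (some j) else none

private def rgbM (k : ℕ) : DFA (Fin k) (Option (Option (Fin k))) where
  step := rgbStep k
  start := some none
  accept := {s | s ≠ none}

private theorem rgb_none (k : ℕ) (u : List (Fin k)) : (rgbM k).evalFrom none u = none := by
  induction u with
  | nil => rfl
  | cons a u ih => rw [DFA.evalFrom_cons]; exact ih

private theorem rgb_some (k : ℕ) (u : List (Fin k)) (i : Fin k) :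
    (rgbM k).evalFrom (some (some i)) u ≠ none ↔ (i :: u).Pairwise (· ≤ ·) := by
  induction u generalizing i with
  | nil => simp [DFA.evalFrom]
  | cons a u ih =>
    rw [DFA.evalFrom_cons]
    by_cases h : i ≤ a
    · have h1 : (rgbM k).step (some (some i)) a = some (some a) := by
        simp [rgbM, rgbStep, h]
      rw [h1, ih a, List.pairwise_cons (l := a :: u)]
      constructor
      · intro h2
        refine ⟨?_, h2⟩
        intro b hb
        rcases List.mem_cons.1 hb with rfl | hb
        · exact h
        · exact h.trans ((List.pairwise_cons.1 h2).1 b hb)
      · intro h2
        exact h2.2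
    · have h1 : (rgbM k).step (some (some i)) a = none := by
        simp [rgbM, rgbStep, h]
      rw [h1, rgb_none]
      constructor
      · intro h2
        exact absurd rfl h2
      · intro h2
        exact absurd ((List.pairwise_cons.1 h2).1 a (List.mem_cons.2 (Or.inl rfl))) h

theorem regular_srt (k : ℕ) : Language.IsRegular (T := Fin k) {u | Srt u} := by
  refine ⟨_, inferInstance, rgbM k, ?_⟩
  ext u
  rw [DFA.mem_accepts]
  cases u with
  | nil =>
    constructor
    · intro _
      exact List.Pairwise.nil
    · intro _
      show (rgbM k).evalFrom _ [] ∈ _
      simp [rgbM, DFA.evalFrom]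
  | cons a u =>
    have h := rgb_some k u a
    have h1 : (rgbM k).eval (a :: u) = (rgbM k).evalFrom (some (some a)) u := by
      unfold DFA.eval
      rw [DFA.evalFrom_cons]
      rfl
    rw [h1]
    exact h

theorem regular_srt2 (k l : ℕ) : Language.IsRegular (T := Option (Fin k) × Option (Fin l))
    {z | Srt (p1 z) ∧ Srt (p2 z)} := by
  have a2 := regular_preimage (α := Option (Fin k) × Option (Fin l)) Prod.fst (regular_srt k)
  have a3 := regular_preimage (α := Option (Fin k) × Option (Fin l)) Prod.snd (regular_srt l)
  exact a2.inf a3

end DCh
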