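import Pool.Agent.DCH.Defs
/-!
# Wda (size 2): sorted words over `Fin k` and their Parikh vectors

`cnt_wd`: `(wd x).count i`: unfold `wd`, `bw`; `List.count_flatten`, `rep [a] n = List.replicate n a`
(`RCone.rep_singleton` in `Pool.Agent.RC.Words`), so the count is the sum over `j` of
`(List.replicate (x j) j).count i = if j = i then x j else 0`.
`Srt_wd`: `List.pairwise_flatten` and `List.pairwise_ofFn` (or `List.pairwise_iff_getElem`): the blocks are
constant and for `i < j` all the letters of the block `i` are `i ≤ j`.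
`eq_of_cnt`: equal counts give a permutation (`List.perm_iff_count`), and two sorted lists which are
permutations of each other are equal (`List.Perm.eq_of_pairwise` or `List.Perm.eq_of_sorted`, antisymmetry of `≤`).
`eq_wd` follows from the other three.
-/
namespace DCh
open RCone

variable {k : ℕ}

private theorem Wda_rep (a : Fin k) (n : ℕ) : rep [a] n = List.replicate n a := by
  unfold rep
  induction n with
  | zero => rfl
  | succ n ih => rw [List.replicate_succ, List.flatten_cons, ih, List.replicate_succ]; rfl

private theorem Wda_wd (x : Fin k → ℕ) :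
    wd x = (List.ofFn fun i => List.replicate (x i) i).flatten := by
  unfold wd bw
  simp only [Wda_rep]

theorem cnt_wd (x : Fin k → ℕ) : cnt (wd x) = x := by
  funext i
  unfold cnt
  rw [Wda_wd, List.count_flatten, List.map_ofFn, List.sum_ofFn]
  simp only [Function.comp, List.count_replicate, beq_iff_eq]
  rw [Finset.sum_ite_eq']
  simp

theorem Srt_wd (x : Fin k → ℕ) : Srt (wd x) := by
  unfold Srt
  rw [Wda_wd, List.pairwise_flatten]
  constructor
  · intro l hl
    rw [List.mem_ofFn'] at hl
    obtain ⟨i, rfl⟩ := hl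
    rw [List.pairwise_replicate]
    right
    exact le_refl i
  · rw [List.pairwise_ofFn]
    intro i j hij a ha b hb
    rw [List.mem_replicate] at ha hb
    rw [ha.2, hb.2]
    exact hij.le

theorem eq_of_cnt {u v : List (Fin k)} (hu : Srt u) (hv : Srt v) (h : cnt u = cnt v) : u = v := by
  have hp : u.Perm v := by
    rw [List.perm_iff_count]
    intro a
    exact congrFun h a
  exact hp.eq_of_pairwise (fun a b _ _ h1 h2 => le_antisymm h1 h2) hu hv

theorem eq_wd {u : List (Fin k)} (hu : Srt u) : u = wd (cnt u) :=
  eq_of_cnt hu (Srt_wd _) (cnt_wd _).symm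

theorem wd_mem_Lk (S : Set (Fin k → ℕ)) (x : Fin k → ℕ) : wd x ∈ Lk S ↔ x ∈ S := by
  constructor
  · intro h
    have h2 : cnt (wd x) ∈ S := h.2
    rwa [cnt_wd] at h2
  · intro h
    refine ⟨Srt_wd x, ?_⟩
    rw [cnt_wd]
    exact h

/-- `Lk` determines the set -/
theorem mem_Lk (S : Set (Fin k → ℕ)) (u : List (Fin k)) : u ∈ Lk S ↔ ∃ x ∈ S, u = wd x := by
  constructor
  · intro h
    exact ⟨cnt u, h.2, eq_wd h.1⟩
  · rintro ⟨x, hx, rfl⟩
    exact (wd_mem_Lk S x).2 hx

end DCh
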