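import Pool.Agent.DCH.Tcb
import Pool.Agent.DCH.Wda
import Pool.Agent.DCH.Rgb
/-!
# Ctb (size 2): strictly monotone letter maps

Let `f : Fin k → Fin K` be strictly monotone and `g = Function.partialInv f : Fin K → Option (Fin k)`, so
`g y = some x ↔ f x = y` (`Function.partialInv_of_injective`).
`filterMap_srt`: a sorted word `w` over `Fin K` has a sorted image (`List.Pairwise.filterMap`: if `y ≤ y'`,
`g y = some x`, `g y' = some x'`, then `f x ≤ f x'`, so `x ≤ x'`: `StrictMono.le_iff_le`).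
`filterMap_cnt`: `(w.filterMap g).count x = w.count (f x)`: induction over `w`.
`coT_pull`: the complement of `{y | y ∘ f ∈ V}` is `{y | y ∘ f ∈ Vᶜ}`, and
`Lk {y | y ∘ f ∈ Vᶜ} = {w | w.filterMap g ∈ Lk Vᶜ} ∩ {w | Srt w}`: `inv_filterMap_mem_T`,
`inter_regular_mem_T` with `regular_srt`.
`coT_proj`: the complement of the set is `{x | ∃ y ∈ Vᶜ, y ∘ f = x}` and its language is
`{w | ∃ u ∈ Lk Vᶜ, u.filterMap g = w}` (`⊆`: given a sorted word `w` with `cnt w = y ∘ f`, take `u = wd y`, and
use `eq_of_cnt`); `filterMap_mem_T`.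
-/
namespace DCh
open RCone

variable {X : Type} {A : Language X} {k K : ℕ}

private theorem Ctb_pinv {f : Fin k → Fin K} (hf : StrictMono f) (x : Fin k) (y : Fin K) :
    Function.partialInv f y = some x ↔ f x = y :=
  Function.partialInv_of_injective hf.injective x y

theorem filterMap_srt {f : Fin k → Fin K} (hf : StrictMono f) {w : List (Fin K)} (hw : Srt w) :
    Srt (w.filterMap (Function.partialInv f)) := by
  unfold Srt at *
  refine List.Pairwise.filterMap _ ?_ hw
  intro a a' haa' b hb b' hb'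
  have h1 : f b = a := (Ctb_pinv hf b a).1 (by simpa using hb)
  have h2 : f b' = a' := (Ctb_pinv hf b' a').1 (by simpa using hb')
  rw [← h1, ← h2] at haa'
  exact hf.le_iff_le.1 haa'

theorem filterMap_cnt {f : Fin k → Fin K} (hf : StrictMono f) (w : List (Fin K)) :
    cnt (w.filterMap (Function.partialInv f)) = cnt w ∘ f := by
  funext x
  show (w.filterMap (Function.partialInv f)).count x = w.count (f x)
  induction w with
  | nil => simp
  | cons a w ih =>
    rw [List.count_cons]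
    rcases hq : Function.partialInv f a with _ | b
    · rw [List.filterMap_cons_none hq, ih]
      have hne : ¬ (a == f x) = true := by
        intro h
        have h' : a = f x := by simpa using h
        have := (Ctb_pinv hf x a).2 h'.symm
        rw [hq] at this
        cases this
      simp [hne]
    · rw [List.filterMap_cons_some hq, List.count_cons, ih]
      have hb : f b = a := (Ctb_pinv hf b a).1 hq
      congr 1
      by_cases hx : b = x
      · subst hx
        simp [hb]
      · have h1 : ¬ a = f x := by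
          intro h
          exact hx (hf.injective (hb.trans h))
        simp [hx, h1]

theorem coT_pull {f : Fin k → Fin K} (hf : StrictMono f) {V : Set (Fin k → ℕ)}
    (hV : V ∈ coT A k) : {y : Fin K → ℕ | y ∘ f ∈ V} ∈ coT A K := by
  have h1 := inter_regular_mem_T (inv_filterMap_mem_T (A := A) hV (Function.partialInv f))
    (regular_srt K)
  show (⟨K, Lk {y : Fin K → ℕ | y ∘ f ∈ V}ᶜ⟩ : Σ n : ℕ, Language (Fin n)) ∈ T A
  convert h1 using 2
  ext w
  show (Srt w ∧ cnt w ∈ {y : Fin K → ℕ | y ∘ f ∈ V}ᶜ) ↔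
    ((Srt (w.filterMap (Function.partialInv f)) ∧
      cnt (w.filterMap (Function.partialInv f)) ∈ Vᶜ) ∧ Srt w)
  rw [filterMap_cnt hf]
  constructor
  · rintro ⟨h2, h3⟩
    exact ⟨⟨filterMap_srt hf h2, h3⟩, h2⟩
  · rintro ⟨⟨_, h3⟩, h2⟩
    exact ⟨h2, h3⟩

theorem coT_proj {f : Fin k → Fin K} (hf : StrictMono f) {V : Set (Fin K → ℕ)}
    (hV : V ∈ coT A K) : {x : Fin k → ℕ | ∀ y : Fin K → ℕ, y ∘ f = x → y ∈ V} ∈ coT A k := by
  have h1 := filterMap_mem_T (A := A) hV (Function.partialInv f)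
  show (⟨k, Lk {x : Fin k → ℕ | ∀ y : Fin K → ℕ, y ∘ f = x → y ∈ V}ᶜ⟩ :
    Σ n : ℕ, Language (Fin n)) ∈ T A
  convert h1 using 2
  ext w
  show (Srt w ∧ cnt w ∈ {x : Fin k → ℕ | ∀ y : Fin K → ℕ, y ∘ f = x → y ∈ V}ᶜ) ↔
    (∃ u ∈ Lk Vᶜ, u.filterMap (Function.partialInv f) = w)
  constructor
  · rintro ⟨h2, h3⟩
    have h4 : ∃ y : Fin K → ℕ, y ∘ f = cnt w ∧ y ∉ V := by
      by_contra hcon
      apply h3
      intro y hy
      by_contra hyV
      exact hcon ⟨y, hy, hyV⟩
    obtain ⟨y, hy, hyV⟩ := h4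
    refine ⟨wd y, ⟨Srt_wd y, ?_⟩, ?_⟩
    · rw [cnt_wd]; exact hyV
    · apply eq_of_cnt (filterMap_srt hf (Srt_wd y)) h2
      rw [filterMap_cnt hf, cnt_wd, hy]
  · rintro ⟨u, ⟨h2, h3⟩, rfl⟩
    refine ⟨filterMap_srt hf h2, ?_⟩
    intro h4
    exact h3 (h4 (cnt u) (filterMap_cnt hf u).symm)

end DCh
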