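import Pool.Agent.DCH.Cta
import Pool.Agent.DCH.Ctb
import Pool.Agent.DCH.Rcb
/-!
# Ctd (size 1): slices

Apply `coT_proj` with `f = i.succAbove` (strictly monotone) to the set `V ∪ {y | y i ≠ c}` (`coT_union_rcg`,
`Rcg_eq`, `Rcg.compl`): if `y ∘ i.succAbove = x` and `y i = c` then `y = i.insertNth c x`.
-/
namespace DCh
open RCone

variable {X : Type} {A : Language X} {k : ℕ}

theorem coT_slice {V : Set (Fin (k + 1) → ℕ)} (hV : V ∈ coT A (k + 1)) (i : Fin (k + 1)) (c : ℕ) :
    {x : Fin k → ℕ | (i.insertNth c x : Fin (k + 1) → ℕ) ∈ V} ∈ coT A k := by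
  have h1 : V ∪ {y : Fin (k + 1) → ℕ | y i = c}ᶜ ∈ coT A (k + 1) :=
    coT_union_rcg hV (Rcg_eq i c).compl
  have h2 := coT_proj (f := i.succAbove) (Fin.strictMono_succAbove i) h1
  have h3 : {x : Fin k → ℕ | (i.insertNth c x : Fin (k + 1) → ℕ) ∈ V} =
      {x : Fin k → ℕ | ∀ y : Fin (k + 1) → ℕ, y ∘ i.succAbove = x →
        y ∈ V ∪ {y : Fin (k + 1) → ℕ | y i = c}ᶜ} := by
    ext x
    constructor
    · intro hx y hy
      by_cases hc : y i = c
      · left
        have hyx : y = (i.insertNth c x : Fin (k + 1) → ℕ) := by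
          rw [Fin.eq_insertNth_iff]
          exact ⟨hc, hy⟩
        rw [hyx]
        exact hx
      · right
        exact hc
    · intro hx
      have h4 := hx (i.insertNth c x : Fin (k + 1) → ℕ) (by
        funext j
        simp)
      rcases h4 with h4 | h4
      · exact h4
      · exact absurd (by simp) h4
  rw [h3]
  exact h2

end DCh
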