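import Pool.Agent.DCH.Tca
import Pool.Agent.DCH.Wda
import Pool.Agent.DCH.Rgd
/-!
# Cte (size 3): the hull of period `p` in direction `i`

The complement of `hull V i p` is `{x | ∃ n, x + Pi.single i (n * p) ∈ Vᶜ}`, and its language is
`{w | ∃ z ∈ R, p1 z ∈ Lk Vᶜ ∧ p2 z = w}` for the language `R` of the label words `z` whose letters are
`(some j, some j)`, `j : Fin k`, and `(some i, none)`, and in which the number of letters `(some i, none)` is
divisible by `p`. For `z ∈ R`: `cnt (p1 z) = cnt (p2 z) + Pi.single i (z.count (some i, none))` (induction
over `z`), and `p2 z` is a sublist of `p1 z`, so it is sorted if `p1 z` is sorted (`List.Pairwise.sublist`).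
Conversely, if `w` is sorted and `cnt w + Pi.single i (n * p) ∈ Vᶜ`, split `w = w₁ ++ w₂` with all letters of
`w₁` at most `i`, all letters of `w₂` greater than `i` (or `takeWhile (· ≤ i)`) and take
`z = w₁.map (fun j => (some j, some j)) ++ List.replicate (n * p) (some i, none) ++ w₂.map (fun j => (some j, some j))`:
`p1 z = w₁ ++ List.replicate (n * p) i ++ w₂` is sorted, `p2 z = w`.
`R` is regular: `RCone.regular_forall` and the preimage (`RCone.regular_preimage`) of the regular language
`{u : List (Fin 1) | cnt u ∈ {x | x 0 % p = 0}}` (module Rgd, `regular_cnt`; `Rcg` is immediate with `N = 0` and the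
period `p`) under the map which sends `(some i, none)` to `some 0` and all other letters to `none`.
-/
namespace DCh
open RCone

variable {X : Type} {A : Language X} {k : ℕ}

theorem regular_count {α : Type} [DecidableEq α] (a : α) (p : ℕ) (hp : 0 < p) :
    Language.IsRegular (T := α) {z | p ∣ z.count a} := by
  have h1 : Rcg ({x | p ∣ x 0} : Set (Fin 1 → ℕ)) := by
    refine ⟨0, p, hp, fun i x _ => ?_⟩
    have hi : i = 0 := Subsingleton.elim _ _
    subst hi
    simp only [Set.mem_ofPred_eq, Pi.add_apply, Pi.single_eq_same]
    exact (Nat.dvd_add_left (dvd_refl p)).symm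
  have h2 := regular_cnt h1
  have h3 := regular_preimage (α := α) (fun b => if b = a then some (0 : Fin 1) else none) h2
  have h4 : ∀ z : List α,
      (z.filterMap (fun b => if b = a then some (0 : Fin 1) else none)).count 0 = z.count a := by
    intro z
    induction z with
    | nil => rfl
    | cons b z ih =>
      by_cases hb : b = a
      · rw [List.filterMap_cons_some (b := (0 : Fin 1)) (by simp [hb]), List.count_cons,
          List.count_cons, ih]
        simp [hb]
      · rw [List.filterMap_cons_none (by simp [hb]), List.count_cons, ih]
        simp [hb]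
  convert h3 using 1
  ext z
  show p ∣ z.count a ↔ p ∣ (z.filterMap _).count 0
  rw [h4]

/-- the two kinds of labels -/
private def lab (i : Fin k) (l : Option (Fin k) × Option (Fin k)) : Prop :=
  (∃ j, l = (some j, some j)) ∨ l = (some i, none)

private theorem sub_lab {i : Fin k} {z : List (Option (Fin k) × Option (Fin k))}
    (hz : ∀ l ∈ z, lab i l) : (p2 z).Sublist (p1 z) := by
  induction z with
  | nil => exact List.Sublist.refl _
  | cons l z ih =>
    have ih' := ih (fun l hl => hz l (List.mem_cons_of_mem _ hl))
    rcases hz l List.mem_cons_self with ⟨j, rfl⟩ | rfl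
    · exact List.Sublist.cons_cons j ih'
    · exact List.Sublist.cons i ih'

private theorem cnt_lab {i : Fin k} {z : List (Option (Fin k) × Option (Fin k))}
    (hz : ∀ l ∈ z, lab i l) :
    cnt (p1 z) = cnt (p2 z) + Pi.single i (z.count (some i, none)) := by
  induction z with
  | nil =>
    funext j
    simp [cnt, p1, p2]
  | cons l z ih =>
    have ih' := ih (fun l hl => hz l (List.mem_cons_of_mem _ hl))
    funext j'
    have ih2 := congrFun ih' j'
    rcases hz l List.mem_cons_self with ⟨j, rfl⟩ | rfl
    · have e1 : p1 ((some j, some j) :: z) = j :: p1 z := rfl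
      have e2 : p2 ((some j, some j) :: z) = j :: p2 z := rfl
      have e3 : ((some j, some j) :: z).count (some i, none) = z.count (some i, none) := by
        rw [List.count_cons_of_ne]
        intro h
        simp at h
      rw [e1, e2, e3]
      simp only [cnt, Pi.add_apply, List.count_cons] at ih2 ⊢
      omega
    · have e1 : p1 ((some i, none) :: z) = i :: p1 z := rfl
      have e2 : p2 ((some i, none) :: z) = p2 z := rfl
      have e3 : ((some i, none) :: z).count (some i, none) = z.count (some i, none) + 1 := by
        rw [List.count_cons_self]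
      rw [e1, e2, e3]
      simp only [cnt, Pi.add_apply, List.count_cons] at ih2 ⊢
      by_cases hj : j' = i
      · subst hj
        simp only [Pi.single_eq_same, beq_self_eq_true, if_true] at ih2 ⊢
        omega
      · simp only [Pi.single_eq_of_ne hj] at ih2 ⊢
        have : (i == j') = false := by
          rw [beq_eq_false_iff_ne]
          exact fun h => hj h.symm
        rw [this]
        simp only [Bool.false_eq_true, if_false]
        omega

private theorem p1_map (u : List (Fin k)) :
    p1 (u.map (fun j => ((some j, some j) : Option (Fin k) × Option (Fin k)))) = u := by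
  induction u with
  | nil => rfl
  | cons a u ih =>
    show a :: p1 _ = _
    rw [ih]

private theorem p2_map (u : List (Fin k)) :
    p2 (u.map (fun j => ((some j, some j) : Option (Fin k) × Option (Fin k)))) = u := by
  induction u with
  | nil => rfl
  | cons a u ih =>
    show a :: p2 _ = _
    rw [ih]

private theorem p1_rep (i : Fin k) (n : ℕ) :
    p1 (List.replicate n ((some i, none) : Option (Fin k) × Option (Fin k))) =
      List.replicate n i := by
  induction n with
  | zero => rfl
  | succ n ih =>
    rw [List.replicate_succ, List.replicate_succ]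
    show i :: p1 _ = _
    rw [ih]

private theorem p2_rep (i : Fin k) (n : ℕ) :
    p2 (List.replicate n ((some i, none) : Option (Fin k) × Option (Fin k))) = [] := by
  induction n with
  | zero => rfl
  | succ n ih =>
    rw [List.replicate_succ]
    show p2 _ = _
    exact ih

private theorem p1_app {X Y : Type} (u v : List (Option X × Option Y)) :
    p1 (u ++ v) = p1 u ++ p1 v := List.filterMap_append

private theorem p2_app {X Y : Type} (u v : List (Option X × Option Y)) :
    p2 (u ++ v) = p2 u ++ p2 v := List.filterMap_append

/-- splitting a sorted word -/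
private theorem split_srt {w : List (Fin k)} (hw : Srt w) (i : Fin k) :
    ∃ w₁ w₂ : List (Fin k), w = w₁ ++ w₂ ∧ (∀ a ∈ w₁, a ≤ i) ∧ (∀ b ∈ w₂, i < b) := by
  refine ⟨w.filter (fun a => decide (a ≤ i)), w.filter (fun a => !decide (a ≤ i)), ?_, ?_, ?_⟩
  · have hp : (w.filter (fun a => decide (a ≤ i)) ++ w.filter (fun a => !decide (a ≤ i))).Perm w :=
      List.filter_append_perm _ _
    refine eq_of_cnt hw ?_ ?_
    · unfold Srt at hw ⊢
      rw [List.pairwise_append]
      refine ⟨hw.filter _, hw.filter _, ?_⟩
      intro a ha b hb
      rw [List.mem_filter] at ha hb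
      have h1 : a ≤ i := of_decide_eq_true ha.2
      have h2 : ¬ b ≤ i := by
        intro h
        have := hb.2
        simp [h] at this
      exact h1.trans (le_of_lt (not_le.1 h2))
    · funext j
      exact (hp.count_eq j).symm
  · intro a ha
    rw [List.mem_filter] at ha
    exact of_decide_eq_true ha.2
  · intro b hb
    rw [List.mem_filter] at hb
    rw [← not_le]
    intro h
    have := hb.2
    simp [h] at this

theorem coT_hull {V : Set (Fin k → ℕ)} (hV : V ∈ coT A k) (i : Fin k) (p : ℕ) (hp : 0 < p) :
    hull V i p ∈ coT A k := by
  have hR1 := regular_forall (α := Option (Fin k) × Option (Fin k)) (lab i)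
  have hR2 : Language.IsRegular (T := Option (Fin k) × Option (Fin k))
      {z | p ∣ z.count (some i, none)} := by
    have hr := regular_count (α := Option (Fin k) × Option (Fin k)) (some i, none) p hp
    have hb : (instBEqOfDecidableEq : BEq (Option (Fin k) × Option (Fin k))) = instBEqProd :=
      lawful_beq_subsingleton _ _
    rw [hb] at hr
    exact hr
  have hR := hR1.inf hR2
  have h := mem_T_labels hV hR
  have e : (Lk (hull V i p)ᶜ : Language (Fin k)) = {w | ∃ z ∈
      (({z | ∀ a ∈ z, lab i a} : Language (Option (Fin k) × Option (Fin k))) ⊓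
        ({z | p ∣ z.count (some i, none)} : Language (Option (Fin k) × Option (Fin k)))),
      p1 z ∈ Lk Vᶜ ∧ p2 z = w} := by
    ext w
    constructor
    · rintro ⟨hs, hc⟩
      have hc' : ¬ ∀ n : ℕ, cnt w + Pi.single i (n * p) ∈ V := hc
      rw [not_forall] at hc'
      obtain ⟨n, hn⟩ := hc'
      obtain ⟨w₁, w₂, rfl, h1, h2⟩ := split_srt hs i
      have hz : ∀ l ∈ w₁.map (fun j => ((some j, some j) : Option (Fin k) × Option (Fin k))) ++
          List.replicate (n * p) (some i, none) ++
          w₂.map (fun j => ((some j, some j) : Option (Fin k) × Option (Fin k))), lab i l := by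
        intro l hl
        rw [List.mem_append, List.mem_append, List.mem_map, List.mem_map] at hl
        rcases hl with (⟨j, _, rfl⟩ | hl) | ⟨j, _, rfl⟩
        · exact Or.inl ⟨j, rfl⟩
        · exact Or.inr (List.eq_of_mem_replicate hl)
        · exact Or.inl ⟨j, rfl⟩
      have hcz : (w₁.map (fun j => ((some j, some j) : Option (Fin k) × Option (Fin k))) ++
          List.replicate (n * p) (some i, none) ++
          w₂.map (fun j => ((some j, some j) : Option (Fin k) × Option (Fin k)))).count
            (some i, none) = n * p := by
        have hm : ∀ u : List (Fin k), (u.map (fun j =>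
            ((some j, some j) : Option (Fin k) × Option (Fin k)))).count (some i, none) = 0 := by
          intro u
          rw [List.count_eq_zero]
          intro h
          rw [List.mem_map] at h
          obtain ⟨j, _, hj⟩ := h
          simp at hj
        rw [List.count_append, List.count_append, hm, hm, List.count_replicate_self]
        omega
      have hp1 : p1 (w₁.map (fun j => ((some j, some j) : Option (Fin k) × Option (Fin k))) ++
          List.replicate (n * p) (some i, none) ++
          w₂.map (fun j => ((some j, some j) : Option (Fin k) × Option (Fin k)))) =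
          w₁ ++ List.replicate (n * p) i ++ w₂ := by
        rw [p1_app, p1_app, p1_map, p1_map, p1_rep]
      have hp2 : p2 (w₁.map (fun j => ((some j, some j) : Option (Fin k) × Option (Fin k))) ++
          List.replicate (n * p) (some i, none) ++
          w₂.map (fun j => ((some j, some j) : Option (Fin k) × Option (Fin k)))) =
          w₁ ++ w₂ := by
        rw [p2_app, p2_app, p2_map, p2_map, p2_rep, List.append_nil]
      refine ⟨_, ⟨hz, ?_⟩, ⟨?_, ?_⟩, hp2⟩
      · show p ∣ _
        rw [hcz]
        exact Dvd.intro_left n rfl
      · rw [hp1]
        unfold Srt at hs ⊢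
        rw [List.pairwise_append] at hs
        obtain ⟨s1, s2, s3⟩ := hs
        rw [List.pairwise_append, List.pairwise_append]
        refine ⟨⟨s1, List.pairwise_replicate.2 (Or.inr le_rfl), ?_⟩, s2, ?_⟩
        · intro a ha b hb
          rw [List.eq_of_mem_replicate hb]
          exact h1 a ha
        · intro a ha b hb
          rw [List.mem_append] at ha
          rcases ha with ha | ha
          · exact s3 a ha b hb
          · rw [List.eq_of_mem_replicate ha]
            exact (h2 b hb).le
      · show cnt _ ∉ V
        rw [cnt_lab hz, hp2, hcz]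
        exact hn
    · rintro ⟨z, ⟨hz, hc⟩, ⟨h1, h2⟩, rfl⟩
      have hz' : ∀ l ∈ z, lab i l := hz
      have hc' : p ∣ z.count (some i, none) := hc
      obtain ⟨n, hn⟩ := hc'
      refine ⟨List.Pairwise.sublist (sub_lab hz') h1, ?_⟩
      intro hh
      have hh' : ∀ n : ℕ, cnt (p2 z) + Pi.single i (n * p) ∈ V := hh
      refine h2 ?_
      rw [cnt_lab hz', hn, Nat.mul_comm]
      exact hh' n
  show (⟨k, Lk (hull V i p)ᶜ⟩ : Σ n : ℕ, Language (Fin n)) ∈ T A
  rw [e]
  exact h

end DCh
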