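import Pool.Agent.DCH.Rcc
/-!
# Rcd (size 1): the cylinder over a recognizable slice

`Function.update x i c = i.insertNth c (i.removeNth x)` (`Fin.insertNth_removeNth` or similar), and
`i.removeNth x = x ∘ i.succAbove`; so the set is the pullback of the hypothesis along `i.succAbove`
(`Rcg.pullback`).
-/
namespace DCh
open RCone

theorem Rcg_slc {k : ℕ} (V : Set (Fin (k + 1) → ℕ)) (i : Fin (k + 1)) (c : ℕ)
    (h : Rcg {x : Fin k → ℕ | (i.insertNth c x : Fin (k + 1) → ℕ) ∈ V}) : Rcg (slc V i c) := by
  have h1 := Rcg.pullback (i.succAbove) h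
  have h2 : slc V i c = {x : Fin (k + 1) → ℕ | x ∘ i.succAbove ∈
      {x : Fin k → ℕ | (i.insertNth c x : Fin (k + 1) → ℕ) ∈ V}} := by
    ext x
    have h3 : Function.update x i c = (i.insertNth c (x ∘ i.succAbove) : Fin (k + 1) → ℕ) := by
      funext j
      refine Fin.succAboveCases i ?_ ?_ j
      · simp
      · intro l
        rw [Fin.insertNth_apply_succAbove, Function.update_of_ne (Fin.succAbove_ne i l)]
        rfl
    simp only [slc, Set.mem_setOf_eq, h3]
  rw [h2]
  exact h1

end DCh
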