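import Pool.Agent.DCH.Bsa
import Pool.Agent.DCH.Bsc
import Pool.Agent.DCH.Bsd
import Pool.Agent.DCH.Ctd
import Pool.Agent.DCH.Cte
import Pool.Agent.DCH.Rcd
/-!
# Bse (size 3): a nonrecognizable set with a good coordinate

Let `k` be the least number for which `coT A k` contains a set which is not recognizable (`Nat.find`). For
`k = 0` all sets are recognizable (`Fin 0` is empty), so `k = k' + 1`. (a) For all `V ∈ coT A k`, `i`, `c`, the
set `slc V i c` is recognizable: `coT_slice`, the minimality of `k`, `Rcg_slc`.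
Case 1: there are `V ∈ coT A k`, `i` and `p > 0` with `H = hull V i p` not recognizable. `H ∈ coT A k`
(`coT_hull`). As `H = {x | ∃ r < p, x ∈ H ∩ {x | x i % p = r}}`, there is an `r < p` such that
`V' = H ∩ {x | x i % p = r}` is not recognizable (`Rcg.ex_lt`); `V' ∈ coT A k` (`coT_inter_rcg`, `Rcg_mod`), and
`good_of_closed` applies: `H` is closed under adding `Pi.single i p` (`(n + 1) * p = n * p + p`), and
`(x i + p) % p = x i % p`.
Case 2: all these hulls are recognizable. `remove_all` with `𝒱 = coT A k` gives a `W ∈ coT A k`, not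
recognizable, with all lines finite; `good_of_thin` with `i = 0 : Fin (k' + 1)`.
-/
namespace DCh
open RCone

private theorem bse_exists {X : Type} {A : Language X} {k₀ : ℕ} {V₀ : Set (Fin k₀ → ℕ)}
    (hV₀ : V₀ ∈ coT A k₀) (hn : ¬ Rcg V₀) :
    ∃ k : ℕ, (∃ V ∈ coT A k, ¬ Rcg V) ∧ ∀ k' < k, ∀ V ∈ coT A k', Rcg V := by
  classical
  have hex : ∃ k : ℕ, ∃ V ∈ coT A k, ¬ Rcg V := ⟨k₀, V₀, hV₀, hn⟩
  refine ⟨Nat.find hex, Nat.find_spec hex, ?_⟩
  intro k' hk' V hV
  by_contra hcon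
  exact Nat.find_min hex hk' ⟨V, hV, hcon⟩

theorem exists_good {X : Type} {A : Language X} (hA : ∃ u, u ∈ A)
    (hper : ∀ k, ∀ V ∈ coT A k, LinePer V) {k₀ : ℕ} {V₀ : Set (Fin k₀ → ℕ)}
    (hV₀ : V₀ ∈ coT A k₀) (hn : ¬ Rcg V₀) :
    ∃ (k : ℕ) (V : Set (Fin k → ℕ)) (i : Fin k), V ∈ coT A k ∧ ¬ Rcg V ∧ Good V i := by
  classical
  obtain ⟨k, ⟨V₁, hV₁, hn₁⟩, hmin⟩ := bse_exists hV₀ hn
  rcases Nat.eq_zero_or_pos k with rfl | hk
  · exact absurd ⟨0, 1, one_pos, fun i => i.elim0⟩ hn₁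
  obtain ⟨k', rfl⟩ : ∃ k', k = k' + 1 := ⟨k - 1, by omega⟩
  have hs : ∀ V ∈ coT A (k' + 1), ∀ (i : Fin (k' + 1)) (c : ℕ), Rcg (slc V i c) := by
    intro V hV i c
    exact Rcg_slc V i c (hmin k' (by omega) _ (coT_slice hV i c))
  by_cases hcase : ∀ V ∈ coT A (k' + 1), ∀ (i : Fin (k' + 1)) (p : ℕ), 0 < p → Rcg (hull V i p)
  · obtain ⟨W, hW, hnW, hthin⟩ := remove_all (coT A (k' + 1))
      (fun V hV R hR => coT_inter_rcg hA hV hR) (hper (k' + 1)) hcase hs hV₁ hn₁
    exact ⟨k' + 1, W, 0, hW, hnW, good_of_thin hthin (hs W hW) 0⟩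
  · push Not at hcase
    obtain ⟨V, hV, i, p, hp, hH⟩ := hcase
    have hHc : hull V i p ∈ coT A (k' + 1) := coT_hull hV i p hp
    have hsplit : hull V i p = {x | ∃ r < p, x ∈ hull V i p ∩ {x | x i % p = r}} := by
      ext x
      constructor
      · intro hx
        exact ⟨x i % p, Nat.mod_lt _ hp, hx, rfl⟩
      · rintro ⟨r, _, hx, _⟩
        exact hx
    have hex : ∃ r < p, ¬ Rcg (hull V i p ∩ {x | x i % p = r}) := by
      by_contra hcon
      push Not at hcon
      apply hH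
      rw [hsplit]
      exact Rcg.ex_lt p _ hcon
    obtain ⟨r, hr, hnr⟩ := hex
    have hV' : hull V i p ∩ {x | x i % p = r} ∈ coT A (k' + 1) :=
      coT_inter_rcg hA hHc (Rcg_mod i p r hp)
    refine ⟨k' + 1, _, i, hV', hnr, ?_⟩
    refine good_of_closed hp (fun x hx => hx.2) ?_ (hs _ hV' i)
    rintro x ⟨hx, hxr⟩
    refine ⟨?_, ?_⟩
    · intro n
      have h1 := hx (n + 1)
      have h2 : x + Pi.single i p + Pi.single i (n * p) = x + Pi.single i ((n + 1) * p) := by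
        rw [add_assoc, ← Pi.single_add]
        congr 2
        ring
      rw [h2]
      exact h1
    · have h3 : x i % p = r := hxr
      change (x + Pi.single i p : Fin (k' + 1) → ℕ) i % p = r
      rw [Pi.add_apply, Pi.single_eq_same, Nat.add_mod_right]
      exact h3

end DCh
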