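import Pool.Agent.DCH.Defs
/-!
# Jdg (size 1): bounded languages in the cone of a join

`K.2 = im σ (join B C)` is the union of `im σ₁ B` and `im σ₂ C` (`RCone.im_join`); both are bounded by the same
words, so they are regular (they are the second components of elements `⟨K.1, _⟩` of `T B` and of `T C`), and a union
of two regular languages is regular (`Language.IsRegular.add`).
-/
namespace DCh
open RCone

theorem join_degree {m n d : ℕ} (B : Language (Fin m)) (C : Language (Fin n))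
    (hB : ∀ K ∈ T B, BoundedBy d K.2 → K.2.IsRegular)
    (hC : ∀ K ∈ T C, BoundedBy d K.2 → K.2.IsRegular) :
    ∀ K ∈ T (join B C), BoundedBy d K.2 → K.2.IsRegular := by
  rintro ⟨k, M⟩ ⟨σ, hσ, hM⟩ ⟨w, hw⟩
  obtain ⟨σ₁, σ₂, h1, h2, h3⟩ := im_join B C hσ
  dsimp only at hM hw ⊢
  have hMe : M = im σ₁ B + im σ₂ C := by
    rw [hM]
    ext u
    exact h3 u
  have hl : ∀ u ∈ im σ₁ B, u ∈ M := by
    intro u hu
    rw [hMe]
    exact Or.inl hu
  have hr : ∀ u ∈ im σ₂ C, u ∈ M := by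
    intro u hu
    rw [hMe]
    exact Or.inr hu
  rw [hMe]
  exact (hB ⟨k, im σ₁ B⟩ ⟨σ₁, h1, rfl⟩ ⟨w, fun u hu => hw u (hl u hu)⟩).add
    (hC ⟨k, im σ₂ C⟩ ⟨σ₂, h2, rfl⟩ ⟨w, fun u hu => hw u (hr u hu)⟩)

end DCh
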