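import Pool.Agent.DCH.Key
import Pool.Agent.DCH.Jdg
/-!
# Chn (size 3): the descending chain

Let `K₀ ∈ T A` be bounded of degree `k₀`, not regular. For a language `C` in `T A` which is bounded and not regular,
`key` can be applied to `C.2`: it is nonempty (the empty language is regular, e.g.
`RCone.regular_singleton`-like or `Rcg_finite`/`regular_forall`), and `coT C.2 k ⊆ coT A k` by `T_subset`.
So one can choose, by recursion (e.g. on the subtype of the `C` with `C ∈ T A`, `∃ k, BoundedBy k C.2`,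
`¬ C.2.IsRegular`; `Nat.rec`, `Classical.choose`), languages `C 0, C 1, …` in `T A`, `C i` bounded of degree `k i`, not
regular, such that
(a) all bounded languages of degree `≤ k₀` in `T (C 0)` are regular;
(b) `C (i + 1) ∈ T (C i)`, and all bounded languages of degree `≤ max (i + 1) (k i)` in `T (C (i + 1))` are regular.
Then all bounded languages of degree `≤ k₀` and of degree `≤ i` are regular in `T (C i)` (for `k₀`: `T (C i) ⊆ T (C 0)`
by induction, `T_subset`).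
Put `D i = ⟨_, join B (C i).2⟩`. (1) `T B ⊆ T (D i)` (`left_mem_join`, `T_subset`), strictly: `C i ∈ T (D i)`
(`right_mem_join`) is bounded and not regular, so it is not in `T B` by `hr`. (2) `D (i + 1) ∈ T (D i)` by
`join_mem`; strictly: `C i ∈ T (D i)`, and `C i ∉ T (D (i + 1))` by `join_degree` for the degree `k i` (`hr`, (b)).
(3) `D i ∈ T A` by `join_mem`; strictly: `K₀ ∉ T (D i)` by `join_degree` for `k₀`. (4) `join_degree` for the degree `i`
(`hr`, and the above). (5) `D i` is nonempty as `B` is.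
-/
namespace DCh
open RCone

private theorem Chn_empty {n : ℕ} {L : Language (Fin n)} (h : ¬ L.IsRegular) : ∃ u, u ∈ L := by
  by_contra hcon
  apply h
  have e : L = ({z | ∀ l ∈ z, True} : Language (Fin n))ᶜ := by
    ext z
    constructor
    · intro hz
      exact absurd ⟨z, hz⟩ hcon
    · intro hz
      exact absurd (fun l _ => trivial) hz
  rw [e]
  exact (regular_forall (α := Fin n) (fun _ => True)).compl

private theorem Chn_step {X : Type} (A : Language X)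
    (hper : ∀ k, ∀ V ∈ coT A k, LinePer V)
    (C : Σ n : ℕ, Language (Fin n)) (hC : C ∈ T A) (hb : ∃ k, BoundedBy k C.2)
    (hn : ¬ C.2.IsRegular) (d : ℕ) :
    ∃ C' : Σ n : ℕ, Language (Fin n), (C' ∈ T A ∧ (∃ k, BoundedBy k C'.2) ∧ ¬ C'.2.IsRegular) ∧
      C' ∈ T C.2 ∧ ∀ K ∈ T C'.2, ∀ e ≤ d, BoundedBy e K.2 → K.2.IsRegular := by
  have hsub : T C.2 ⊆ T A := T_subset (K := C.2) hC
  obtain ⟨C', h1, h2, h3, h4⟩ := key C.2 (Chn_empty hn)
    (fun k V hV => hper k V (hsub hV)) ⟨C, mem_T_self C.2, hb.choose, hb.choose_spec, hn⟩ d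
  exact ⟨C', ⟨hsub h1, h2, h3⟩, h1, h4⟩

theorem chain {m : ℕ} {X : Type} (A : Language X) (B : Language (Fin m))
    (hper : ∀ k, ∀ V ∈ coT A k, LinePer V) (hB : ∃ u, u ∈ B)
    (hBA : (⟨m, B⟩ : Σ n : ℕ, Language (Fin n)) ∈ T A)
    (hb : ∃ K ∈ T A, ∃ k, BoundedBy k K.2 ∧ ¬ K.2.IsRegular)
    (hr : ∀ K ∈ T B, ∀ k, BoundedBy k K.2 → K.2.IsRegular) :
    ∃ C : ℕ → (Σ n : ℕ, Language (Fin n)), ∀ i, (∃ u, u ∈ (C i).2) ∧
      T B ⊂ T (C i).2 ∧ T (C (i + 1)).2 ⊂ T (C i).2 ∧ T (C i).2 ⊂ T A ∧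
      ∀ K ∈ T (C i).2, BoundedBy i K.2 → K.2.IsRegular := by
  classical
  obtain ⟨K₀, hK₀, k₀, hK₀b, hK₀n⟩ := hb
  have hA : ∃ u, u ∈ A := by
    obtain ⟨u, hu⟩ := hB
    obtain ⟨τ, _, h2⟩ := hBA
    dsimp only at h2
    rw [h2] at hu
    obtain ⟨v, hv, _⟩ := hu
    exact ⟨v, hv⟩
  let S : Type := {C : Σ n : ℕ, Language (Fin n) //
    C ∈ T A ∧ (∃ k, BoundedBy k C.2) ∧ ¬ C.2.IsRegular}
  obtain ⟨c0, hc01, hc02, hc03, hc04⟩ := key A hA hper ⟨K₀, hK₀, k₀, hK₀b, hK₀n⟩ k₀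
  have hstep : ∀ (C : S) (d : ℕ), ∃ C' : S, C'.1 ∈ T C.1.2 ∧
      ∀ K ∈ T C'.1.2, ∀ e ≤ d, BoundedBy e K.2 → K.2.IsRegular := by
    intro C d
    obtain ⟨C', h1, h2, h3⟩ := Chn_step A hper C.1 C.2.1 C.2.2.1 C.2.2.2 d
    exact ⟨⟨C', h1⟩, h2, h3⟩
  choose nx hnx1 hnx2 using hstep
  let dg : S → ℕ := fun C => C.2.2.1.choose
  have hdg : ∀ C : S, BoundedBy (dg C) C.1.2 := fun C => C.2.2.1.choose_spec
  let C : ℕ → S := fun i => Nat.rec ⟨c0, hc01, hc02, hc03⟩
    (fun i c => nx c (max (i + 1) (dg c))) i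
  have hC0 : (C 0).1 = c0 := rfl
  have hCs : ∀ i, C (i + 1) = nx (C i) (max (i + 1) (dg (C i))) := fun i => rfl
  have hmem : ∀ i, (C (i + 1)).1 ∈ T (C i).1.2 := by
    intro i
    rw [hCs]
    exact hnx1 _ _
  have hsub : ∀ i, T (C (i + 1)).1.2 ⊆ T (C i).1.2 := fun i =>
    T_subset (K := (C (i + 1)).1.2) (hmem i)
  have hsub0 : ∀ i, T (C i).1.2 ⊆ T c0.2 := by
    intro i
    induction i with
    | zero => exact subset_of_eq (by rw [hC0])
    | succ i ih => exact (hsub i).trans ih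
  have ha : ∀ i, ∀ K ∈ T (C i).1.2, BoundedBy k₀ K.2 → K.2.IsRegular := fun i K hK hb =>
    hc04 K (hsub0 i hK) k₀ le_rfl hb
  have hbi : ∀ i, ∀ K ∈ T (C i).1.2, BoundedBy i K.2 → K.2.IsRegular := by
    intro i
    cases i with
    | zero =>
      intro K hK hb
      exact hc04 K (hsub0 0 hK) 0 (Nat.zero_le _) hb
    | succ i =>
      intro K hK hb
      rw [hCs] at hK
      exact hnx2 _ _ K hK (i + 1) (le_max_left _ _) hb
  have hci : ∀ i, ∀ K ∈ T (C (i + 1)).1.2, BoundedBy (dg (C i)) K.2 → K.2.IsRegular := by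
    intro i K hK hb
    rw [hCs] at hK
    exact hnx2 _ _ K hK (dg (C i)) (le_max_right _ _) hb
  refine ⟨fun i => ⟨m + (C i).1.1, join B (C i).1.2⟩, fun i => ⟨?_, ?_, ?_, ?_, ?_⟩⟩
  · obtain ⟨u, hu⟩ := hB
    exact ⟨u.map (Fin.castAdd _), Or.inl ⟨u, hu, rfl⟩⟩
  · refine ⟨T_subset (left_mem_join B (C i).1.2), fun h => ?_⟩
    have h1 := h (right_mem_join B (C i).1.2)
    exact (C i).2.2.2 (hr _ h1 (dg (C i)) (hdg (C i)))
  · refine ⟨T_subset (join_mem (left_mem_join B (C i).1.2)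
      (T_subset (right_mem_join B (C i).1.2) (hmem i))), fun h => ?_⟩
    have h1 := h (right_mem_join B (C i).1.2)
    exact (C i).2.2.2 (join_degree (d := dg (C i)) B (C (i + 1)).1.2
      (fun K hK hb => hr K hK _ hb) (hci i) _ h1 (hdg (C i)))
  · refine ⟨T_subset (join_mem hBA (C i).2.1), fun h => ?_⟩
    have h1 := h hK₀
    exact hK₀n (join_degree (d := k₀) B (C i).1.2 (fun K hK hb => hr K hK _ hb) (ha i) _ h1 hK₀b)
  · exact join_degree (d := i) B (C i).1.2 (fun K hK hb => hr K hK _ hb) (hbi i)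

end DCh
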