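import Pool.Agent.DCH.Defs
/-!
# Rca (size 2): Boolean closure of the recognizable sets

For two sets with the data `(N, p)`, `(N', p')` use `(max N N', p * p')`: by induction over `n`
`x ∈ S ↔ x + Pi.single i (n * p) ∈ S` for `N ≤ x i`. `ex_lt`: induction over `n`, the union of finitely many
sets. `all`: the intersection of finitely many sets (index set a `Fintype`): `Finset.induction_on` over
`Finset.univ`, or take the maximum of the `N`s and the product of the `p`s.
-/
namespace DCh
open RCone

variable {k : ℕ}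

private theorem Rca_iter {S : Set (Fin k → ℕ)} {N p : ℕ}
    (h : ∀ (i : Fin k) (x : Fin k → ℕ), N ≤ x i → (x ∈ S ↔ x + Pi.single i p ∈ S)) (n : ℕ) :
    ∀ (i : Fin k) (x : Fin k → ℕ), N ≤ x i → (x ∈ S ↔ x + Pi.single i (n * p) ∈ S) := by
  induction n with
  | zero =>
    intro i x _
    simp
  | succ n ih =>
    intro i x hx
    rw [ih i x hx]
    have h1 := h i (x + Pi.single i (n * p)) (by
      rw [Pi.add_apply]
      omega)
    rw [h1, add_assoc, ← Pi.single_add]
    have e : n * p + p = (n + 1) * p := by ring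
    rw [e]

theorem Rcg.compl {S : Set (Fin k → ℕ)} (h : Rcg S) : Rcg Sᶜ := by
  obtain ⟨N, p, hp, h⟩ := h
  refine ⟨N, p, hp, fun i x hx => ?_⟩
  rw [Set.mem_compl_iff, Set.mem_compl_iff]
  exact not_congr (h i x hx)

theorem Rcg.inter {S S' : Set (Fin k → ℕ)} (h : Rcg S) (h' : Rcg S') : Rcg (S ∩ S') := by
  obtain ⟨N, p, hp, h⟩ := h
  obtain ⟨N', p', hp', h'⟩ := h'
  refine ⟨max N N', p * p', Nat.mul_pos hp hp', fun i x hx => ?_⟩
  have h1 := Rca_iter h p' i x (le_trans (le_max_left _ _) hx)
  have h2 := Rca_iter h' p i x (le_trans (le_max_right _ _) hx)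
  rw [mul_comm p' p] at h1
  rw [Set.mem_inter_iff, Set.mem_inter_iff]
  exact and_congr h1 h2

theorem Rcg.union {S S' : Set (Fin k → ℕ)} (h : Rcg S) (h' : Rcg S') : Rcg (S ∪ S') := by
  have e : S ∪ S' = (Sᶜ ∩ S'ᶜ)ᶜ := by
    rw [Set.compl_inter, compl_compl, compl_compl]
  rw [e]
  exact (h.compl.inter h'.compl).compl

theorem Rcg.ex_lt (n : ℕ) (S : ℕ → Set (Fin k → ℕ)) (h : ∀ t < n, Rcg (S t)) :
    Rcg {x | ∃ t < n, x ∈ S t} := by
  induction n with
  | zero =>
    refine ⟨0, 1, one_pos, fun i x _ => ?_⟩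
    constructor
    · rintro ⟨t, ht, _⟩
      omega
    · rintro ⟨t, ht, _⟩
      omega
  | succ n ih =>
    have e : {x | ∃ t < n + 1, x ∈ S t} = {x | ∃ t < n, x ∈ S t} ∪ S n := by
      ext x
      constructor
      · rintro ⟨t, ht, hx⟩
        rcases Nat.lt_succ_iff_lt_or_eq.1 ht with h1 | h1
        · exact Or.inl ⟨t, h1, hx⟩
        · subst h1
          exact Or.inr hx
      · rintro (⟨t, ht, hx⟩ | hx)
        · exact ⟨t, by omega, hx⟩
        · exact ⟨n, by omega, hx⟩
    rw [e]
    exact (ih (fun t ht => h t (by omega))).union (h n (by omega))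

theorem Rcg.all {ι : Type} [Fintype ι] (S : ι → Set (Fin k → ℕ)) (h : ∀ t, Rcg (S t)) :
    Rcg {x | ∀ t, x ∈ S t} := by
  classical
  have key : ∀ s : Finset ι, Rcg {x | ∀ t ∈ s, x ∈ S t} := by
    intro s
    induction s using Finset.induction_on with
    | empty =>
      refine ⟨0, 1, one_pos, fun i x _ => ?_⟩
      constructor
      · intro _ t ht
        exact absurd ht (Finset.notMem_empty t)
      · intro _ t ht
        exact absurd ht (Finset.notMem_empty t)
    | insert a s _ ih =>
      have e : {x | ∀ t ∈ insert a s, x ∈ S t} = S a ∩ {x | ∀ t ∈ s, x ∈ S t} := by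
        ext x
        constructor
        · intro hx
          exact ⟨hx a (Finset.mem_insert_self _ _), fun t ht => hx t (Finset.mem_insert_of_mem ht)⟩
        · rintro ⟨h1, h2⟩ t ht
          rcases Finset.mem_insert.1 ht with h3 | h3
          · subst h3
            exact h1
          · exact h2 t h3
      rw [e]
      exact (h a).inter ih
  have e : {x | ∀ t, x ∈ S t} = {x | ∀ t ∈ (Finset.univ : Finset ι), x ∈ S t} := by
    ext x
    constructor
    · intro hx t _
      exact hx t
    · intro hx t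
      exact hx t (Finset.mem_univ t)
  rw [e]
  exact key _

end DCh
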