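import Pool.Agent.DCH.Tca
import Pool.Agent.DCH.Rgd
import Pool.Agent.DCH.Rca
/-!
# Cta (size 1): Boolean properties of `coT A k`

`Lk (V ∩ W)ᶜ` is the union of `Lk Vᶜ` and `Lk Wᶜ` (`union_mem_T`); `Lk (V ∪ R)ᶜ` is the intersection of
`Lk Vᶜ` with the regular language `Lk Rᶜ` (`Rcg.compl`, `regular_Lk`, `inter_regular_mem_T`);
`Lk Rᶜ` is regular, so it is in the cone (`regular_mem_T`).
-/
namespace DCh
open RCone

variable {X : Type} {A : Language X} {k : ℕ}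

theorem coT_inter {V W : Set (Fin k → ℕ)} (hV : V ∈ coT A k) (hW : W ∈ coT A k) :
    V ∩ W ∈ coT A k := by
  have h := union_mem_T (A := A) hV hW
  have e : ({w | w ∈ Lk Vᶜ ∨ w ∈ Lk Wᶜ} : Language (Fin k)) = Lk (V ∩ W)ᶜ := by
    apply Set.ext
    intro w
    show ((Srt w ∧ cnt w ∈ Vᶜ) ∨ (Srt w ∧ cnt w ∈ Wᶜ)) ↔ (Srt w ∧ cnt w ∈ (V ∩ W)ᶜ)
    simp only [Set.mem_compl_iff, Set.mem_inter_iff]
    tauto
  rw [e] at h
  exact h

theorem coT_union_rcg {V R : Set (Fin k → ℕ)} (hV : V ∈ coT A k) (hR : Rcg R) :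
    V ∪ R ∈ coT A k := by
  have h := inter_regular_mem_T (A := A) hV (regular_Lk hR.compl)
  have e : ({w | w ∈ Lk Vᶜ ∧ w ∈ Lk Rᶜ} : Language (Fin k)) = Lk (V ∪ R)ᶜ := by
    apply Set.ext
    intro w
    show ((Srt w ∧ cnt w ∈ Vᶜ) ∧ (Srt w ∧ cnt w ∈ Rᶜ)) ↔ (Srt w ∧ cnt w ∈ (V ∪ R)ᶜ)
    simp only [Set.mem_compl_iff, Set.mem_union]
    tauto
  rw [e] at h
  exact h

theorem coT_of_rcg (hA : ∃ u, u ∈ A) {R : Set (Fin k → ℕ)} (hR : Rcg R) : R ∈ coT A k :=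
  regular_mem_T hA (regular_Lk hR.compl)

theorem coT_inter_rcg (hA : ∃ u, u ∈ A) {V R : Set (Fin k → ℕ)} (hV : V ∈ coT A k)
    (hR : Rcg R) : V ∩ R ∈ coT A k :=
  coT_inter hV (coT_of_rcg hA hR)

theorem coT_all (hA : ∃ u, u ∈ A) {ι : Type} [Fintype ι] (V : ι → Set (Fin k → ℕ))
    (hV : ∀ t, V t ∈ coT A k) : {x | ∀ t, x ∈ V t} ∈ coT A k := by
  classical
  have key : ∀ s : Finset ι, {x | ∀ t ∈ s, x ∈ V t} ∈ coT A k := by
    intro s
    induction s using Finset.induction_on with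
    | empty =>
      have e : {x : Fin k → ℕ | ∀ t ∈ (∅ : Finset ι), x ∈ V t} = Set.univ := by
        ext x
        simp
      rw [e]
      exact coT_of_rcg hA ⟨0, 1, one_pos, fun _ _ _ => by simp⟩
    | insert a s ha ih =>
      have e : {x : Fin k → ℕ | ∀ t ∈ insert a s, x ∈ V t} = V a ∩ {x | ∀ t ∈ s, x ∈ V t} := by
        ext x
        simp
      rw [e]
      exact coT_inter (hV a) ih
  have h := key Finset.univ
  simpa using h

end DCh
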