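import Pool.Agent.DCH.Cta
import Pool.Agent.DCH.Ctb
/-!
# Ctf (size 1): splitting

`sec_strictMono`: cases (`Fin.lt_def`, `omega` after `split_ifs`). `coT_split`: `split V i m` is the set of the
`y` such that for all `r : Fin (m + 1)` the point `y` is in `{y | y ∘ sec i m r ∈ V}`: `coT_pull`, `coT_all`.
-/
namespace DCh
open RCone

variable {X : Type} {A : Language X} {k : ℕ}

theorem sec_strictMono (i : Fin k) (m : ℕ) (r : Fin (m + 1)) : StrictMono (sec i m r) := by
  intro a b hab
  have hr := r.isLt
  rw [Fin.lt_def] at hab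
  unfold sec
  have hi := i.isLt
  by_cases h1 : a < i
  · rw [if_pos h1]
    rw [Fin.lt_def] at h1
    by_cases h2 : b < i
    · rw [if_pos h2, Fin.lt_def]
      exact hab
    · rw [if_neg h2]
      rw [Fin.lt_def] at h2
      by_cases h3 : b = i
      · rw [if_pos h3, Fin.lt_def]
        simp only []
        omega
      · rw [if_neg h3, Fin.lt_def]
        simp only []
        omega
  · rw [if_neg h1]
    rw [Fin.lt_def] at h1
    have h2 : ¬ b < i := by
      rw [Fin.lt_def]
      omega
    rw [if_neg h2]
    by_cases h4 : a = i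
    · have h3 : ¬ b = i := by
        rintro rfl
        rw [h4] at hab
        exact lt_irrefl _ hab
      rw [if_pos h4, if_neg h3, Fin.lt_def]
      simp only []
      rw [h4] at hab
      omega
    · have h5 : (a : ℕ) ≠ i := fun h => h4 (Fin.ext h)
      have h3 : ¬ b = i := by
        rintro rfl
        omega
      rw [if_neg h4, if_neg h3, Fin.lt_def]
      simp only []
      omega

theorem coT_split (hA : ∃ u, u ∈ A) {V : Set (Fin k → ℕ)} (hV : V ∈ coT A k) (i : Fin k) (m : ℕ) :
    split V i m ∈ coT A (k + m) := by
  exact coT_all hA (fun r : Fin (m + 1) => {y : Fin (k + m) → ℕ | y ∘ sec i m r ∈ V})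
    (fun r => coT_pull (sec_strictMono i m r) hV)

end DCh
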