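import Pool.Agent.DCH.Defs
/-!
# Cut (size 4): two adjacent inputs which are read while only one letter is written

For `j : ℕ` let `pre j = z.takeWhile (fun e => decide (∀ a ∈ e.1, (a : ℕ) < j))`.
(1) All letters of `p1 (pre j)` are `< j`; with `z = pre j ++ suf j` all letters of `p1 (suf j)` are `≥ j` (the first
label of `suf j` has a first component `some a` with `j ≤ a`, and `p1 z` is sorted). (2) For `j ≤ j'`, `pre j` is a
prefix of `pre j'`. (3) Let `μ j : ℕ` be the last letter of `p2 (pre j)`, and `0` if `p2 (pre j) = []`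
(e.g. `((p2 (pre j)).getLast?.elim 0 (fun a => (a : ℕ)))`). As `p2 z` is sorted, `μ` is monotone, `μ j < l`, all
letters of `p2 (pre j)` are `≤ μ j` and all letters of `p2 (suf j)` are `≥ μ j` (if `p2 (pre j) = []` then
`μ j = 0`). (4) There is a `t < l` with `μ (s + 2 t) = μ (s + 2 t + 2)`: otherwise `t ≤ μ (s + 2 t)` for all `t ≤ l`
by induction, and `μ (s + 2 l) < l`. (5) Take `b = μ (s + 2 t)`, `u = pre (s + 2 t)`, `u ++ β = pre (s + 2 t + 1)`,
`u ++ β ++ γ = pre (s + 2 t + 2)`, `v = suf (s + 2 t + 2)`. The letters of `p2 β`, `p2 γ` are `≤ μ (s + 2 t + 2) = b`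
and `≥ μ (s + 2 t) = b`.
Alternatively: a lemma `z = z₁ ++ z₂`, `p1 z₁ < j`, `p1 z₂ ≥ j` by induction over `z`, applied successively.
-/
namespace DCh
open RCone

private lemma Cut_idx {K : ℕ} {B : Type} (z : List (Option (Fin K) × B)) (q : ℕ → Option (Fin K) × B → Bool)
    (hq : ∀ j e, q j e = true ↔ ∃ a, e.1 = some a ∧ j ≤ (a : ℕ)) :
    Monotone (fun j => z.findIdx (q j)) := by
  intro j j' hjj
  apply List.findIdx_le_findIdx
  intro x _ hx
  rw [hq] at hx ⊢
  obtain ⟨a, ha, h2⟩ := hx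
  exact ⟨a, ha, hjj.trans h2⟩

private lemma Cut_exists {K l : ℕ} (z : List (Option (Fin K) × Option (Fin l)))
    (h1 : Srt (p1 z)) :
    ∃ c : ℕ → ℕ, Monotone c ∧ ∀ j, (∀ a ∈ p1 (z.take (c j)), (a : ℕ) < j) ∧
      (∀ a ∈ p1 (z.drop (c j)), j ≤ (a : ℕ)) := by
  classical
  let q : ℕ → Option (Fin K) × Option (Fin l) → Bool := fun j e =>
    decide (∃ a, e.1 = some a ∧ j ≤ (a : ℕ))
  have hq : ∀ j e, q j e = true ↔ ∃ a, e.1 = some a ∧ j ≤ (a : ℕ) := by
    intro j e
    simp only [q, decide_eq_true_eq]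
  refine ⟨fun j => z.findIdx (q j), Cut_idx z q hq, ?_⟩
  intro j
  constructor
  · intro a ha
    rw [p1, List.mem_filterMap] at ha
    obtain ⟨e, he, hea⟩ := ha
    by_contra hcon
    have hqe : q j e = true := (hq j e).2 ⟨a, hea, not_lt.1 hcon⟩
    obtain ⟨i, hi, hie⟩ := List.mem_iff_getElem.1 he
    rw [List.length_take] at hi
    have hi' : i < z.findIdx (q j) := lt_of_lt_of_le hi (min_le_left _ _)
    have := List.not_of_lt_findIdx hi'
    rw [List.getElem_take] at hie
    rw [hie] at this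
    exact absurd hqe (by simpa using this)
  · intro a ha
    by_cases hc : z.findIdx (q j) < z.length
    · have hg := List.findIdx_getElem (w := hc)
      obtain ⟨a0, ha0, hja0⟩ := (hq _ _).1 hg
      have e1 : z.drop (z.findIdx (q j)) = z[z.findIdx (q j)] :: z.drop (z.findIdx (q j) + 1) :=
        List.drop_eq_getElem_cons hc
      have e2 : p1 z = p1 (z.take (z.findIdx (q j))) ++ p1 (z.drop (z.findIdx (q j))) := by
        unfold p1
        rw [← List.filterMap_append, List.take_append_drop]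
      have hs : Srt (p1 (z.drop (z.findIdx (q j)))) := by
        unfold Srt at h1 ⊢
        rw [e2] at h1
        exact (List.pairwise_append.1 h1).2.1
      rw [e1] at hs ha
      unfold p1 at hs ha
      rw [List.filterMap_cons_some ha0] at hs ha
      rcases List.mem_cons.1 ha with h | h
      · rw [h]
        exact hja0
      · exact hja0.trans (Fin.le_def.1 ((List.pairwise_cons.1 hs).1 a h))
    · rw [List.drop_eq_nil_of_le (not_lt.1 hc)] at ha
      simp [p1] at ha

private lemma Cut_max {l : ℕ} (hl : 0 < l) (y : List (Fin l)) :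
    ∃ b : ℕ, b < l ∧ (∀ a ∈ y, (a : ℕ) ≤ b) ∧ (b = 0 ∨ ∃ a ∈ y, (a : ℕ) = b) := by
  induction y with
  | nil => exact ⟨0, hl, by simp, Or.inl rfl⟩
  | cons x y ih =>
    obtain ⟨b, hb, h1, h2⟩ := ih
    by_cases hx : (x : ℕ) ≤ b
    · refine ⟨b, hb, ?_, ?_⟩
      · intro a ha
        rcases List.mem_cons.1 ha with h | h
        · rw [h]
          exact hx
        · exact h1 a h
      · rcases h2 with h | ⟨a, ha, hab⟩
        · exact Or.inl h
        · exact Or.inr ⟨a, List.mem_cons_of_mem _ ha, hab⟩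
    · refine ⟨x, x.2, ?_, Or.inr ⟨x, List.mem_cons_self, rfl⟩⟩
      intro a ha
      rcases List.mem_cons.1 ha with h | h
      · rw [h]
      · exact (h1 a h).trans (le_of_lt (not_le.1 hx))

private lemma Cut_sub {A B : Type} (f : A → Option B) {x y : List A} (h : ∀ e ∈ x, e ∈ y)
    {a : B} (ha : a ∈ x.filterMap f) : a ∈ y.filterMap f := by
  rw [List.mem_filterMap] at ha ⊢
  obtain ⟨e, he, hea⟩ := ha
  exact ⟨e, h e he, hea⟩

private lemma Cut_take {A : Type} (z : List A) {m n : ℕ} (h : m ≤ n) :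
    z.take n = z.take m ++ (z.drop m).take (n - m) := by
  conv_lhs => rw [← Nat.add_sub_cancel' h]
  exact List.take_add ..

theorem cuts {K l : ℕ} (hl : 0 < l) (z : List (Option (Fin K) × Option (Fin l)))
    (h1 : Srt (p1 z)) (h2 : Srt (p2 z)) (s : ℕ) :
    ∃ t < l, ∃ (b : Fin l) (u β γ v : List (Option (Fin K) × Option (Fin l))),
      z = u ++ β ++ γ ++ v ∧
      (∀ a ∈ p1 u, (a : ℕ) < s + 2 * t) ∧ (∀ a ∈ p1 β, (a : ℕ) = s + 2 * t) ∧
      (∀ a ∈ p1 γ, (a : ℕ) = s + 2 * t + 1) ∧ (∀ a ∈ p1 v, s + 2 * t + 1 < (a : ℕ)) ∧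
      (∀ a ∈ p2 u, a ≤ b) ∧ (∀ a ∈ p2 β, a = b) ∧ (∀ a ∈ p2 γ, a = b) ∧
      (∀ a ∈ p2 v, b ≤ a) := by
  obtain ⟨c, hc, hcj⟩ := Cut_exists z h1
  choose μ hμl hμle hμ0 using fun j : ℕ => Cut_max hl (p2 (z.take (c j)))
  have hge : ∀ j, ∀ a ∈ p2 (z.drop (c j)), μ j ≤ (a : ℕ) := by
    intro j a ha
    rcases hμ0 j with h | ⟨a', ha', hab⟩
    · rw [h]
      exact Nat.zero_le _
    · have e2 : p2 z = p2 (z.take (c j)) ++ p2 (z.drop (c j)) := by
        unfold p2
        rw [← List.filterMap_append, List.take_append_drop]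
      unfold Srt at h2
      rw [e2] at h2
      rw [← hab]
      exact Fin.le_def.1 ((List.pairwise_append.1 h2).2.2 a' ha' a ha)
  have hmem : ∀ {m n : ℕ}, m ≤ n → ∀ e ∈ z.take m, e ∈ z.take n := by
    intro m n h e he
    exact (List.take_subset_take_left z h) he
  have hmono : Monotone μ := by
    intro j j' hjj
    rcases hμ0 j with h | ⟨a', ha', hab⟩
    · rw [h]
      exact Nat.zero_le _
    · rw [← hab]
      exact hμle j' a' (Cut_sub _ (hmem (hc hjj)) ha')
  have hex : ∃ t < l, μ (s + 2 * t) = μ (s + 2 * t + 2) := by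
    by_contra hcon
    push Not at hcon
    have hlow : ∀ t ≤ l, t ≤ μ (s + 2 * t) := by
      intro t
      induction t with
      | zero => intro _; exact Nat.zero_le _
      | succ t ih =>
        intro ht
        have h3 := ih (by omega)
        have h4 := hcon t (by omega)
        have h5 : μ (s + 2 * t) ≤ μ (s + 2 * t + 2) := hmono (by omega)
        have e : s + 2 * (t + 1) = s + 2 * t + 2 := by ring
        rw [e]
        omega
    have := hlow l le_rfl
    have := hμl (s + 2 * l)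
    omega
  obtain ⟨t, ht, hteq⟩ := hex
  have hn1 : c (s + 2 * t) ≤ c (s + 2 * t + 1) := hc (by omega)
  have hn2 : c (s + 2 * t + 1) ≤ c (s + 2 * t + 2) := hc (by omega)
  have b1 : ∀ e ∈ (z.drop (c (s + 2 * t))).take (c (s + 2 * t + 1) - c (s + 2 * t)),
      e ∈ z.drop (c (s + 2 * t)) := fun e he => List.mem_of_mem_take he
  have b2 : ∀ e ∈ (z.drop (c (s + 2 * t))).take (c (s + 2 * t + 1) - c (s + 2 * t)),
      e ∈ z.take (c (s + 2 * t + 1)) := by
    intro e he
    rw [Cut_take z hn1]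
    exact List.mem_append_right _ he
  have g1 : ∀ e ∈ (z.drop (c (s + 2 * t + 1))).take (c (s + 2 * t + 2) - c (s + 2 * t + 1)),
      e ∈ z.drop (c (s + 2 * t + 1)) := fun e he => List.mem_of_mem_take he
  have g2 : ∀ e ∈ (z.drop (c (s + 2 * t + 1))).take (c (s + 2 * t + 2) - c (s + 2 * t + 1)),
      e ∈ z.take (c (s + 2 * t + 2)) := by
    intro e he
    rw [Cut_take z hn2]
    exact List.mem_append_right _ he
  have b3 : ∀ e ∈ (z.drop (c (s + 2 * t))).take (c (s + 2 * t + 1) - c (s + 2 * t)),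
      e ∈ z.take (c (s + 2 * t + 2)) := fun e he => hmem hn2 e (b2 e he)
  have g3 : ∀ e ∈ (z.drop (c (s + 2 * t + 1))).take (c (s + 2 * t + 2) - c (s + 2 * t + 1)),
      e ∈ z.drop (c (s + 2 * t)) := by
    intro e he
    exact (List.drop_subset_drop_left z hn1) (g1 e he)
  refine ⟨t, ht, ⟨μ (s + 2 * t), hμl _⟩, z.take (c (s + 2 * t)),
    (z.drop (c (s + 2 * t))).take (c (s + 2 * t + 1) - c (s + 2 * t)),
    (z.drop (c (s + 2 * t + 1))).take (c (s + 2 * t + 2) - c (s + 2 * t + 1)),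
    z.drop (c (s + 2 * t + 2)), ?_, (hcj _).1, ?_, ?_, ?_, ?_, ?_, ?_, ?_⟩
  · rw [← Cut_take z hn1, ← Cut_take z hn2, List.take_append_drop]
  · intro a ha
    have h3 := (hcj (s + 2 * t)).2 a (Cut_sub _ b1 ha)
    have h4 := (hcj (s + 2 * t + 1)).1 a (Cut_sub _ b2 ha)
    omega
  · intro a ha
    have h3 := (hcj (s + 2 * t + 1)).2 a (Cut_sub _ g1 ha)
    have h4 := (hcj (s + 2 * t + 2)).1 a (Cut_sub _ g2 ha)
    omega
  · intro a ha
    have h3 := (hcj (s + 2 * t + 2)).2 a ha
    omega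
  · intro a ha
    exact Fin.le_def.2 (hμle _ a ha)
  · intro a ha
    have h3 := hge (s + 2 * t) a (Cut_sub _ b1 ha)
    have h4 := hμle (s + 2 * t + 2) a (Cut_sub _ b3 ha)
    apply Fin.ext
    simp only
    omega
  · intro a ha
    have h3 := hge (s + 2 * t) a (Cut_sub _ g3 ha)
    have h4 := hμle (s + 2 * t + 2) a (Cut_sub _ g2 ha)
    apply Fin.ext
    simp only
    omega
  · intro a ha
    have h3 := hge (s + 2 * t + 2) a ha
    rw [Fin.le_def]
    simp only
    omega

end DCh
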