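import Pool.Agent.RC.Cone

/-!
# Squad DCH (MP_6a7e21_lc, descending chains of rational cones): definitions

Everything is stated with vectors `x : Fin k → ℕ` and with sorted words over `Fin k`.
-/

namespace DCh
open RCone

/-- `w_0^{x_0} w_1^{x_1} ⋯ w_{k-1}^{x_{k-1}}` -/
def bw {α : Type} {k : ℕ} (w : Fin k → List α) (x : Fin k → ℕ) : List α :=
  (List.ofFn fun i => rep (w i) (x i)).flatten

/-- `L` is contained in `w_0^* ⋯ w_{k-1}^*` for some words `w_i` (`L` is bounded, of degree `k`) -/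
def BoundedBy {α : Type} (k : ℕ) (L : Language α) : Prop :=
  ∃ w : Fin k → List α, ∀ u ∈ L, ∃ x : Fin k → ℕ, u = bw w x

/-- sorted words over `Fin k` -/
def Srt {k : ℕ} (u : List (Fin k)) : Prop := u.Pairwise (· ≤ ·)

/-- the vector of the numbers of occurrences of the letters (Parikh vector) -/
def cnt {k : ℕ} (u : List (Fin k)) : Fin k → ℕ := fun i => u.count i

/-- the word `0^{x_0} 1^{x_1} ⋯ (k-1)^{x_{k-1}}` -/
def wd {k : ℕ} (x : Fin k → ℕ) : List (Fin k) := bw (fun i => [i]) x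

/-- the language of the sorted words `0^{x_0} 1^{x_1} ⋯ (k-1)^{x_{k-1}}` with `x ∈ S` -/
def Lk {k : ℕ} (S : Set (Fin k → ℕ)) : Language (Fin k) := {u | Srt u ∧ cnt u ∈ S}

/-- recognizable subsets of `ℕ^k` -/
def Rcg {k : ℕ} (S : Set (Fin k → ℕ)) : Prop :=
  ∃ N p : ℕ, 0 < p ∧ ∀ (i : Fin k) (x : Fin k → ℕ), N ≤ x i →
    (x ∈ S ↔ x + Pi.single i p ∈ S)

/-- the lines of direction `i` of `S` are eventually `p`-periodic -/
def LineP {k : ℕ} (S : Set (Fin k → ℕ)) (i : Fin k) (p : ℕ) : Prop :=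
  ∀ x : Fin k → ℕ, ∃ n₀ : ℕ, ∀ n ≥ n₀, (x + Pi.single i n ∈ S ↔ x + Pi.single i (n + p) ∈ S)

/-- all the lines of `S` are eventually periodic, with a common period for parallel lines -/
def LinePer {k : ℕ} (S : Set (Fin k → ℕ)) : Prop := ∀ i : Fin k, ∃ p : ℕ, 0 < p ∧ LineP S i p

/-- the lines of direction `i` are eventually outside of `V` -/
def Thin {k : ℕ} (V : Set (Fin k → ℕ)) (i : Fin k) : Prop :=
  ∀ x : Fin k → ℕ, ∃ n₀ : ℕ, ∀ n ≥ n₀, x + Pi.single i n ∉ V

/-- the points `x` such that `x + n p e_i ∈ V` for all `n` -/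
def hull {k : ℕ} (V : Set (Fin k → ℕ)) (i : Fin k) (p : ℕ) : Set (Fin k → ℕ) :=
  {x | ∀ n : ℕ, x + Pi.single i (n * p) ∈ V}

/-- the cylinder over the slice `x i = c` of `V` -/
def slc {k : ℕ} (V : Set (Fin k → ℕ)) (i : Fin k) (c : ℕ) : Set (Fin k → ℕ) :=
  {x | Function.update x i c ∈ V}

/-- the coordinate `i` is good for `V` -/
def Good {k : ℕ} (V : Set (Fin k → ℕ)) (i : Fin k) : Prop := ∀ c : ℕ, Rcg (V ∩ slc V i c)

/-- the sets `V` such that the language of (the complement of) `V` is in the cone `T A` -/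
def coT {X : Type} (A : Language X) (k : ℕ) : Set (Set (Fin k → ℕ)) :=
  {V | (⟨k, Lk Vᶜ⟩ : Σ n : ℕ, Language (Fin n)) ∈ T A}

/-- The letter `i` of `Fin k` has `m + 1` copies in `Fin (k + m)`, the others have one. `sec i m r` is
the section which sends `i` to its `r`-th copy. -/
def sec {k : ℕ} (i : Fin k) (m : ℕ) (r : Fin (m + 1)) (j : Fin k) : Fin (k + m) :=
  if j < i then ⟨j, by omega⟩ else if j = i then ⟨i + r, by omega⟩ else ⟨j + m, by omega⟩

/-- the collapsing map `Fin (k + m) → Fin k`, a left inverse of all the sections -/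
def col {k : ℕ} (i : Fin k) (m : ℕ) (y : Fin (k + m)) : Fin k :=
  if h : (y : ℕ) < i then ⟨y, by omega⟩ else if h' : (y : ℕ) ≤ i + m then i else ⟨y - m, by omega⟩

/-- the `m`-fold splitting of the coordinate `i`: all the `m + 1` points which one gets by choosing one
of the copies of the coordinate `i` are in `V` -/
def split {k : ℕ} (V : Set (Fin k → ℕ)) (i : Fin k) (m : ℕ) : Set (Fin (k + m) → ℕ) :=
  {y | ∀ r, y ∘ sec i m r ∈ V}

end DCh
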