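import Pool.Agent.DCH.Rcc
import Pool.Agent.DCH.Rca
/-!
# Dia (size 2): the splitting of a nonrecognizable set is not recognizable

`col_sec`: cases, `Fin.ext`, `split_ifs`, `omega`. For `x : Fin k → ℕ` and all `r`:
`(x ∘ col i m) ∘ sec i m r = x`. Hence `{x | x ∘ col i m ∈ split V i m} = V`; use `Rcg.pullback`.
`Rcg_split`: the splitting of a recognizable set is recognizable: it is the intersection over `r` of the
pullbacks under `sec i m r` (`Rcg.pullback`, `Rcg.all` in module Rca, import it).
-/
namespace DCh
open RCone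

theorem col_sec {k : ℕ} (i : Fin k) (m : ℕ) (r : Fin (m + 1)) (j : Fin k) :
    col i m (sec i m r j) = j := by
  unfold sec
  by_cases h1 : j < i
  · rw [if_pos h1]
    unfold col
    have h2 : ((⟨j, by omega⟩ : Fin (k + m)) : ℕ) < i := h1
    rw [dif_pos h2]
  · rw [if_neg h1]
    by_cases h2 : j = i
    · rw [if_pos h2]
      unfold col
      have h3 : ¬ (((⟨i + r, by omega⟩ : Fin (k + m)) : ℕ) < i) := by
        simp
      have h4 : ((⟨i + r, by omega⟩ : Fin (k + m)) : ℕ) ≤ i + m := by
        have := r.isLt
        simp only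
        omega
      rw [dif_neg h3, dif_pos h4]
      exact h2.symm
    · rw [if_neg h2]
      unfold col
      have h5 : (i : ℕ) < j := by
        have h6 : ¬ ((j : ℕ) < i) := h1
        have h7 : (j : ℕ) ≠ i := fun h => h2 (Fin.ext h)
        omega
      have h3 : ¬ (((⟨j + m, by omega⟩ : Fin (k + m)) : ℕ) < i) := by
        simp only
        omega
      have h4 : ¬ (((⟨j + m, by omega⟩ : Fin (k + m)) : ℕ) ≤ i + m) := by
        simp only
        omega
      rw [dif_neg h3, dif_neg h4]
      apply Fin.ext
      simp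

theorem rcg_of_split {k : ℕ} {V : Set (Fin k → ℕ)} {i : Fin k} {m : ℕ} (h : Rcg (split V i m)) :
    Rcg V := by
  have h1 := Rcg.pullback (k := k) (col i m) h
  have h2 : {x : Fin k → ℕ | x ∘ col i m ∈ split V i m} = V := by
    ext x
    have h3 : ∀ r : Fin (m + 1), (x ∘ col i m) ∘ sec i m r = x := by
      intro r
      funext j
      simp only [Function.comp_apply, col_sec]
    constructor
    · intro hx
      have h4 := hx 0
      rwa [h3 0] at h4
    · intro hx r
      rw [h3 r]
      exact hx
  rwa [h2] at h1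

theorem Rcg_split {k : ℕ} {V : Set (Fin k → ℕ)} (h : Rcg V) (i : Fin k) (m : ℕ) :
    Rcg (split V i m) := by
  exact Rcg.all (fun r : Fin (m + 1) => {y : Fin (k + m) → ℕ | y ∘ sec i m r ∈ V})
    (fun r => Rcg.pullback (sec i m r) h)

end DCh
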