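import Pool.Agent.DCH.Defs
/-!
# Rga (size 3): rational transductions preserve regular languages

`regular_p2`: let `M : DFA (Option X × Option Y) σ` accept `R` (`σ` a fintype). Define the NFA over `Y`
with the same states, start set `{t | ∃ z, p2 z = [] ∧ M.evalFrom M.start z = t}`,
`step s b = {t | ∃ z, p2 z = [b] ∧ M.evalFrom s z = t}` and the same accepting states. By induction over `w`:
`t ∈ N.evalFrom {s} w ↔ ∃ z, p2 z = w ∧ M.evalFrom s z = t` fails only for `w = []` (where it is `t = s`), so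
state it for nonempty `w`, or better: let `step s b = {t | ∃ z, p2 z = [b] ∧ ...}` and prove
`t ∈ N.evalFrom {t₀ | ∃ z, p2 z = [] ∧ M.evalFrom s z = t₀} w ↔ ∃ z, p2 z = w ∧ M.evalFrom s z = t` by induction
from the right (`List.reverseRecOn`): a word `z` with `p2 z = w ++ [b]` splits as `z = z₁ ++ z₂` with
`p2 z₁ = w`, `p2 z₂ = [b]` (`List.filterMap_eq_append_iff`), and conversely. Compare `regular_map` in
`Pool.Agent.RC.RegB`. An NFA accepts a regular language (`NFA.toDFA_correct`, see how `RegB` finishes).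
`regular_im`: `im τ L = {w | ∃ z ∈ R ⊓ {z | p1 z ∈ L}, p2 z = w}`, with `RCone.regular_preimage`.
-/
namespace DCh
open RCone

variable {X Y : Type}

theorem regular_p2 {R : Language (Option X × Option Y)} (hR : R.IsRegular) :
    Language.IsRegular (T := Y) {w | ∃ z ∈ R, p2 z = w} := by
  obtain ⟨σ, _, M, rfl⟩ := hR
  let N : NFA Y σ := ⟨fun s b => {t | ∃ z, p2 z = [b] ∧ M.evalFrom s z = t},
    {t | ∃ z, p2 z = [] ∧ M.evalFrom M.start z = t}, M.accept⟩
  have key : ∀ (w : List Y) (t : σ), t ∈ N.eval w ↔ ∃ z, p2 z = w ∧ M.evalFrom M.start z = t := by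
    intro w
    induction w using List.reverseRecOn with
    | nil => 
      intro t
      rw [NFA.eval_nil]
      exact Iff.rfl
    | append_singleton w b ih =>
      intro t
      rw [NFA.eval_append_singleton, NFA.mem_stepSet]
      constructor
      · rintro ⟨s, hs, z₂, h2, rfl⟩
        obtain ⟨z₁, h1, rfl⟩ := (ih _).1 hs
        refine ⟨z₁ ++ z₂, ?_, DFA.evalFrom_of_append _ _ _ _⟩
        rw [p2, List.filterMap_append]
        rw [p2] at h1 h2
        rw [h1, h2]
      · rintro ⟨z, hz, rfl⟩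
        obtain ⟨z₁, z₂, rfl, h1, h2⟩ := List.filterMap_eq_append_iff.1 hz
        exact ⟨_, (ih _).2 ⟨z₁, h1, rfl⟩, z₂, h2, (DFA.evalFrom_of_append _ _ _ _).symm⟩
  refine ⟨Set σ, inferInstance, N.toDFA, ?_⟩
  rw [NFA.toDFA_correct]
  ext w
  rw [NFA.mem_accepts]
  constructor
  · rintro ⟨s, hs, hs'⟩
    obtain ⟨z, h1, rfl⟩ := (key _ _).1 hs'
    exact ⟨z, hs, h1⟩
  · rintro ⟨z, hz, h1⟩
    exact ⟨M.evalFrom M.start z, hz, (key _ _).2 ⟨z, h1, rfl⟩⟩

theorem regular_im {L : Language X} (hL : L.IsRegular) {τ : Set (List X × List Y)}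
    (hτ : IsRational τ) : (im τ L).IsRegular := by
  obtain ⟨R, hR, h⟩ := hτ
  have h1 := regular_p2 (hR.inf (regular_preimage (α := Option X × Option Y) Prod.fst hL))
  have h2 : im τ L = {w | ∃ z ∈ R ⊓ ({z | z.filterMap Prod.fst ∈ L} : Language _), p2 z = w} := by
    ext w
    constructor
    · rintro ⟨u, hu, hw⟩
      obtain ⟨z, hz, rfl, rfl⟩ := (h _ _).1 hw
      exact ⟨z, ⟨hz, hu⟩, rfl⟩
    · rintro ⟨z, ⟨hz, hu⟩, rfl⟩
      exact ⟨p1 z, hu, (h _ _).2 ⟨z, hz, rfl, rfl⟩⟩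
  rw [h2]
  exact h1

end DCh
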