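import Pool.Agent.DCH.Tca
/-!
# Tcc (size 3): morphisms and inverse morphisms

`inv_flatMap_mem_T`: for a letter `b : Fin l` let
`B b = (h b).map (fun a => (some a, none)) ++ [(none, some b)]`, so `p1 (B b) = h b`, `p2 (B b) = [b]`.
The language `R = {z | ∃ w : List (Fin l), z = w.flatMap B}` is regular: it is the Kleene star of the finite
language `{z | ∃ b, z = B b}` (`RCone.regular_kstar`, `Language.mem_kstar`; a finite union of singletons:
`RCone.regular_singleton`, `Language.IsRegular.add`, `Finset.induction_on`). For `z = w.flatMap B` one has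
`p1 z = w.flatMap h` and `p2 z = w`. Use `mem_T_labels`.
`flatMap_mem_T`: the same with `B a = [(some a, none)] ++ (h a).map (fun b => (none, some b))`.
`rational_flatMap`, `rational_inv_flatMap`: the relations themselves, with these label languages.

-/
namespace DCh
open RCone

variable {X : Type} {A : Language X}

/-- the words `B b`, `b ∈ s` -/
private def Tcc_fin {Y Z : Type} (B : Y → List Z) (s : Finset Y) : Language Z :=
  {z | ∃ b ∈ s, z = B b}

private theorem Tcc_mem_fin {Y Z : Type} {B : Y → List Z} {s : Finset Y} {z : List Z} :
    z ∈ Tcc_fin B s ↔ ∃ b ∈ s, z = B b := Iff.rfl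

/-- the words `w.flatMap B` -/
private def Tcc_lang {Y Z : Type} (B : Y → List Z) : Language Z :=
  {z | ∃ w : List Y, z = w.flatMap B}

/-- the words `w.flatMap B` form a regular language -/
private theorem Tcc_regular {Y Z : Type} [Fintype Y] (B : Y → List Z) :
    Language.IsRegular (T := Z) {z | ∃ w : List Y, z = w.flatMap B} := by
  classical
  have h1 : ∀ s : Finset Y, (Tcc_fin B s).IsRegular := by
    intro s
    induction s using Finset.induction_on with
    | empty =>
      have : Tcc_fin B ∅ = ({[]} : Language Z) ⊓ ({[]} : Language Z)ᶜ := by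
        ext z
        constructor
        · rintro ⟨b, hb, _⟩
          simp at hb
        · rintro ⟨h, h'⟩
          exact absurd h h'
      rw [this]
      exact (regular_singleton _).inf (regular_singleton _).compl
    | insert a s ha ih =>
      have : Tcc_fin B (insert a s) = ({B a} : Language Z) + Tcc_fin B s := by
        ext z
        constructor
        · rintro ⟨b, hb, rfl⟩
          rcases Finset.mem_insert.1 hb with rfl | hb
          · exact Or.inl rfl
          · exact Or.inr ⟨b, hb, rfl⟩
        · rintro (h | ⟨b, hb, rfl⟩)
          · exact ⟨a, Finset.mem_insert_self _ _, h⟩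
          · exact ⟨b, Finset.mem_insert_of_mem hb, rfl⟩
      rw [this]
      exact (regular_singleton _).add ih
  have h2 : Tcc_lang B = KStar.kstar (Tcc_fin B Finset.univ) := by
    ext z
    rw [Language.mem_kstar]
    constructor
    · rintro ⟨w, rfl⟩
      refine ⟨w.map B, by rw [List.flatMap_def], ?_⟩
      intro y hy
      obtain ⟨b, _, rfl⟩ := List.mem_map.1 hy
      exact ⟨b, Finset.mem_univ _, rfl⟩
    · rintro ⟨S, rfl, hS⟩
      induction S with
      | nil => exact ⟨[], rfl⟩
      | cons y S ih =>
        obtain ⟨b, _, hb⟩ := hS y (by simp)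
        obtain ⟨w, hw⟩ := ih (fun y hy => hS y (by simp [hy]))
        refine ⟨b :: w, ?_⟩
        rw [List.flatten_cons, List.flatMap_cons, hw, hb]
  show (Tcc_lang B).IsRegular
  rw [h2]
  exact regular_kstar (h1 _)

private theorem Tcc_p1_left {Y Z : Type} (u : List Y) :
    p1 (u.map fun a => ((some a, none) : Option Y × Option Z)) = u := by
  induction u with
  | nil => rfl
  | cons a u ih => exact congrArg (fun l => a :: l) ih

private theorem Tcc_p2_left {Y Z : Type} (u : List Y) :
    p2 (u.map fun a => ((some a, none) : Option Y × Option Z)) = [] := by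
  induction u with
  | nil => rfl
  | cons a u ih => exact ih

private theorem Tcc_p1_right {Y Z : Type} (u : List Z) :
    p1 (u.map fun a => ((none, some a) : Option Y × Option Z)) = [] := by
  induction u with
  | nil => rfl
  | cons a u ih => exact ih

private theorem Tcc_p2_right {Y Z : Type} (u : List Z) :
    p2 (u.map fun a => ((none, some a) : Option Y × Option Z)) = u := by
  induction u with
  | nil => rfl
  | cons a u ih => exact congrArg (fun l => a :: l) ih

private theorem Tcc_p1_flatMap {V Y Z : Type} (B : V → List (Option Y × Option Z)) (w : List V) :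
    p1 (w.flatMap B) = w.flatMap (fun b => p1 (B b)) := by
  induction w with
  | nil => rfl
  | cons a w ih => rw [List.flatMap_cons, List.flatMap_cons, p1_append, ih]

private theorem Tcc_p2_flatMap {V Y Z : Type} (B : V → List (Option Y × Option Z)) (w : List V) :
    p2 (w.flatMap B) = w.flatMap (fun b => p2 (B b)) := by
  induction w with
  | nil => rfl
  | cons a w ih => rw [List.flatMap_cons, List.flatMap_cons, p2_append, ih]

private theorem Tcc_flatMap_single {V : Type} (w : List V) : w.flatMap (fun b => [b]) = w := by
  induction w with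
  | nil => rfl
  | cons a w ih => rw [List.flatMap_cons, ih]; rfl

/-- the graph of a morphism is a rational transduction -/
theorem rational_flatMap {Y Z : Type} [Fintype Y] (h : Y → List Z) :
    IsRational {p : List Y × List Z | p.2 = p.1.flatMap h} := by
  refine ⟨{z | ∃ w : List Y, z = w.flatMap (fun a => (some a, none) ::
    (h a).map (fun b => ((none, some b) : Option Y × Option Z)))}, Tcc_regular _, ?_⟩
  have e1 : ∀ w : List Y, p1 (w.flatMap (fun a => (some a, none) ::
      (h a).map (fun b => ((none, some b) : Option Y × Option Z)))) = w := by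
    intro w
    rw [Tcc_p1_flatMap]
    have : (fun a => p1 ((some a, none) ::
      (h a).map (fun b => ((none, some b) : Option Y × Option Z)))) = fun a => [a] := by
      funext a
      exact congrArg (fun l => a :: l) (Tcc_p1_right (h a))
    rw [this, Tcc_flatMap_single]
  have e2 : ∀ w : List Y, p2 (w.flatMap (fun a => (some a, none) ::
      (h a).map (fun b => ((none, some b) : Option Y × Option Z)))) = w.flatMap h := by
    intro w
    rw [Tcc_p2_flatMap]
    have : (fun a => p2 ((some a, none) ::
      (h a).map (fun b => ((none, some b) : Option Y × Option Z)))) = h := by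
      funext a
      exact Tcc_p2_right (h a)
    rw [this]
  intro u w
  constructor
  · intro (hw : w = u.flatMap h)
    exact ⟨_, ⟨u, rfl⟩, e1 u, (e2 u).trans hw.symm⟩
  · rintro ⟨z, ⟨v, rfl⟩, h1, h2⟩
    rw [e1] at h1
    rw [e2] at h2
    subst h1
    exact h2.symm

/-- the graph of an inverse morphism is a rational transduction -/
theorem rational_inv_flatMap {Y Z : Type} [Fintype Y] (h : Y → List Z) :
    IsRational {p : List Z × List Y | p.1 = p.2.flatMap h} := by
  refine ⟨{z | ∃ w : List Y, z = w.flatMap (fun a => (none, some a) ::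
    (h a).map (fun b => ((some b, none) : Option Z × Option Y)))}, Tcc_regular _, ?_⟩
  have e2 : ∀ w : List Y, p2 (w.flatMap (fun a => (none, some a) ::
      (h a).map (fun b => ((some b, none) : Option Z × Option Y)))) = w := by
    intro w
    rw [Tcc_p2_flatMap]
    have : (fun a => p2 ((none, some a) ::
      (h a).map (fun b => ((some b, none) : Option Z × Option Y)))) = fun a => [a] := by
      funext a
      exact congrArg (fun l => a :: l) (Tcc_p2_left (h a))
    rw [this, Tcc_flatMap_single]
  have e1 : ∀ w : List Y, p1 (w.flatMap (fun a => (none, some a) ::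
      (h a).map (fun b => ((some b, none) : Option Z × Option Y)))) = w.flatMap h := by
    intro w
    rw [Tcc_p1_flatMap]
    have : (fun a => p1 ((none, some a) ::
      (h a).map (fun b => ((some b, none) : Option Z × Option Y)))) = h := by
      funext a
      exact Tcc_p1_left (h a)
    rw [this]
  intro u w
  constructor
  · intro (hw : u = w.flatMap h)
    exact ⟨_, ⟨w, rfl⟩, (e1 w).trans hw.symm, e2 w⟩
  · rintro ⟨z, ⟨v, rfl⟩, h1, h2⟩
    rw [e1] at h1
    rw [e2] at h2
    subst h2
    exact h1.symm

theorem inv_flatMap_mem_T {k l : ℕ} {L : Language (Fin k)}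
    (hL : (⟨k, L⟩ : Σ n : ℕ, Language (Fin n)) ∈ T A) (h : Fin l → List (Fin k)) :
    (⟨l, {w | w.flatMap h ∈ L}⟩ : Σ n : ℕ, Language (Fin n)) ∈ T A := by
  obtain ⟨R, hR, e⟩ := rational_inv_flatMap h
  have := mem_T_labels hL hR
  have e' : ({w | ∃ z ∈ R, p1 z ∈ L ∧ p2 z = w} : Language (Fin l)) = {w | w.flatMap h ∈ L} := by
    ext w
    constructor
    · rintro ⟨z, hz, h1, h2⟩
      have h3 : p1 z = w.flatMap h := (e (p1 z) w).2 ⟨z, hz, rfl, h2⟩
      show w.flatMap h ∈ L
      rw [← h3]
      exact h1
    · intro (hw : w.flatMap h ∈ L)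
      obtain ⟨z, hz, h1, h2⟩ := (e (w.flatMap h) w).1 rfl
      refine ⟨z, hz, ?_, h2⟩
      rw [h1]
      exact hw
  rw [e'] at this
  exact this

end DCh
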