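import Pool.Agent.DCH.Wdb
import Pool.Agent.DCH.Tcc
import Pool.Agent.DCH.Rga
import Pool.Agent.DCH.Rgb
/-!
# Exa (size 2): bounded languages and sets of exponents

`exponent_mem_T`: `Lk {x | bw w x ∈ C} = {u | u.flatMap w ∈ C ∧ Srt u}` by `flatMap_srt`; this language is in `T A`
by `inv_flatMap_mem_T` and `inter_regular_mem_T` with `regular_srt`.
`regular_of_exponent`: `C` is the image of `Lk {x | bw w x ∈ C}` under the morphism `w` (`rational_flatMap`,
`flatMap_wd`, `mem_Lk`), which is rational; `regular_im`.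
-/
namespace DCh
open RCone

variable {X : Type} {A : Language X} {n k : ℕ}

theorem exponent_mem_T {C : Language (Fin n)} (w : Fin k → List (Fin n))
    (h : (⟨n, C⟩ : Σ n : ℕ, Language (Fin n)) ∈ T A) :
    (⟨k, Lk {x | bw w x ∈ C}⟩ : Σ n : ℕ, Language (Fin n)) ∈ T A := by
  have h1 := inv_flatMap_mem_T h w
  have h2 := inter_regular_mem_T h1 (regular_srt k)
  have heq : (Lk {x | bw w x ∈ C} : Language (Fin k)) =
      ({u | u.flatMap w ∈ C} : Language (Fin k)) ⊓ ({u | Srt u} : Language (Fin k)) := by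
    apply Set.ext
    intro u
    constructor
    · rintro ⟨hs, hc⟩
      refine ⟨?_, hs⟩
      show u.flatMap w ∈ C
      rw [flatMap_srt w hs]
      exact hc
    · rintro ⟨hc, hs⟩
      have hs' : Srt u := hs
      have hc' : u.flatMap w ∈ C := hc
      refine ⟨hs', ?_⟩
      show bw w (cnt u) ∈ C
      rw [← flatMap_srt w hs']
      exact hc'
  rw [heq]
  exact h2

theorem regular_of_exponent {C : Language (Fin n)} {w : Fin k → List (Fin n)}
    (hC : ∀ u ∈ C, ∃ x : Fin k → ℕ, u = bw w x) (h : (Lk {x | bw w x ∈ C}).IsRegular) :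
    C.IsRegular := by
  have h1 := regular_im h (rational_flatMap w)
  have heq : im {p : List (Fin k) × List (Fin n) | p.2 = p.1.flatMap w} (Lk {x | bw w x ∈ C}) = C := by
    apply Set.ext
    intro u
    constructor
    · rintro ⟨v, hv, huv⟩
      have huv' : u = v.flatMap w := huv
      obtain ⟨x, hx, rfl⟩ := (mem_Lk _ v).1 hv
      rw [flatMap_wd] at huv'
      rw [huv']
      exact hx
    · intro hu
      obtain ⟨x, rfl⟩ := hC u hu
      refine ⟨wd x, (mem_Lk _ _).2 ⟨x, hu, rfl⟩, ?_⟩
      show bw w x = (wd x).flatMap w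
      rw [flatMap_wd]
  rw [heq] at h1
  exact h1

end DCh
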