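import Pool.Agent.DCH.Defs
/-!
# Exc (size 2): exchanging the two middle parts of a label word

`p1`, `p2` of an append: `List.filterMap_append`. The letters of `p1 β₁` are letters of `p1 β`, etc.
(`List.mem_filterMap`). So `p1 β₁ = List.replicate _ s`, `p1 γ₁ = List.replicate _ (s + 1)` as lists of `Fin K` (if
nonempty), and `p1 (u ++ β₁ ++ γ₁ ++ v)` is sorted: `p1 u` and `p1 v` are sorted as sublists of a sorted list,
and the blocks are ordered (`List.pairwise_append`). `p2 β₁ ++ p2 γ₁` and `p2 β ++ p2 γ` are both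
`List.replicate _ b` of the same length (`List.eq_replicate_iff`). Counts: `List.count_append`; a letter
`j ≠ s, s + 1` does not occur in `p1 β`, `p1 β₁`, `p1 γ`, `p1 γ₁`; the letter `s` occurs only in `p1 β₁`
(`List.count_eq_length`), the letter `s + 1` only in `p1 γ₁`.
-/
namespace DCh
open RCone

private theorem Exc_p1_sub {K l : ℕ} {β β₁ : List (Option (Fin K) × Option (Fin l))}
    (s1 : ∀ a ∈ β₁, a ∈ β) {a : Fin K} (ha : a ∈ p1 β₁) : a ∈ p1 β := by
  unfold p1 at *
  rw [List.mem_filterMap] at *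
  obtain ⟨e, he, h⟩ := ha
  exact ⟨e, s1 e he, h⟩

private theorem Exc_p2_sub {K l : ℕ} {β β₁ : List (Option (Fin K) × Option (Fin l))}
    (s1 : ∀ a ∈ β₁, a ∈ β) {a : Fin l} (ha : a ∈ p2 β₁) : a ∈ p2 β := by
  unfold p2 at *
  rw [List.mem_filterMap] at *
  obtain ⟨e, he, h⟩ := ha
  exact ⟨e, s1 e he, h⟩

private theorem Exc_pw {K s : ℕ} {L : List (Fin K)} (h : ∀ a ∈ L, (a : ℕ) = s) :
    L.Pairwise (· ≤ ·) := by
  rw [List.pairwise_iff_getElem]
  intro i j hi hj _
  rw [Fin.le_def, h _ (List.getElem_mem hi), h _ (List.getElem_mem hj)]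

theorem exchange {K l s : ℕ} {b : Fin l} {u β γ v β₁ γ₁ : List (Option (Fin K) × Option (Fin l))}
    (h1 : Srt (p1 (u ++ β ++ γ ++ v)))
    (hu : ∀ a ∈ p1 u, (a : ℕ) < s) (hβ : ∀ a ∈ p1 β, (a : ℕ) = s)
    (hγ : ∀ a ∈ p1 γ, (a : ℕ) = s + 1) (hv : ∀ a ∈ p1 v, s + 1 < (a : ℕ))
    (hβ2 : ∀ a ∈ p2 β, a = b) (hγ2 : ∀ a ∈ p2 γ, a = b)
    (s1 : ∀ a ∈ β₁, a ∈ β) (s2 : ∀ a ∈ γ₁, a ∈ γ)
    (hlen : (p2 β₁).length + (p2 γ₁).length = (p2 β).length + (p2 γ).length) :
    Srt (p1 (u ++ β₁ ++ γ₁ ++ v)) ∧ p2 (u ++ β₁ ++ γ₁ ++ v) = p2 (u ++ β ++ γ ++ v) ∧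
    (∀ j : Fin K, (j : ℕ) ≠ s → (j : ℕ) ≠ s + 1 →
      cnt (p1 (u ++ β₁ ++ γ₁ ++ v)) j = cnt (p1 (u ++ β ++ γ ++ v)) j) ∧
    (∀ j : Fin K, (j : ℕ) = s → cnt (p1 (u ++ β₁ ++ γ₁ ++ v)) j = (p1 β₁).length) ∧
    (∀ j : Fin K, (j : ℕ) = s + 1 → cnt (p1 (u ++ β₁ ++ γ₁ ++ v)) j = (p1 γ₁).length) := by
  have P1 : ∀ x y : List (Option (Fin K) × Option (Fin l)), p1 (x ++ y) = p1 x ++ p1 y :=
    fun x y => List.filterMap_append
  have P2 : ∀ x y : List (Option (Fin K) × Option (Fin l)), p2 (x ++ y) = p2 x ++ p2 y :=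
    fun x y => List.filterMap_append
  have hβ' : ∀ a ∈ p1 β₁, (a : ℕ) = s := fun a ha => hβ a (Exc_p1_sub s1 ha)
  have hγ' : ∀ a ∈ p1 γ₁, (a : ℕ) = s + 1 := fun a ha => hγ a (Exc_p1_sub s2 ha)
  have hβ2' : ∀ a ∈ p2 β₁, a = b := fun a ha => hβ2 a (Exc_p2_sub s1 ha)
  have hγ2' : ∀ a ∈ p2 γ₁, a = b := fun a ha => hγ2 a (Exc_p2_sub s2 ha)
  unfold Srt at *
  simp only [cnt, P1, P2] at *
  rw [List.pairwise_append, List.pairwise_append, List.pairwise_append] at h1
  obtain ⟨⟨⟨hpu, -, -⟩, -, -⟩, hpv, -⟩ := h1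
  refine ⟨?_, ?_, ?_, ?_, ?_⟩
  · rw [List.pairwise_append, List.pairwise_append, List.pairwise_append]
    refine ⟨⟨⟨hpu, Exc_pw hβ', ?_⟩, Exc_pw hγ', ?_⟩, hpv, ?_⟩
    · intro a ha c hc
      have := hu a ha
      have := hβ' c hc
      rw [Fin.le_def]; omega
    · intro a ha c hc
      have h3 := hγ' c hc
      rw [List.mem_append] at ha
      rw [Fin.le_def]
      rcases ha with ha | ha
      · have := hu a ha
        omega
      · have := hβ' a ha
        omega
    · intro a ha c hc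
      have h3 := hv c hc
      rw [List.mem_append, List.mem_append] at ha
      rw [Fin.le_def]
      rcases ha with (ha | ha) | ha
      · have := hu a ha
        omega
      · have := hβ' a ha
        omega
      · have := hγ' a ha
        omega
  · have e1 : p2 β₁ ++ p2 γ₁ = p2 β ++ p2 γ := by
      have r1 : p2 β₁ ++ p2 γ₁ = List.replicate ((p2 β).length + (p2 γ).length) b := by
        rw [List.eq_replicate_iff]
        refine ⟨by rw [List.length_append, hlen], ?_⟩
        intro c hc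
        rw [List.mem_append] at hc
        exact hc.elim (hβ2' c) (hγ2' c)
      have r2 : p2 β ++ p2 γ = List.replicate ((p2 β).length + (p2 γ).length) b := by
        rw [List.eq_replicate_iff]
        refine ⟨by rw [List.length_append], ?_⟩
        intro c hc
        rw [List.mem_append] at hc
        exact hc.elim (hβ2 c) (hγ2 c)
      rw [r1, r2]
    rw [List.append_assoc (p2 u), e1, ← List.append_assoc (p2 u)]
  · intro j hj1 hj2
    simp only [List.count_append]
    have z1 : List.count j (p1 β₁) = 0 := List.count_eq_zero_of_not_mem fun h => hj1 (hβ' j h)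
    have z2 : List.count j (p1 γ₁) = 0 := List.count_eq_zero_of_not_mem fun h => hj2 (hγ' j h)
    have z3 : List.count j (p1 β) = 0 := List.count_eq_zero_of_not_mem fun h => hj1 (hβ j h)
    have z4 : List.count j (p1 γ) = 0 := List.count_eq_zero_of_not_mem fun h => hj2 (hγ j h)
    rw [z1, z2, z3, z4]
  · intro j hj
    simp only [List.count_append]
    have z1 : List.count j (p1 u) = 0 := List.count_eq_zero_of_not_mem fun h => by
      have := hu j h
      omega
    have z2 : List.count j (p1 γ₁) = 0 := List.count_eq_zero_of_not_mem fun h => by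
      have := hγ' j h
      omega
    have z3 : List.count j (p1 v) = 0 := List.count_eq_zero_of_not_mem fun h => by
      have := hv j h
      omega
    have z4 : List.count j (p1 β₁) = (p1 β₁).length := by
      rw [List.count_eq_length]
      intro c hc
      apply Fin.ext
      rw [hj, hβ' c hc]
    rw [z1, z2, z3, z4]
    omega
  · intro j hj
    simp only [List.count_append]
    have z1 : List.count j (p1 u) = 0 := List.count_eq_zero_of_not_mem fun h => by
      have := hu j h
      omega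
    have z2 : List.count j (p1 β₁) = 0 := List.count_eq_zero_of_not_mem fun h => by
      have := hβ' j h
      omega
    have z3 : List.count j (p1 v) = 0 := List.count_eq_zero_of_not_mem fun h => by
      have := hv j h
      omega
    have z4 : List.count j (p1 γ₁) = (p1 γ₁).length := by
      rw [List.count_eq_length]
      intro c hc
      apply Fin.ext
      rw [hj, hγ' c hc]
    rw [z1, z2, z3, z4]
    omega

end DCh
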