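import Pool.Agent.DCH.Defs
/-!
# Sla (size 3): semilinear sets have eventually periodic lines

Say that `S` is `U(i, p)` if for all `x` there is an `n₀` with: `n ≥ n₀` and `x + Pi.single i n ∈ S` imply
`x + Pi.single i (n + p) ∈ S`.
(1) A linear set `b +ᵥ closure t`, `t` finite, is `U(i, p)` for some `p > 0`: if some `v ∈ t` is `Pi.single i p` with
`p > 0`, use this `p` (and `n₀ = 0`). Otherwise every `v ∈ t` is `0` or has a nonzero coordinate `j ≠ i`, and every line
contains only finitely many points of the set (take `p = 1`, `n₀` beyond them): more precisely let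
`D = ∑ v ∈ t, v i`; every element `y` of `closure t` satisfies `y i ≤ D * ∑ j ∈ univ.erase i, y j`
(`AddSubmonoid.closure_induction`: for `v ∈ t`: if `v = 0` it is clear, else `1 ≤ ∑ j ≠ i, v j` and `v i ≤ D`; the
inequality is preserved by sums), and on a line the right hand side for `y = x + Pi.single i n - b` is bounded, the
left hand side is `x i + n - b i`.
(2) A finite union of sets `S_a` with `U(i, p_a)` is `U(i, p)` for the product `p` of the `p_a` (induction over the
finite set of linear sets; `U(i, p)` implies `U(i, p * c)`, `n₀` unchanged).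
(3) `U(i, p)` implies `LineP S i p`: given `x` and `n₀`, for each residue `r < p` for which there is an `n ≥ n₀` with
`n % p = r` and `x + Pi.single i n ∈ S` choose one such `n`, and let `n₁` be the maximum of these numbers and `n₀`.
For `n ≥ n₁`: `x + Pi.single i (n + p) ∈ S` implies that a number `n' ≤ n₁ ≤ n` was chosen for the residue of `n`,
so `n = n' + c * p` and `x + Pi.single i n ∈ S` by `U(i, p)` applied `c` times.
-/
namespace DCh
open RCone

private def UU {k : ℕ} (S : Set (Fin k → ℕ)) (i : Fin k) (p : ℕ) : Prop :=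
  ∀ x : Fin k → ℕ, ∃ n₀ : ℕ, ∀ n ≥ n₀, x + Pi.single i n ∈ S → x + Pi.single i (n + p) ∈ S

private theorem UU_mul {k : ℕ} {S : Set (Fin k → ℕ)} {i : Fin k} {p : ℕ} (h : UU S i p) (c : ℕ) :
    UU S i (p * c) := by
  intro x
  obtain ⟨n₀, hn⟩ := h x
  refine ⟨n₀, fun n hnn hm => ?_⟩
  induction c with
  | zero => simpa using hm
  | succ c ih =>
    have := hn (n + p * c) (by omega) ih
    rw [show n + p * (c + 1) = n + p * c + p by ring]
    exact this

private theorem UU_linear {k : ℕ} {S : Set (Fin k → ℕ)} (h : IsLinearSet S) (i : Fin k) :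
    ∃ p : ℕ, 0 < p ∧ UU S i p := by
  classical
  obtain ⟨b, t, rfl⟩ := isLinearSet_iff.1 h
  by_cases hA : ∃ v ∈ t, ∃ p : ℕ, 0 < p ∧ v = Pi.single i p
  · obtain ⟨v, hv, p, hp, rfl⟩ := hA
    refine ⟨p, hp, fun x => ⟨0, fun n _ hm => ?_⟩⟩
    rw [Set.mem_vadd_set] at hm ⊢
    obtain ⟨y, hy, hxy⟩ := hm
    refine ⟨y + Pi.single i p, AddSubmonoid.add_mem _ hy (AddSubmonoid.subset_closure hv), ?_⟩
    rw [vadd_eq_add] at hxy ⊢
    rw [← add_assoc, hxy, add_assoc, ← Pi.single_add]
  · refine ⟨1, one_pos, fun x => ?_⟩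
    set D : ℕ := ∑ v ∈ t, v i with hD
    have key : ∀ y ∈ AddSubmonoid.closure (t : Set (Fin k → ℕ)),
        y i ≤ D * ∑ j ∈ Finset.univ.erase i, y j := by
      intro y hy
      induction hy using AddSubmonoid.closure_induction with
      | mem v hv =>
        have h1 : v i ≤ D := Finset.single_le_sum (f := fun v : Fin k → ℕ => v i)
          (fun _ _ => Nat.zero_le _) hv
        rcases Nat.eq_zero_or_pos (∑ j ∈ Finset.univ.erase i, v j) with h0 | h0
        · have h2 : v = Pi.single i (v i) := by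
            funext j
            by_cases hj : j = i
            · subst hj
              rw [Pi.single_eq_same]
            · rw [Pi.single_eq_of_ne hj]
              exact Finset.sum_eq_zero_iff.1 h0 j (Finset.mem_erase.2 ⟨hj, Finset.mem_univ _⟩)
          rcases Nat.eq_zero_or_pos (v i) with h3 | h3
          · rw [h3]
            exact Nat.zero_le _
          · exact absurd ⟨v, hv, v i, h3, h2⟩ hA
        · exact h1.trans (Nat.le_mul_of_pos_right _ h0)
      | zero => simp
      | add y z _ _ hy hz =>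
        have h4 : ∑ j ∈ Finset.univ.erase i, (y + z) j
            = ∑ j ∈ Finset.univ.erase i, y j + ∑ j ∈ Finset.univ.erase i, z j := by
          rw [← Finset.sum_add_distrib]
          rfl
        rw [h4, mul_add, Pi.add_apply]
        exact add_le_add hy hz
    refine ⟨b i + D * ∑ j ∈ Finset.univ.erase i, x j + 1, fun n hn hm => ?_⟩
    exfalso
    rw [Set.mem_vadd_set] at hm
    obtain ⟨y, hy, hxy⟩ := hm
    rw [vadd_eq_add] at hxy
    have h1 := key y hy
    have h2 : ∑ j ∈ Finset.univ.erase i, y j ≤ ∑ j ∈ Finset.univ.erase i, x j := by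
      refine Finset.sum_le_sum (fun j hj => ?_)
      have h3 := congrFun hxy j
      rw [Pi.add_apply, Pi.add_apply, Pi.single_eq_of_ne (Finset.ne_of_mem_erase hj)] at h3
      omega
    have h3 := congrFun hxy i
    rw [Pi.add_apply, Pi.add_apply, Pi.single_eq_same] at h3
    have h4 : D * ∑ j ∈ Finset.univ.erase i, y j ≤ D * ∑ j ∈ Finset.univ.erase i, x j :=
      Nat.mul_le_mul_left _ h2
    omega

private theorem UU_semilinear {k : ℕ} {S : Set (Fin k → ℕ)} (h : IsSemilinearSet S) (i : Fin k) :
    ∃ p : ℕ, 0 < p ∧ UU S i p := by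
  classical
  obtain ⟨A, hA, rfl⟩ := isSemilinearSet_iff.1 h
  clear h
  induction A using Finset.induction_on with
  | empty =>
    refine ⟨1, one_pos, fun x => ⟨0, fun n _ hm => ?_⟩⟩
    simp at hm
  | insert a s ha ih =>
    obtain ⟨p2, hp2, h2⟩ := ih (fun t ht => hA t (Finset.mem_insert_of_mem ht))
    obtain ⟨p1, hp1, h1⟩ := UU_linear (hA a (Finset.mem_insert_self _ _)) i
    refine ⟨p1 * p2, Nat.mul_pos hp1 hp2, fun x => ?_⟩
    obtain ⟨m1, hm1⟩ := UU_mul h1 p2 x
    obtain ⟨m2, hm2⟩ := UU_mul h2 p1 x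
    refine ⟨max m1 m2, fun n hn hm => ?_⟩
    rw [Finset.coe_insert, Set.sUnion_insert] at hm ⊢
    rcases hm with hm | hm
    · exact Or.inl (hm1 n (le_of_max_le_left hn) hm)
    · refine Or.inr ?_
      rw [mul_comm p1 p2]
      exact hm2 n (le_of_max_le_right hn) hm

private theorem LineP_of_UU {k : ℕ} {S : Set (Fin k → ℕ)} {i : Fin k} {p : ℕ} (hp : 0 < p)
    (h : UU S i p) : LineP S i p := by
  intro x
  obtain ⟨n₀, hn₀⟩ := h x
  have hres : ∀ r : Fin p, ∃ m : ℕ, ∀ n ≥ m, n % p = r →
      (x + Pi.single i n ∈ S ↔ x + Pi.single i (n + p) ∈ S) := by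
    intro r
    by_cases hex : ∃ m ≥ n₀, m % p = r ∧ x + Pi.single i m ∈ S
    · obtain ⟨m, hm, hmr, hmS⟩ := hex
      have hall : ∀ c : ℕ, x + Pi.single i (m + c * p) ∈ S := by
        intro c
        induction c with
        | zero => simpa using hmS
        | succ c ih =>
          have := hn₀ (m + c * p) (by omega) ih
          rw [show m + (c + 1) * p = m + c * p + p by ring]
          exact this
      refine ⟨m, fun n hn hnr => ?_⟩
      have hdvd : p ∣ n - m := (Nat.modEq_iff_dvd' hn).1 (by rw [Nat.ModEq, hmr, hnr])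
      obtain ⟨c, hc⟩ := hdvd
      have hnc : n = m + c * p := by
        rw [mul_comm] at hc
        omega
      have h1 := hall c
      have h2 := hall (c + 1)
      rw [show m + (c + 1) * p = m + c * p + p by ring] at h2
      rw [← hnc] at h1 h2
      exact ⟨fun _ => h2, fun _ => h1⟩
    · refine ⟨n₀, fun n hn hnr => ?_⟩
      constructor
      · intro hS
        exact absurd ⟨n, hn, hnr, hS⟩ hex
      · intro hS
        exact absurd ⟨n + p, by omega, by rw [Nat.add_mod_right]; exact hnr, hS⟩ hex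
  choose m hm using hres
  refine ⟨Finset.univ.sup m, fun n hn => ?_⟩
  exact hm ⟨n % p, Nat.mod_lt _ hp⟩ n
    (le_trans (Finset.le_sup (f := m) (Finset.mem_univ _)) hn) rfl

theorem linePer_of_semilinear {k : ℕ} {S : Set (Fin k → ℕ)} (h : IsSemilinearSet S) :
    LinePer S := by
  intro i
  obtain ⟨p, hp, hU⟩ := UU_semilinear h i
  exact ⟨p, hp, LineP_of_UU hp hU⟩

theorem LinePer.compl {k : ℕ} {S : Set (Fin k → ℕ)} (h : LinePer S) : LinePer Sᶜ := by
  intro i
  obtain ⟨p, hp, hL⟩ := h i
  refine ⟨p, hp, fun x => ?_⟩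
  obtain ⟨n₀, hn⟩ := hL x
  exact ⟨n₀, fun n hnn => not_congr (hn n hnn)⟩

end DCh
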