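import Pool.Agent.DCH.Gre
import Pool.Agent.DCH.Sla
import Pool.Agent.DCH.Chn
/-!
# Fin1: the theorem
-/
namespace DCh
open RCone

theorem Fin1_split {α : Type} {k d : ℕ} (w : Fin (k + d) → List α) (x : Fin (k + d) → ℕ) :
    bw w x = bw (fun i : Fin k => w (Fin.castAdd d i)) (fun i => x (Fin.castAdd d i)) ++
      bw (fun i : Fin d => w (Fin.natAdd k i)) (fun i => x (Fin.natAdd k i)) := by
  unfold bw
  rw [List.ofFn_add, List.flatten_append]
  rfl

theorem BoundedBy.mono {α : Type} {k l : ℕ} (h : k ≤ l) {L : Language α} (hL : BoundedBy k L) :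
    BoundedBy l L := by
  obtain ⟨d, rfl⟩ := Nat.exists_eq_add_of_le h
  obtain ⟨w, hw⟩ := hL
  refine ⟨Fin.append w (fun _ => []), fun u hu => ?_⟩
  obtain ⟨x, rfl⟩ := hw u hu
  refine ⟨Fin.append x (fun _ => 0), ?_⟩
  rw [Fin1_split]
  have h1 : bw (fun i : Fin d => (Fin.append w (fun _ => ([] : List α)) : Fin (k + d) → List α)
      (Fin.natAdd k i)) (fun i => (Fin.append x (fun _ => 0) : Fin (k + d) → ℕ) (Fin.natAdd k i))
      = [] := by
    simp [bw, rep]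
  rw [h1, List.append_nil]
  simp

theorem main {n m : ℕ} (A : Language (Fin n)) (B : Language (Fin m)) (hA : A.IsContextFree)
    (hB : ∃ u, u ∈ B) (hBA : T B ⊆ T A)
    (hb : ∃ K ∈ T A, ∃ k, BoundedBy k K.2 ∧ ¬ K.2.IsRegular)
    (hr : ∀ K ∈ T B, ∀ k, BoundedBy k K.2 → K.2.IsRegular) :
    ∃ C : ℕ → (Σ n : ℕ, Language (Fin n)), ∀ i, (∃ u, u ∈ (C i).2) ∧
      T B ⊂ T (C i).2 ∧ T (C (i + 1)).2 ⊂ T (C i).2 ∧ T (C i).2 ⊂ T A ∧
      ∀ K ∈ T (C i).2, ∀ k ≤ i, BoundedBy k K.2 → K.2.IsRegular := by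
  have hper : ∀ k, ∀ V ∈ coT A k, LinePer V := by
    intro k V hV
    have h := linePer_of_semilinear (semilinear_of_contextFree hA hV)
    have h2 := h.compl
    rwa [compl_compl] at h2
  obtain ⟨C, hC⟩ := chain A B hper hB (hBA (mem_T_self B)) hb hr
  refine ⟨C, fun i => ?_⟩
  obtain ⟨h1, h2, h3, h4, h5⟩ := hC i
  exact ⟨h1, h2, h3, h4, fun K hK k hk hb => h5 K hK (hb.mono hk)⟩

end DCh
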