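import Mathlib
/-!
# Gra (size 3): derivations of terminal words, parsed

`Yd_append`: by induction over `s` (cases on the derivation of a `cons`; for `→` in the nonterminal case the word is
`u ++ v` with `Yd g r.output u` and `Yd g (s ++ t) v`).
`Yd_iff`, `→`: induction over `Yd`: `ContextFreeGrammar.Derives.append_left`, `.append_right`, `Derives.trans`; a rule
`r ∈ g.rules` gives `g.Produces [nonterminal r.input] r.output` (`ContextFreeRule.Rewrites.input_output`).
`←`: head induction over the reflexive transitive closure (`Relation.ReflTransGen.head_induction_on`): the base is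
`Yd g (u.map terminal) u` (induction over `u`); for a step `g.Produces s s'`, `Yd g s' u`: `s = p ++ [nonterminal
r.input] ++ q`, `s' = p ++ r.output ++ q` (`ContextFreeRule.rewrites_iff`); split `u` by `Yd_append` and use the
constructor `nt` with `s = []`.
-/
namespace DCh

/-- the string of symbols `s` derives the terminal word `u` -/
inductive Yd {X : Type} (g : ContextFreeGrammar X) : List (Symbol X g.NT) → List X → Prop
  | nil : Yd g [] []
  | term (a : X) (s : List (Symbol X g.NT)) (u : List X) (h : Yd g s u) :
      Yd g (Symbol.terminal a :: s) (a :: u)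
  | nt (r : ContextFreeRule X g.NT) (hr : r ∈ g.rules) (s : List (Symbol X g.NT)) (u v : List X)
      (h₁ : Yd g r.output u) (h₂ : Yd g s v) : Yd g (Symbol.nonterminal r.input :: s) (u ++ v)

variable {X : Type} {g : ContextFreeGrammar X}

private theorem Yd_comb {s t : List (Symbol X g.NT)} {u v : List X} (h : Yd g s u) (h2 : Yd g t v) :
    Yd g (s ++ t) (u ++ v) := by
  induction h with
  | nil => simpa using h2
  | term a s u h ih =>
    simpa using Yd.term a (s ++ t) (u ++ v) ih
  | nt r hr s u w h₁ h₃ _ ih =>
    have := Yd.nt r hr (s ++ t) u (w ++ v) h₁ ih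
    simpa [List.append_assoc] using this

private theorem Yd_split : ∀ (s t : List (Symbol X g.NT)) (w : List X), Yd g (s ++ t) w →
    ∃ u v, w = u ++ v ∧ Yd g s u ∧ Yd g t v
  | [], t, w, h => ⟨[], w, rfl, Yd.nil, by simpa using h⟩
  | x :: s, t, w, h => by
    rw [List.cons_append] at h
    cases h with
    | term a _ u h =>
      obtain ⟨u1, v1, e, h1, h2⟩ := Yd_split s t u h
      exact ⟨a :: u1, v1, by rw [e]; rfl, Yd.term a s u1 h1, h2⟩
    | nt r hr _ u v h₁ h₂ =>
      obtain ⟨u1, v1, e, h1, h2⟩ := Yd_split s t v h₂
      exact ⟨u ++ u1, v1, by rw [e, List.append_assoc], Yd.nt r hr s u u1 h₁ h1, h2⟩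

theorem Yd_append {s t : List (Symbol X g.NT)} {w : List X} :
    Yd g (s ++ t) w ↔ ∃ u v, w = u ++ v ∧ Yd g s u ∧ Yd g t v := by
  constructor
  · exact Yd_split s t w
  · rintro ⟨u, v, rfl, h1, h2⟩
    exact Yd_comb h1 h2

theorem Yd_iff {s : List (Symbol X g.NT)} {u : List X} :
    Yd g s u ↔ g.Derives s (u.map Symbol.terminal) := by
  constructor
  · intro h
    induction h with
    | nil => exact ContextFreeGrammar.Derives.refl _
    | term a s u h ih =>
      exact ih.append_left [Symbol.terminal a]
    | nt r hr s u v h₁ h₂ ih1 ih2 =>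
      have p1 : g.Produces [Symbol.nonterminal r.input] r.output :=
        ⟨r, hr, ContextFreeRule.Rewrites.input_output⟩
      have d1 : g.Derives [Symbol.nonterminal r.input] (u.map Symbol.terminal) :=
        p1.trans_derives ih1
      have d2 := d1.append_right s
      have d3 := ih2.append_left (u.map Symbol.terminal)
      have d4 := d2.trans d3
      simpa using d4
  · intro h
    induction h using Relation.ReflTransGen.head_induction_on with
    | refl =>
      induction u with
      | nil => exact Yd.nil
      | cons a u ih => exact Yd.term a _ _ ih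
    | head hstep _ ih =>
      obtain ⟨r, hr, hrw⟩ := hstep
      obtain ⟨p, q, rfl, rfl⟩ := hrw.exists_parts
      obtain ⟨w1, v, rfl, h1, h2⟩ := Yd_append.1 ih
      obtain ⟨u1, u2, rfl, h3, h4⟩ := Yd_append.1 h1
      refine Yd_append.2 ⟨_, v, rfl, Yd_append.2 ⟨u1, u2, rfl, h3, ?_⟩, h2⟩
      have := Yd.nt r hr [] u2 [] h4 Yd.nil
      simpa using this

theorem mem_language_Yd {u : List X} :
    u ∈ g.language ↔ Yd g [Symbol.nonterminal g.initial] u := by
  rw [Yd_iff, ContextFreeGrammar.mem_language_iff]

end DCh
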