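import Pool.Agent.DCH.Rfe
/-!
# Grb (size 2): Parikh's theorem for regular languages

Let `D : DFA Λ σ` accept `R`. Apply `least_fintype` with `ι = σ` and
`e q X = (if q ∈ D.accept then {0} else ∅) ∪ ⋃ a : Λ, {φ a} + X (D.step q a)` (`Rfi.const` with a finite set,
`Rfi.iUnion`), and let `S` be the least solution. Claim: `S q = {v | ∃ z, D.evalFrom q z ∈ D.accept ∧ (z.map φ).sum = v}`.
`⊆`: the family on the right satisfies `e i X ⊆ X i`. `⊇`: induction over `z`, with `e i S ⊆ S i`.
Take `q = D.start`.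
-/
namespace DCh
open Pointwise

theorem semilinear_regular {Λ M : Type} [Finite Λ] [AddCommMonoid M] (φ : Λ → M)
    {R : Language Λ} (hR : R.IsRegular) : IsSemilinearSet {v : M | ∃ z ∈ R, (z.map φ).sum = v} := by
  classical
  obtain ⟨σ, _, D, hD⟩ := hR
  let c : σ → Set M := fun q => if q ∈ D.accept then {0} else ∅
  let e : σ → (σ → Set M) → Set M := fun q X => c q ∪ ⋃ a : Λ, ({φ a} + X (D.step q a))
  have hc : ∀ q, IsSemilinearSet (c q) := by
    intro q
    simp only [c]
    split_ifs
    · exact IsSemilinearSet.singleton 0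
    · exact IsSemilinearSet.empty
  have he : ∀ q, Rfi M σ (e q) := fun q =>
    Rfi.union _ _ (Rfi.const (c q) (hc q)) (Rfi.iUnion _ fun a =>
      Rfi.add _ _ (Rfi.const {φ a} (IsSemilinearSet.singleton _)) (Rfi.var _))
  obtain ⟨S, h1, h2, h3⟩ := least_fintype e he
  let X : σ → Set M := fun q => {v | ∃ z, D.evalFrom q z ∈ D.accept ∧ (z.map φ).sum = v}
  have hX : ∀ q, e q X ⊆ X q := by
    rintro q v (hv | hv)
    · simp only [c] at hv
      split_ifs at hv with hq
      · exact ⟨[], by simpa using hq, by simpa using hv.symm⟩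
      · exact hv.elim
    · obtain ⟨a, ha⟩ := Set.mem_iUnion.mp hv
      obtain ⟨u, hu, w, ⟨z, hz, rfl⟩, rfl⟩ := Set.mem_add.mp ha
      rw [Set.mem_singleton_iff] at hu
      subst hu
      exact ⟨a :: z, by simpa [DFA.evalFrom] using hz, by simp⟩
  have hS : ∀ (z : List Λ) (q : σ), D.evalFrom q z ∈ D.accept → (z.map φ).sum ∈ S q := by
    intro z
    induction z with
    | nil =>
      intro q hq
      refine h2 q (Or.inl ?_)
      have hq' : q ∈ D.accept := by simpa using hq
      simp [c, hq']
    | cons a z ih =>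
      intro q hq
      refine h2 q (Or.inr (Set.mem_iUnion.mpr ⟨a, ?_⟩))
      rw [List.map_cons, List.sum_cons]
      exact Set.add_mem_add rfl (ih _ (by simpa [DFA.evalFrom] using hq))
  have hfin : {v : M | ∃ z ∈ R, (z.map φ).sum = v} = S D.start := by
    apply Set.Subset.antisymm
    · rintro v ⟨z, hz, rfl⟩
      refine hS z D.start ?_
      rw [← hD] at hz
      exact hz
    · intro v hv
      obtain ⟨z, hz, hv'⟩ := h3 X hX D.start hv
      refine ⟨z, ?_, hv'⟩
      rw [← hD]
      exact hz
  rw [hfin]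
  exact h1 _

end DCh
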