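import Pool.Agent.DCH.Grb
import Pool.Agent.DCH.Gra
import Pool.Agent.RC.Cone
/-!
# Grc (size 3): the sets `Dst`

`Dst g D φ s p q`: the weights of the label words `z` which lead the automaton `D` from `p` to `q` and whose first
component is derived by the string of symbols `s`.
`Dst_nil`: `Yd g [] (p1 z)` means `p1 z = []`; the language `{z | D.evalFrom p z = q ∧ p1 z = []}` is regular (the DFA
`⟨D.step, p, {q}⟩`, `RCone.regular_preimage Prod.fst`, `RCone.regular_singleton []`, `Language.IsRegular.inf`); use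
`semilinear_regular`. `Dst_term`: the same with `p1 z = [a]`.
`Dst_cons`: `⊆`: `Yd g (x :: s) w` splits `w = u ++ v` with `Yd g [x] u`, `Yd g s v` (`Yd_append` with `[x] ++ s`), and
`p1 z = u ++ v` splits `z = z₁ ++ z₂` (`List.filterMap_eq_append_iff`), `p' = D.evalFrom p z₁`. `⊇`: concatenate.
`Dst_nt`: cases on `Yd g [nonterminal Z] w` (the rest of the string is `[]`, which derives `[]`).
-/
namespace DCh
open Pointwise RCone

variable {X Y σ M : Type} [AddCommMonoid M]

/-- see the header -/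
def Dst (g : ContextFreeGrammar X) (D : DFA (Option X × Option Y) σ)
    (φ : Option X × Option Y → M) (s : List (Symbol X g.NT)) (p q : σ) : Set M :=
  {v | ∃ z, D.evalFrom p z = q ∧ Yd g s (p1 z) ∧ (z.map φ).sum = v}

private theorem grc_nil {g : ContextFreeGrammar X} {w : List X} : Yd g [] w ↔ w = [] := by
  constructor
  · intro h
    cases h
    rfl
  · rintro rfl
    exact Yd.nil

private theorem grc_term {g : ContextFreeGrammar X} {a : X} {w : List X} :
    Yd g [Symbol.terminal a] w ↔ w = [a] := by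
  constructor
  · intro h
    cases h with
    | term a s u h => rw [grc_nil.1 h]
  · rintro rfl
    exact Yd.term a [] [] Yd.nil

private theorem grc_nt {g : ContextFreeGrammar X} {Z : g.NT} {w : List X} :
    Yd g [Symbol.nonterminal Z] w ↔ ∃ r ∈ g.rules, r.input = Z ∧ Yd g r.output w := by
  constructor
  · intro h
    cases h with
    | nt r hr s u v h₁ h₂ =>
      rw [grc_nil.1 h₂, List.append_nil]
      exact ⟨r, hr, rfl, h₁⟩
  · rintro ⟨r, hr, rfl, h⟩
    have := Yd.nt r hr [] w [] h Yd.nil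
    rwa [List.append_nil] at this

private theorem grc_regular [Finite X] [Finite Y] [Finite σ] (D : DFA (Option X × Option Y) σ)
    (φ : Option X × Option Y → M) (w : List X) (p q : σ) :
    IsSemilinearSet {v : M | ∃ z, D.evalFrom p z = q ∧ p1 z = w ∧ (z.map φ).sum = v} := by
  have h1 : (⟨D.step, p, {q}⟩ : DFA (Option X × Option Y) σ).accepts.IsRegular :=
    ⟨σ, Fintype.ofFinite σ, _, rfl⟩
  have h2 : Language.IsRegular (T := Option X × Option Y)
      {z | z.filterMap Prod.fst ∈ ({w} : Language X)} :=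
    regular_preimage (α := Option X × Option Y) Prod.fst (regular_singleton w)
  have h3 := semilinear_regular φ (h1.inf h2)
  refine (congrArg IsSemilinearSet ?_).mp h3
  ext v
  constructor
  · rintro ⟨z, ⟨hz1, hz2⟩, hv⟩
    exact ⟨z, hz1, hz2, hv⟩
  · rintro ⟨z, hz1, hz2, hv⟩
    exact ⟨z, ⟨hz1, hz2⟩, hv⟩

theorem Dst_nil [Finite X] [Finite Y] [Finite σ] (g : ContextFreeGrammar X)
    (D : DFA (Option X × Option Y) σ) (φ : Option X × Option Y → M) (p q : σ) :
    IsSemilinearSet (Dst g D φ [] p q) := by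
  have h := grc_regular D φ [] p q
  refine (congrArg IsSemilinearSet ?_).mp h
  ext v
  simp only [Dst, grc_nil, Set.mem_ofPred_eq]

theorem Dst_term [Finite X] [Finite Y] [Finite σ] (g : ContextFreeGrammar X)
    (D : DFA (Option X × Option Y) σ) (φ : Option X × Option Y → M) (a : X) (p q : σ) :
    IsSemilinearSet (Dst g D φ [Symbol.terminal a] p q) := by
  have h := grc_regular D φ [a] p q
  refine (congrArg IsSemilinearSet ?_).mp h
  ext v
  simp only [Dst, grc_term, Set.mem_ofPred_eq]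

theorem Dst_cons (g : ContextFreeGrammar X) (D : DFA (Option X × Option Y) σ)
    (φ : Option X × Option Y → M) (x : Symbol X g.NT) (s : List (Symbol X g.NT)) (p q : σ) :
    Dst g D φ (x :: s) p q = ⋃ p' : σ, Dst g D φ [x] p p' + Dst g D φ s p' q := by
  ext v
  simp only [Set.mem_iUnion, Set.mem_add]
  constructor
  · rintro ⟨z, hq, hY, hv⟩
    obtain ⟨u, w, huw, hu, hw⟩ := (Yd_append (g := g) (s := [x]) (t := s)).1 hY
    obtain ⟨z1, z2, rfl, h1, h2⟩ := List.filterMap_eq_append_iff.1 huw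
    refine ⟨D.evalFrom p z1, (z1.map φ).sum, ⟨z1, rfl, ?_, rfl⟩, (z2.map φ).sum,
      ⟨z2, ?_, ?_, rfl⟩, ?_⟩
    · rw [show p1 z1 = u from h1]
      exact hu
    · rw [← hq, DFA.evalFrom_of_append]
    · rw [show p1 z2 = w from h2]
      exact hw
    · rw [← hv, List.map_append, List.sum_append]
  · rintro ⟨p', v1, ⟨z1, hq1, hY1, hv1⟩, v2, ⟨z2, hq2, hY2, hv2⟩, rfl⟩
    refine ⟨z1 ++ z2, ?_, ?_, ?_⟩
    · rw [DFA.evalFrom_of_append, hq1, hq2]
    · have h : p1 (z1 ++ z2) = p1 z1 ++ p1 z2 := by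
        simp only [p1, List.filterMap_append]
      rw [h]
      exact (Yd_append (g := g) (s := [x]) (t := s)).2 ⟨_, _, rfl, hY1, hY2⟩
    · rw [List.map_append, List.sum_append, hv1, hv2]

theorem Dst_nt (g : ContextFreeGrammar X) (D : DFA (Option X × Option Y) σ)
    (φ : Option X × Option Y → M) (Z : g.NT) (p q : σ) (v : M) :
    v ∈ Dst g D φ [Symbol.nonterminal Z] p q ↔
      ∃ r ∈ g.rules, r.input = Z ∧ v ∈ Dst g D φ r.output p q := by
  constructor
  · rintro ⟨z, hq, hY, hv⟩
    obtain ⟨r, hr, hZ, h⟩ := grc_nt.1 hY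
    exact ⟨r, hr, hZ, z, hq, h, hv⟩
  · rintro ⟨r, hr, hZ, z, hq, h, hv⟩
    exact ⟨z, hq, grc_nt.2 ⟨r, hr, hZ, h⟩, hv⟩

end DCh
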