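import Pool.Agent.DCH.Grc
/-!
# Grd (size 4): the sets `Dst` are semilinear

Let `I` be the (finite) set of the inputs of the rules, `ι = σ × {Z // ∃ r ∈ g.rules, r.input = Z} × σ` (finite;
`Fintype.ofFinite`). Define `F s p q : (ι → Set M) → Set M` by recursion over `s`:
`F [] p q X = Dst [] p q`,
`F (terminal a :: s) p q X = ⋃ p', Dst [terminal a] p p' + F s p' q X`,
`F (nonterminal Z :: s) p q X = ⋃ p', (X (p, Z, p') if Z ∈ I, else ∅) + F s p' q X`.
All are `Rfi` (`Dst_nil`, `Dst_term`, `Rfi.iUnion`). Let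
`e (p, Z, q) X = ⋃ r : {r // r ∈ g.rules ∧ r.input = Z}, F r.output p q X` and let `S` be the least solution
(`least_fintype`). Let `𝒟 (p, Z, q) = Dst [nonterminal Z] p q`.
(1) `F s p q 𝒟 ⊆ Dst s p q`: induction over `s`, `Dst_cons`. So `e i 𝒟 ⊆ 𝒟 i` (`Dst_nt`) and `S i ⊆ 𝒟 i`. Hence
`F s p q S ⊆ F s p q 𝒟 ⊆ Dst s p q` (`Rfi.mono`).
(2) `Dst s p q ⊆ F s p q S`: by induction over the derivation: if `Yd g s w` then for all `z`, `p` with `p1 z = w`:
`(z.map φ).sum ∈ F s p (D.evalFrom p z) S`. `nil`: clear. `term`: `z = z₁ ++ z₂`, `p1 z₁ = [a]`, `p1 z₂ = u`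
(`List.filterMap_eq_append_iff`). `nt r`: `z = z₁ ++ z₂`, `p1 z₁ = u`, `p1 z₂ = v`, `p' = D.evalFrom p z₁`; the induction
hypothesis for `z₁` gives `(z₁.map φ).sum ∈ F r.output p p' S ⊆ e (p, r.input, p') S ⊆ S (p, r.input, p')`.
So `Dst s p q = F s p q S`, which is semilinear (`Rfi` operators preserve semilinear families: induction).
-/
namespace DCh
open Pointwise RCone

/-- the operators `F` of the header; `ru` enumerates the rules, the variable `(p, i, q)` stands for
the weights of the derivations which begin with the rule `ru i` -/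
private def Grd_F {X Y σ M : Type} [AddCommMonoid M] (g : ContextFreeGrammar X)
    (D : DFA (Option X × Option Y) σ) (φ : Option X × Option Y → M) {n : ℕ}
    (ru : Fin n → ContextFreeRule X g.NT) :
    List (Symbol X g.NT) → σ → σ → ((σ × Fin n × σ) → Set M) → Set M
  | [], p, q, _ => Dst g D φ [] p q
  | Symbol.terminal a :: s, p, q, V =>
      ⋃ p' : σ, (Dst g D φ [Symbol.terminal a] p p' + Grd_F g D φ ru s p' q V)
  | Symbol.nonterminal Z :: s, p, q, V =>
      ⋃ p' : σ, ((⋃ i : {i : Fin n // (ru i).input = Z}, V (p, i.1, p')) +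
        Grd_F g D φ ru s p' q V)

private lemma Grd_rfi {X Y σ M : Type} [AddCommMonoid M] [Finite X] [Finite Y] [Finite σ]
    (g : ContextFreeGrammar X) (D : DFA (Option X × Option Y) σ) (φ : Option X × Option Y → M)
    {n : ℕ} (ru : Fin n → ContextFreeRule X g.NT) (s : List (Symbol X g.NT)) :
    ∀ p q : σ, Rfi M (σ × Fin n × σ) (Grd_F g D φ ru s p q) := by
  induction s with
  | nil =>
    intro p q
    exact Rfi.const _ (Dst_nil g D φ p q)
  | cons x s ih =>
    intro p q
    cases x with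
    | terminal a =>
      exact Rfi.iUnion (fun p' V => Dst g D φ [Symbol.terminal a] p p' + Grd_F g D φ ru s p' q V)
        (fun p' => Rfi.add _ _ (Rfi.const _ (Dst_term g D φ a p p')) (ih p' q))
    | nonterminal Z =>
      exact Rfi.iUnion (fun p' V => (⋃ i : {i : Fin n // (ru i).input = Z}, V (p, i.1, p')) +
        Grd_F g D φ ru s p' q V)
        (fun p' => Rfi.add _ _
          (Rfi.iUnion (fun (i : {i : Fin n // (ru i).input = Z}) V => V (p, i.1, p'))
            (fun i => Rfi.var _)) (ih p' q))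

private lemma Grd_sl {M ι : Type} [AddCommMonoid M] {f : (ι → Set M) → Set M} (hf : Rfi M ι f)
    {S : ι → Set M} (hS : ∀ i, IsSemilinearSet (S i)) : IsSemilinearSet (f S) := by
  induction hf with
  | const S hS => exact hS
  | var i => exact hS i
  | union f g _ _ h1 h2 => exact h1.union h2
  | add f g _ _ h1 h2 => exact h1.add h2

private lemma Grd_le {X Y σ M : Type} [AddCommMonoid M]
    (g : ContextFreeGrammar X) (D : DFA (Option X × Option Y) σ) (φ : Option X × Option Y → M)
    {n : ℕ} (ru : Fin n → ContextFreeRule X g.NT) (hru : ∀ i, ru i ∈ g.rules)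
    (s : List (Symbol X g.NT)) :
    ∀ p q : σ, Grd_F g D φ ru s p q (fun i => Dst g D φ (ru i.2.1).output i.1 i.2.2) ⊆
      Dst g D φ s p q := by
  induction s with
  | nil =>
    intro p q
    exact subset_refl _
  | cons x s ih =>
    intro p q
    rw [Dst_cons]
    cases x with
    | terminal a =>
      exact Set.iUnion_mono fun p' => Set.add_subset_add_left (ih p' q)
    | nonterminal Z =>
      refine Set.iUnion_mono fun p' => Set.add_subset_add ?_ (ih p' q)
      intro v hv
      obtain ⟨i, hi⟩ := Set.mem_iUnion.1 hv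
      exact (Dst_nt g D φ Z p p' v).2 ⟨ru i.1, hru i.1, i.2, hi⟩

private lemma Grd_ge {X Y σ M : Type} [AddCommMonoid M]
    (g : ContextFreeGrammar X) (D : DFA (Option X × Option Y) σ) (φ : Option X × Option Y → M)
    {n : ℕ} (ru : Fin n → ContextFreeRule X g.NT) (hru : ∀ r ∈ g.rules, ∃ i, ru i = r)
    (S : (σ × Fin n × σ) → Set M) (hS : ∀ i, Grd_F g D φ ru (ru i.2.1).output i.1 i.2.2 S ⊆ S i)
    {s : List (Symbol X g.NT)} {w : List X} (h : Yd g s w) :
    ∀ (z : List (Option X × Option Y)) (p : σ), p1 z = w →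
      (z.map φ).sum ∈ Grd_F g D φ ru s p (D.evalFrom p z) S := by
  induction h with
  | nil =>
    intro z p hz
    refine ⟨z, rfl, ?_, rfl⟩
    rw [hz]
    exact Yd.nil
  | term a s u _ ih =>
    intro z p hz
    have hz' : z.filterMap Prod.fst = [a] ++ u := hz
    obtain ⟨z₁, z₂, rfl, h1, h2⟩ := List.filterMap_eq_append_iff.1 hz'
    rw [List.map_append, List.sum_append, DFA.evalFrom_of_append]
    refine Set.mem_iUnion.2 ⟨D.evalFrom p z₁, Set.add_mem_add ?_ (ih z₂ _ h2)⟩
    refine ⟨z₁, rfl, ?_, rfl⟩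
    have e : p1 z₁ = [a] := h1
    rw [e]
    exact Yd.term a [] [] Yd.nil
  | nt r hr s u v _ _ ih₁ ih₂ =>
    intro z p hz
    have hz' : z.filterMap Prod.fst = u ++ v := hz
    obtain ⟨z₁, z₂, rfl, h1, h2⟩ := List.filterMap_eq_append_iff.1 hz'
    rw [List.map_append, List.sum_append, DFA.evalFrom_of_append]
    refine Set.mem_iUnion.2 ⟨D.evalFrom p z₁, Set.add_mem_add ?_ (ih₂ z₂ _ h2)⟩
    obtain ⟨i, hi⟩ := hru r hr
    refine Set.mem_iUnion.2 ⟨⟨i, by rw [hi]⟩, ?_⟩
    apply hS (p, i, D.evalFrom p z₁)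
    have h3 := ih₁ z₁ p h1
    simp only [hi]
    exact h3

theorem Dst_semilinear {X Y σ M : Type} [AddCommMonoid M] [Finite X] [Finite Y] [Finite σ]
    (g : ContextFreeGrammar X) (D : DFA (Option X × Option Y) σ) (φ : Option X × Option Y → M)
    (s : List (Symbol X g.NT)) (p q : σ) : IsSemilinearSet (Dst g D φ s p q) := by
  classical
  let ru : Fin g.rules.card → ContextFreeRule X g.NT := fun i => (g.rules.equivFin.symm i).1
  have hru1 : ∀ i, ru i ∈ g.rules := fun i => (g.rules.equivFin.symm i).2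
  have hru2 : ∀ r ∈ g.rules, ∃ i, ru i = r := by
    intro r hr
    refine ⟨g.rules.equivFin ⟨r, hr⟩, ?_⟩
    simp only [ru, Equiv.symm_apply_apply]
  have : Fintype (σ × Fin g.rules.card × σ) := Fintype.ofFinite _
  obtain ⟨S, hS1, hS2, hS3⟩ := least_fintype
    (fun (i : σ × Fin g.rules.card × σ) V => Grd_F g D φ ru (ru i.2.1).output i.1 i.2.2 V)
    (fun i => Grd_rfi g D φ ru _ _ _)
  have hle : ∀ i, S i ⊆ Dst g D φ (ru i.2.1).output i.1 i.2.2 :=
    hS3 (fun i => Dst g D φ (ru i.2.1).output i.1 i.2.2)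
      (fun i => Grd_le g D φ ru hru1 _ _ _)
  have e : Dst g D φ s p q = Grd_F g D φ ru s p q S := by
    apply subset_antisymm
    · rintro v ⟨z, hz, hy, hv⟩
      rw [← hv, ← hz]
      exact Grd_ge g D φ ru hru2 S hS2 hy z p rfl
    · exact ((Grd_rfi g D φ ru s p q).mono hle).trans (Grd_le g D φ ru hru1 s p q)
  rw [e]
  exact Grd_sl (Grd_rfi g D φ ru s p q) hS1

end DCh
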