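import Pool.Agent.DCH.Grd
import Pool.Agent.DCH.Wda
/-!
# Gre (size 2): bounded languages in the cone of a context-free language are semilinear

Let `A = g.language`, `Lk S = im τ A`, `τ` rational with the regular label language `R`, and `D : DFA _ σ` accepting `R`
(`σ` a fintype). Let `φ e = match e.2 with | none => 0 | some j => Pi.single j 1`, so `(z.map φ).sum = cnt (p2 z)`
(induction over `z`). Then `S = ⋃ q ∈ D.accept, Dst g D φ [nonterminal g.initial] D.start q` (`mem_language_Yd`):
if `x ∈ S` then `wd x ∈ Lk S` (`wd_mem_Lk`), so there is a `z ∈ R` with `p1 z ∈ A`, `p2 z = wd x`, `cnt (p2 z) = x`; and if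
`z ∈ R`, `p1 z ∈ A` then `p2 z ∈ Lk S`, so `cnt (p2 z) ∈ S`. `IsSemilinearSet.biUnion` with `Set.toFinite`.
-/
namespace DCh
open Pointwise RCone

private def Gre_phi {n k : ℕ} (e : Option (Fin n) × Option (Fin k)) : Fin k → ℕ :=
  match e.2 with
  | none => 0
  | some j => Pi.single j 1

private theorem Gre_sum {n k : ℕ} (z : List (Option (Fin n) × Option (Fin k))) :
    (z.map Gre_phi).sum = cnt (p2 z) := by
  induction z with
  | nil =>
    funext i
    simp [cnt, p2]
  | cons e z ih =>
    rw [List.map_cons, List.sum_cons, ih]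
    obtain ⟨a, o⟩ := e
    cases o with
    | none =>
      have h1 : p2 ((a, none) :: z) = p2 z := by simp [p2]
      have h2 : Gre_phi ((a, none) : Option (Fin n) × Option (Fin k)) = 0 := rfl
      rw [h1, h2, zero_add]
    | some j =>
      have h1 : p2 ((a, some j) :: z) = j :: p2 z := by simp [p2]
      have h2 : Gre_phi ((a, some j) : Option (Fin n) × Option (Fin k)) = Pi.single j 1 := rfl
      rw [h1, h2]
      funext i
      simp only [cnt, Pi.add_apply, List.count_cons]
      by_cases hij : j = i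
      · subst hij
        simp [add_comm]
      · have hij' : i ≠ j := fun h => hij h.symm
        simp [hij, hij']

theorem semilinear_of_contextFree {n k : ℕ} {A : Language (Fin n)} (hA : A.IsContextFree)
    {S : Set (Fin k → ℕ)} (h : (⟨k, Lk S⟩ : Σ n : ℕ, Language (Fin n)) ∈ T A) :
    IsSemilinearSet S := by
  obtain ⟨g, rfl⟩ := hA
  obtain ⟨τ, ⟨R, hR, hτ⟩, him⟩ := h
  obtain ⟨σ, hσ, D, rfl⟩ := hR
  have him2 : Lk S = im τ g.language := him
  have e : S = ⋃ q ∈ D.accept, Dst g D Gre_phi [Symbol.nonterminal g.initial] D.start q := by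
    ext x
    simp only [Set.mem_iUnion]
    constructor
    · intro hx
      have h1 : wd x ∈ Lk S := (wd_mem_Lk S x).2 hx
      rw [him2] at h1
      obtain ⟨u, hu, huw⟩ := h1
      obtain ⟨z, hz, hz1, hz2⟩ := (hτ _ _).1 huw
      refine ⟨D.evalFrom D.start z, hz, z, rfl, ?_, ?_⟩
      · rw [hz1]
        exact mem_language_Yd.1 hu
      · rw [Gre_sum, hz2, cnt_wd]
    · rintro ⟨q, hq, z, hz, hY, rfl⟩
      rw [Gre_sum]
      have h2 : p2 z ∈ Lk S := by
        rw [him2]
        refine ⟨p1 z, mem_language_Yd.2 hY, (hτ _ _).2 ⟨z, ?_, rfl, rfl⟩⟩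
        show D.evalFrom D.start z ∈ D.accept
        rw [hz]
        exact hq
      exact h2.2
  rw [e]
  exact IsSemilinearSet.biUnion (Set.toFinite _) fun q _ => Dst_semilinear g D _ _ _ _

end DCh
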