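import Pool.Agent.DCH.Spb
import Pool.Agent.DCH.Bse
import Pool.Agent.DCH.Ctf
import Pool.Agent.DCH.Exa
/-!
# Key (size 2): a small nonregular bounded language

`hb` gives `K ∈ T A`, `K.2 ⊆ w_0^* ⋯ w_{k-1}^*`, not regular. Let `S = {x | bw w x ∈ K.2}`. `Lk S ∈ T A` by
`exponent_mem_T`, so `Sᶜ ∈ coT A k`; and `Sᶜ` is not recognizable, since otherwise `S` is recognizable, `Lk S` is
regular (`regular_Lk`) and `K.2` is regular (`regular_of_exponent`). `exists_good` gives `k'`, `V ∈ coT A k'`, not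
recognizable, with a good coordinate `i`. Take `m = 2 * d` and `C = ⟨k' + m, Lk (split V i m)ᶜ⟩`:
it is in `T A` (`coT_split`), bounded (`BoundedBy_Lk`), and not regular (`rcg_of_regular`, `Rcg.compl`,
`rcg_of_split`). Let `K ∈ T C.2`, `e ≤ d`, `K.2` bounded by `w : Fin e → _`. Then
`{x | bw w x ∈ K.2}ᶜ ∈ coT C.2 e` (`exponent_mem_T`, `compl_compl`), so it is recognizable by `splitting`
(`2 * e ≤ m + 1`), and `K.2` is regular (`Rcg.compl`, `regular_Lk`, `regular_of_exponent`).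
-/
namespace DCh
open RCone

theorem key {X : Type} (A : Language X) (hA : ∃ u, u ∈ A)
    (hper : ∀ k, ∀ V ∈ coT A k, LinePer V)
    (hb : ∃ K ∈ T A, ∃ k, BoundedBy k K.2 ∧ ¬ K.2.IsRegular) (d : ℕ) :
    ∃ C : Σ n : ℕ, Language (Fin n), C ∈ T A ∧ (∃ k, BoundedBy k C.2) ∧ ¬ C.2.IsRegular ∧
      ∀ K ∈ T C.2, ∀ e ≤ d, BoundedBy e K.2 → K.2.IsRegular := by
  obtain ⟨K, hK, k, ⟨w, hw⟩, hKn⟩ := hb
  obtain ⟨n, K⟩ := K
  simp only at w hw hKn
  have hS : (⟨k, Lk {x | bw w x ∈ K}⟩ : Σ n : ℕ, Language (Fin n)) ∈ T A := exponent_mem_T w hK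
  have hSc : {x : Fin k → ℕ | bw w x ∈ K}ᶜ ∈ coT A k := by
    change (⟨k, Lk {x : Fin k → ℕ | bw w x ∈ K}ᶜᶜ⟩ : Σ n : ℕ, Language (Fin n)) ∈ T A
    rw [compl_compl]
    exact hS
  have hSn : ¬ Rcg ({x : Fin k → ℕ | bw w x ∈ K}ᶜ) := by
    intro h
    have h' := h.compl
    rw [compl_compl] at h'
    exact hKn (regular_of_exponent hw (regular_Lk h'))
  obtain ⟨k', V, i, hV, hVn, hg⟩ := exists_good hA hper hSc hSn
  refine ⟨⟨k' + 2 * d, Lk (split V i (2 * d))ᶜ⟩, coT_split hA hV i (2 * d), ⟨_, BoundedBy_Lk _⟩, ?_, ?_⟩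
  · intro h
    have h1 := (rcg_of_regular h).compl
    rw [compl_compl] at h1
    exact hVn (rcg_of_split h1)
  · rintro ⟨N, J⟩ hJ e he ⟨v, hv⟩
    have hJ' : (⟨e, Lk {x | bw v x ∈ J}⟩ : Σ n : ℕ, Language (Fin n)) ∈
        T (Lk (split V i (2 * d))ᶜ) := exponent_mem_T v hJ
    have hW : {x : Fin e → ℕ | bw v x ∈ J}ᶜ ∈ coT (Lk (split V i (2 * d))ᶜ) e := by
      change (⟨e, Lk {x : Fin e → ℕ | bw v x ∈ J}ᶜᶜ⟩ : Σ n : ℕ, Language (Fin n)) ∈ T _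
      rw [compl_compl]
      exact hJ'
    have hR := (splitting hg (by omega) hW).compl
    rw [compl_compl] at hR
    exact regular_of_exponent hv (regular_Lk hR)

end DCh
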