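import Pool.Agent.DCH.Defs
/-!
# Pma (size 3): loops in long runs

`prefix_len`: `n ↦ ((z.take n).filterMap f).length` starts with `0`, grows by at most one and ends with the full
length; or induction over `z` (cons).
`loop_mod`: for `j ≤ card σ * h` choose `n j` with `(p1 (z.take (n j))).length = j`. The map
`j ↦ (M.evalFrom q (z.take (n j)), (p2 (z.take (n j))).length % h)` from `Fin (card σ * h + 1)` to `σ × Fin h` is not
injective (`Fintype.exists_ne_map_eq_of_card_lt`), so it has the same value at `j < j'`. Then `n j < n j'`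
(the length of `p1 (z.take n)` is monotone in `n`), and `z₁ = z.take (n j)`, `z₂ = (z.take (n j')).drop (n j)`,
`z₃ = z.drop (n j')` do it: `z₁ ++ z₂ = z.take (n j')`, the length of `p1 z₂` is `j' - j > 0`, and `h` divides the
difference of the lengths of `p2` (`Nat.sub_mod_eq_zero_of_mod_eq` or `Nat.ModEq`).
`loop_out`: the same with the prefixes with exactly `j` outputs, `j ≤ card σ` (so there is no `h`); the loop has at
most `card σ` outputs.
-/
namespace DCh
open RCone

variable {X Y σ : Type} [Fintype σ]

private theorem pma_mono {α β : Type} (f : α → Option β) (z : List α) {n n' : ℕ}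
    (h : n ≤ n') : ((z.take n).filterMap f).length ≤ ((z.take n').filterMap f).length := by
  have e : z.take n' = z.take n ++ (z.take n').drop n := by
    have h1 := List.take_append_drop n (z.take n')
    rw [List.take_take, min_eq_left h] at h1
    exact h1.symm
  rw [e, List.filterMap_append, List.length_append]
  omega

/-- the loop between two prefixes -/
private theorem pma_split {α : Type} (z : List α) {n n' : ℕ} (h : n ≤ n') :
    z = z.take n ++ (z.take n').drop n ++ z.drop n' ∧
      z.take n ++ (z.take n').drop n = z.take n' := by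
  have h1 := List.take_append_drop n (z.take n')
  rw [List.take_take, min_eq_left h] at h1
  refine ⟨?_, h1⟩
  rw [h1, List.take_append_drop]

theorem prefix_len {α β : Type} (f : α → Option β) (z : List α) (j : ℕ)
    (hj : j ≤ (z.filterMap f).length) : ∃ n, ((z.take n).filterMap f).length = j := by
  induction z generalizing j with
  | nil =>
    refine ⟨0, ?_⟩
    simp only [List.filterMap_nil, List.length_nil] at hj
    simp
    omega
  | cons a z ih =>
    rcases Nat.eq_zero_or_pos j with rfl | hpos
    · exact ⟨0, by simp⟩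
    · cases hfa : f a with
      | none =>
        rw [List.filterMap_cons_none hfa] at hj
        obtain ⟨n, hn⟩ := ih j hj
        refine ⟨n + 1, ?_⟩
        rw [List.take_succ_cons, List.filterMap_cons_none hfa]
        exact hn
      | some b =>
        rw [List.filterMap_cons_some hfa, List.length_cons] at hj
        obtain ⟨n, hn⟩ := ih (j - 1) (by omega)
        refine ⟨n + 1, ?_⟩
        rw [List.take_succ_cons, List.filterMap_cons_some hfa, List.length_cons, hn]
        omega

theorem loop_mod (M : DFA (Option X × Option Y) σ) (h : ℕ) (hh : 0 < h) (q : σ)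
    (z : List (Option X × Option Y)) (hz : Fintype.card σ * h ≤ (p1 z).length) :
    ∃ z₁ z₂ z₃, z = z₁ ++ z₂ ++ z₃ ∧ p1 z₂ ≠ [] ∧ M.evalFrom q z₁ = M.evalFrom q (z₁ ++ z₂) ∧
      h ∣ (p2 z₂).length := by
  classical
  have hN : ∀ j : Fin (Fintype.card σ * h + 1), ∃ n, (p1 (z.take n)).length = (j : ℕ) := fun j =>
    prefix_len Prod.fst z j (le_trans (by have := j.2; omega) hz)
  choose N hN using hN
  have : NeZero h := ⟨hh.ne'⟩
  let F : Fin (Fintype.card σ * h + 1) → σ × Fin h := fun j =>
    (M.evalFrom q (z.take (N j)), ⟨(p2 (z.take (N j))).length % h, Nat.mod_lt _ hh⟩)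
  have hcard : Fintype.card (σ × Fin h) < Fintype.card (Fin (Fintype.card σ * h + 1)) := by
    rw [Fintype.card_prod, Fintype.card_fin, Fintype.card_fin]
    omega
  obtain ⟨j0, j1, hne, hF⟩ := Fintype.exists_ne_map_eq_of_card_lt F hcard
  obtain ⟨j, j', hlt, hF⟩ : ∃ j j' : Fin (Fintype.card σ * h + 1), j < j' ∧ F j = F j' := by
    rcases lt_or_gt_of_ne hne with h1 | h1
    · exact ⟨j0, j1, h1, hF⟩
    · exact ⟨j1, j0, h1, hF.symm⟩
  have hlt' : (j : ℕ) < (j' : ℕ) := hlt
  have hNN : N j ≤ N j' := by
    by_contra hcon
    push Not at hcon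
    have h1 := pma_mono Prod.fst z hcon.le
    have h2 : (p1 (z.take (N j'))).length ≤ (p1 (z.take (N j))).length := h1
    rw [hN, hN] at h2
    omega
  obtain ⟨e1, e2⟩ := pma_split z hNN
  refine ⟨z.take (N j), (z.take (N j')).drop (N j), z.drop (N j'), e1, ?_, ?_, ?_⟩
  · intro hnil
    have h3 : p1 (z.take (N j')) = p1 (z.take (N j)) ++ p1 ((z.take (N j')).drop (N j)) := by
      rw [← e2]
      simp only [p1, List.filterMap_append]
      rw [e2]
    have h4 := congrArg List.length h3
    rw [List.length_append, hN, hN, hnil, List.length_nil] at h4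
    omega
  · rw [e2]
    exact congrArg Prod.fst hF
  · have h5 : (p2 (z.take (N j'))).length =
        (p2 (z.take (N j))).length + (p2 ((z.take (N j')).drop (N j))).length := by
      rw [← List.length_append]
      congr 1
      conv_lhs => rw [← e2]
      simp only [p2, List.filterMap_append]
    have h6 : (p2 (z.take (N j))).length % h = (p2 (z.take (N j'))).length % h :=
      congrArg (fun x : σ × Fin h => (x.2 : ℕ)) hF
    rw [h5] at h6
    have h7 : (p2 (z.take (N j))).length + 0 ≡
        (p2 (z.take (N j))).length + (p2 ((z.take (N j')).drop (N j))).length [MOD h] := by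
      rw [Nat.add_zero]
      exact h6
    have h8 := Nat.ModEq.add_left_cancel' _ h7
    exact (Nat.modEq_zero_iff_dvd).1 h8.symm

theorem loop_out (M : DFA (Option X × Option Y) σ) (q : σ)
    (z : List (Option X × Option Y)) (hz : Fintype.card σ ≤ (p2 z).length) :
    ∃ z₁ z₂ z₃, z = z₁ ++ z₂ ++ z₃ ∧ p2 z₂ ≠ [] ∧ (p2 z₂).length ≤ Fintype.card σ ∧
      M.evalFrom q z₁ = M.evalFrom q (z₁ ++ z₂) := by
  classical
  have hN : ∀ j : Fin (Fintype.card σ + 1), ∃ n, (p2 (z.take n)).length = (j : ℕ) := fun j =>
    prefix_len Prod.snd z j (le_trans (by have := j.2; omega) hz)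
  choose N hN using hN
  let F : Fin (Fintype.card σ + 1) → σ := fun j => M.evalFrom q (z.take (N j))
  have hcard : Fintype.card σ < Fintype.card (Fin (Fintype.card σ + 1)) := by
    rw [Fintype.card_fin]
    omega
  obtain ⟨j0, j1, hne, hF⟩ := Fintype.exists_ne_map_eq_of_card_lt F hcard
  obtain ⟨j, j', hlt, hF⟩ : ∃ j j' : Fin (Fintype.card σ + 1), j < j' ∧ F j = F j' := by
    rcases lt_or_gt_of_ne hne with h1 | h1
    · exact ⟨j0, j1, h1, hF⟩
    · exact ⟨j1, j0, h1, hF.symm⟩
  have hlt' : (j : ℕ) < (j' : ℕ) := hlt
  have hNN : N j ≤ N j' := by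
    by_contra hcon
    push Not at hcon
    have h1 := pma_mono Prod.snd z hcon.le
    have h2 : (p2 (z.take (N j'))).length ≤ (p2 (z.take (N j))).length := h1
    rw [hN, hN] at h2
    omega
  obtain ⟨e1, e2⟩ := pma_split z hNN
  have h5 : (p2 (z.take (N j'))).length =
      (p2 (z.take (N j))).length + (p2 ((z.take (N j')).drop (N j))).length := by
    rw [← List.length_append]
    congr 1
    conv_lhs => rw [← e2]
    simp only [p2, List.filterMap_append]
  rw [hN, hN] at h5
  refine ⟨z.take (N j), (z.take (N j')).drop (N j), z.drop (N j'), e1, ?_, ?_, ?_⟩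
  · intro hnil
    rw [hnil, List.length_nil] at h5
    omega
  · have := j'.2
    omega
  · rw [e2]
    exact hF

end DCh
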