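import Pool.Agent.DCH.Pma
/-!
# Pmb (size 2): removing input loops whose output is divisible by `h`

Strong induction over `(p1 z).length`. If it is less than `card σ * h` take `z' = z`. Otherwise `loop_mod` gives
`z = z₁ ++ z₂ ++ z₃`; apply the induction hypothesis to `z₁ ++ z₃` (`DFA.evalFrom_of_append`: the state after
`z₁ ++ z₂` is the state after `z₁`, so `z₁ ++ z₃` ends in the same state as `z`; `p1` gets shorter, the length
of `p2` decreases by a multiple of `h`; `p1`, `p2` of an append: `List.filterMap_append`).
Note `0 < card σ * h` because of `q`.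
-/
namespace DCh
open RCone

variable {X Y σ : Type} [Fintype σ]

theorem reduce_mod (M : DFA (Option X × Option Y) σ) (h : ℕ) (hh : 0 < h) (q : σ)
    (z : List (Option X × Option Y)) :
    ∃ z', M.evalFrom q z' = M.evalFrom q z ∧ (∀ a ∈ z', a ∈ z) ∧
      (p1 z').length < Fintype.card σ * h ∧ (p2 z').length ≤ (p2 z).length ∧
      h ∣ (p2 z).length - (p2 z').length := by
  have key : ∀ n (z : List (Option X × Option Y)), (p1 z).length = n →
      ∃ z', M.evalFrom q z' = M.evalFrom q z ∧ (∀ a ∈ z', a ∈ z) ∧
      (p1 z').length < Fintype.card σ * h ∧ (p2 z').length ≤ (p2 z).length ∧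
      h ∣ (p2 z).length - (p2 z').length := by
    intro n
    induction n using Nat.strong_induction_on with
    | _ n ih =>
      intro z hz
      by_cases hc : (p1 z).length < Fintype.card σ * h
      · exact ⟨z, rfl, fun a ha => ha, hc, le_rfl, by simp⟩
      · push Not at hc
        obtain ⟨z₁, z₂, z₃, hzz, hne, hst, hd⟩ := loop_mod M h hh q z hc
        have hp1 : (p1 z).length = (p1 (z₁ ++ z₃)).length + (p1 z₂).length := by
          rw [hzz]
          simp only [p1, List.filterMap_append, List.length_append]
          omega
        have hp2 : (p2 z).length = (p2 (z₁ ++ z₃)).length + (p2 z₂).length := by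
          rw [hzz]
          simp only [p2, List.filterMap_append, List.length_append]
          omega
        have hpos : 0 < (p1 z₂).length := List.length_pos_iff.mpr hne
        obtain ⟨z', h1, h2, h3, h4, h5⟩ := ih (p1 (z₁ ++ z₃)).length (by omega) (z₁ ++ z₃) rfl
        refine ⟨z', ?_, ?_, h3, by omega, ?_⟩
        · rw [h1, hzz, DFA.evalFrom_of_append, DFA.evalFrom_of_append M q (z₁ ++ z₂), hst]
        · intro a ha
          have := h2 a ha
          rw [hzz]
          simp only [List.mem_append] at this ⊢
          tauto
        · have : (p2 z).length - (p2 z').length =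
              ((p2 (z₁ ++ z₃)).length - (p2 z').length) + (p2 z₂).length := by omega
          rw [this]
          exact dvd_add h5 hd
  exact key _ z rfl

end DCh
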