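import Pool.Agent.DCH.Pmb
/-!
# Pmc (size 3): the trade lemma

Let `N = card σ > 0` and `q' = M.evalFrom q β`.
Case 1: `N ≤ (p2 γ).length`. `loop_out` for `q'` and `γ` gives `γ = γ₁' ++ η ++ γ₂'` with `0 < h ≤ N` for
`h = (p2 η).length`, and `η` is a loop at `M.evalFrom q' γ₁'`. `reduce_mod` for `q`, `β` and `h` gives `β₁` with less
than `N * h ≤ N ^ 2` inputs, and `(p2 β).length - (p2 β₁).length = h * c`. Take
`γ₁ = γ₁' ++ (List.replicate (c + 1) η).flatten ++ γ₂'` (`RCone.rep η (c + 1)`; `RCone.p2_rep`, `RCone.rep_succ` in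
`Pool.Agent.RC.Words`): it has `(p2 γ).length + c * h` outputs and ends in the same state (induction over `c`),
and its letters are letters of `γ` (`RCone.mem_of_mem_rep`).
Case 2: `(p2 γ).length < N`. `reduce_mod` for `q'`, `γ` and `h = N` gives `γ₁` with less than `N * N` inputs;
`N` divides `(p2 γ).length - (p2 γ₁).length < N`, so the outputs are equal in number. Take `β₁ = β`.
-/
namespace DCh
open RCone

variable {X Y σ : Type} [Fintype σ]

private theorem Pmc_len {α : Type} (u : List α) (n : ℕ) : (rep u n).length = n * u.length := by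
  simp [rep]

private theorem Pmc_loop (M : DFA (Option X × Option Y) σ) (q : σ)
    (η : List (Option X × Option Y)) (h : M.evalFrom q η = q) (n : ℕ) :
    M.evalFrom q (rep η n) = q := by
  induction n with
  | zero => simp
  | succ n ih => rw [rep_succ, DFA.evalFrom_of_append, h, ih]

theorem trade (M : DFA (Option X × Option Y) σ) (q : σ) (β γ : List (Option X × Option Y)) :
    ∃ β₁ γ₁ : List (Option X × Option Y),
      M.evalFrom q β₁ = M.evalFrom q β ∧
      M.evalFrom (M.evalFrom q β) γ₁ = M.evalFrom (M.evalFrom q β) γ ∧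
      (∀ a ∈ β₁, a ∈ β) ∧ (∀ a ∈ γ₁, a ∈ γ) ∧
      (p2 β₁).length + (p2 γ₁).length = (p2 β).length + (p2 γ).length ∧
      ((p1 β₁).length ≤ Fintype.card σ ^ 2 ∨ (p1 γ₁).length ≤ Fintype.card σ ^ 2) := by
  by_cases hN : Fintype.card σ ≤ (p2 γ).length
  · obtain ⟨g1, η, g3, hγ, hη0, hηN, hloop⟩ := loop_out M (M.evalFrom q β) γ hN
    have hpos : 0 < (p2 η).length := List.length_pos_iff.2 hη0
    obtain ⟨β₁, hb1, hb2, hb3, hb4, hb5⟩ := reduce_mod M (p2 η).length hpos q β
    obtain ⟨c, hc⟩ := hb5
    have hl : M.evalFrom (M.evalFrom (M.evalFrom q β) g1) η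
        = M.evalFrom (M.evalFrom q β) g1 := by
      rw [DFA.evalFrom_of_append] at hloop
      exact hloop.symm
    refine ⟨β₁, g1 ++ rep η (c + 1) ++ g3, hb1, ?_, hb2, ?_, ?_, Or.inl ?_⟩
    · rw [hγ]
      simp only [DFA.evalFrom_of_append]
      rw [Pmc_loop M _ η hl, hl]
    · intro a ha
      rw [hγ]
      simp only [List.mem_append] at ha ⊢
      rcases ha with (h1 | h1) | h1
      · exact Or.inl (Or.inl h1)
      · exact Or.inl (Or.inr (mem_of_mem_rep h1))
      · exact Or.inr h1
    · have e1 : (p2 (g1 ++ rep η (c + 1) ++ g3)).length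
          = (p2 g1).length + (c + 1) * (p2 η).length + (p2 g3).length := by
        rw [p2_append, p2_append, p2_rep, List.length_append, List.length_append, Pmc_len]
      have e2 : (p2 γ).length = (p2 g1).length + (p2 η).length + (p2 g3).length := by
        rw [hγ, p2_append, p2_append, List.length_append, List.length_append]
      rw [e1, e2]
      have e3 : (c + 1) * (p2 η).length = (p2 η).length * c + (p2 η).length := by ring
      rw [e3]
      omega
    · refine hb3.le.trans ?_
      rw [pow_two]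
      exact Nat.mul_le_mul_left _ hηN
  · have hN2 : (p2 γ).length < Fintype.card σ := not_le.1 hN
    have hpos : 0 < Fintype.card σ := by omega
    obtain ⟨γ₁, hb1, hb2, hb3, hb4, hb5⟩ := reduce_mod M (Fintype.card σ) hpos (M.evalFrom q β) γ
    refine ⟨β, γ₁, rfl, hb1, fun a ha => ha, hb2, ?_, Or.inr ?_⟩
    · obtain ⟨c, hc⟩ := hb5
      rcases Nat.eq_zero_or_pos c with h0 | h0
      · rw [h0] at hc
        omega
      · have : Fintype.card σ * 1 ≤ Fintype.card σ * c := Nat.mul_le_mul_left _ h0
        omega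
    · rw [pow_two]
      exact hb3.le

end DCh
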