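import Pool.Agent.DCH.Rfn
/-!
# Rfa (size 2): basic properties of the operators `Rf`

All by induction over the predicate `Rf`. `Rf.mono`: `Set.union_subset_union`, `Set.add_subset_add`,
`AddSubmonoid.closure_mono`. `Rf.semilinear`: `IsSemilinearSet.union`, `.add`, `.closure` (Mathlib).
`Rf.comp`: substitution.
-/
namespace DCh
open Pointwise

variable {M : Type} [AddCommMonoid M] {n m : ℕ}

theorem Rf.mono {f : (Fin n → Set M) → Set M} (hf : Rf M n f) {X Y : Fin n → Set M}
    (h : ∀ i, X i ⊆ Y i) : f X ⊆ f Y := by
  induction hf with
  | const S hS => exact subset_rfl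
  | var i => exact h i
  | union f g hf hg ihf ihg => exact Set.union_subset_union ihf ihg
  | add f g hf hg ihf ihg => exact Set.add_subset_add ihf ihg
  | star f hf ih => exact AddSubmonoid.closure_mono ih

theorem Rf.semilinear {f : (Fin n → Set M) → Set M} (hf : Rf M n f) {X : Fin n → Set M}
    (h : ∀ i, IsSemilinearSet (X i)) : IsSemilinearSet (f X) := by
  induction hf with
  | const S hS => exact hS
  | var i => exact h i
  | union f g hf hg ihf ihg => exact ihf.union ihg
  | add f g hf hg ihf ihg => exact ihf.add ihg
  | star f hf ih => exact ih.closure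

theorem Rf.comp {f : (Fin n → Set M) → Set M} (hf : Rf M n f)
    {h : Fin n → (Fin m → Set M) → Set M} (hh : ∀ i, Rf M m (h i)) :
    Rf M m (fun Y => f (fun i => h i Y)) := by
  induction hf with
  | const S hS => exact Rf.const S hS
  | var i => exact hh i
  | union f g hf hg ihf ihg => exact Rf.union _ _ ihf ihg
  | add f g hf hg ihf ihg => exact Rf.add _ _ ihf ihg
  | star f hf ih => exact Rf.star _ ih

end DCh
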