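import Pool.Agent.DCH.Rfa
/-!
# Rfb (size 3): expansion with respect to the last variable

Write `f = a ∪ (g + x)` where `x` is the last variable and `a` does not contain `x`. Induction over `Rf`:
constant: `a = f`, `g = ∅`; the last variable: `a = ∅`, `g = {0}`; another variable: `a` = this variable (of
`Fin n`), `g = ∅`; union: unions of the `a`s and of the `g`s; sum:
`(a₁ ∪ (g₁ + x)) + (a₂ ∪ (g₂ + x)) = (a₁ + a₂) ∪ ((g₁ + a₂) ∪ (a₁ + g₂) ∪ (g₁ + g₂ + x)) + x`, so
`g = ((g₁ + a₂) ∪ (a₁ + g₂)) ∪ (g₁ + g₂ + x)` (it may contain `x`; `a₁` as an operator of `n + 1` variables is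
`fun X => a₁ (fun i => X i.castSucc)`, `Rf.comp` with variables); star: write `⟨s⟩` for the submonoid generated by `s`;
`⟨a ∪ (g + x)⟩ = ⟨a⟩ + ⟨g + x⟩ = ⟨a⟩ ∪ (⟨a⟩ + ⟨g + x⟩ + g + x)`, as `⟨s⟩ = {0} ∪ (⟨s⟩ + s)`
(`AddSubmonoid.closure_union`, `AddSubmonoid.coe_sup`), so the new `g` is `⟨a⟩ + ⟨g + x⟩ + g`.
Note `X = Fin.snoc Y x` with `Y = fun i => X i.castSucc`, `x = X (Fin.last n)`.
-/
namespace DCh
open Pointwise

variable {M : Type} [AddCommMonoid M] {n : ℕ}

theorem closure_step (s : Set M) :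
    (AddSubmonoid.closure s : Set M) = {0} ∪ ((AddSubmonoid.closure s : Set M) + s) := by
  apply Set.Subset.antisymm
  · intro x hx
    refine AddSubmonoid.closure_induction
      (motive := fun x _ => x ∈ ({0} ∪ ((AddSubmonoid.closure s : Set M) + s) : Set M)) ?_ ?_ ?_ hx
    · intro x hx
      exact Or.inr ⟨0, zero_mem _, x, hx, zero_add x⟩
    · exact Or.inl rfl
    · rintro x y hx hy hx' hy'
      rcases hy' with hy' | ⟨c, hc, p, hp, rfl⟩
      · have : y = 0 := hy'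
        subst this
        simpa using hx'
      · exact Or.inr ⟨x + c, add_mem hx hc, p, hp, add_assoc x c p⟩
  · rintro x (hx | ⟨c, hc, p, hp, rfl⟩)
    · have : x = 0 := hx
      subst this
      exact zero_mem _
    · exact add_mem hc (AddSubmonoid.subset_closure hp)

theorem Rf.expand {f : (Fin (n + 1) → Set M) → Set M} (hf : Rf M (n + 1) f) :
    ∃ (a : (Fin n → Set M) → Set M) (g : (Fin (n + 1) → Set M) → Set M),
      Rf M n a ∧ Rf M (n + 1) g ∧
      ∀ X : Fin (n + 1) → Set M, f X = a (fun i => X i.castSucc) ∪ (g X + X (Fin.last n)) := by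
  have lift : ∀ a : (Fin n → Set M) → Set M, Rf M n a →
      Rf M (n + 1) (fun X => a (fun i => X i.castSucc)) := fun a ha =>
    Rf.comp ha (h := fun i X => X i.castSucc) (fun i => Rf.var i.castSucc)
  induction hf with
  | const S hS =>
    exact ⟨fun _ => S, fun _ => ∅, Rf.const S hS, Rf.const ∅ IsSemilinearSet.empty,
      fun X => by simp⟩
  | var i =>
    induction i using Fin.lastCases with
    | last =>
      exact ⟨fun _ => ∅, fun _ => {0}, Rf.const ∅ IsSemilinearSet.empty,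
        Rf.const {0} (IsSemilinearSet.singleton 0), fun X => by simp⟩
    | cast i =>
      exact ⟨fun X => X i, fun _ => ∅, Rf.var i, Rf.const ∅ IsSemilinearSet.empty,
        fun X => by simp⟩
  | union f₁ f₂ hf₁ hf₂ ih₁ ih₂ =>
    obtain ⟨a₁, g₁, ha₁, hg₁, h₁⟩ := ih₁
    obtain ⟨a₂, g₂, ha₂, hg₂, h₂⟩ := ih₂
    refine ⟨fun X => a₁ X ∪ a₂ X, fun X => g₁ X ∪ g₂ X, Rf.union _ _ ha₁ ha₂,
      Rf.union _ _ hg₁ hg₂, fun X => ?_⟩
    simp only [h₁ X, h₂ X, Set.union_add]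
    ac_rfl
  | add f₁ f₂ hf₁ hf₂ ih₁ ih₂ =>
    obtain ⟨a₁, g₁, ha₁, hg₁, h₁⟩ := ih₁
    obtain ⟨a₂, g₂, ha₂, hg₂, h₂⟩ := ih₂
    refine ⟨fun X => a₁ X + a₂ X,
      fun X => ((g₁ X + a₂ (fun i => X i.castSucc)) ∪ (a₁ (fun i => X i.castSucc) + g₂ X)) ∪
        (g₁ X + g₂ X + X (Fin.last n)), Rf.add _ _ ha₁ ha₂, ?_, fun X => ?_⟩
    · exact Rf.union _ _ (Rf.union _ _ (Rf.add _ _ hg₁ (lift _ ha₂)) (Rf.add _ _ (lift _ ha₁) hg₂))
        (Rf.add _ _ (Rf.add _ _ hg₁ hg₂) (Rf.var (Fin.last n)))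
    · simp only [h₁ X, h₂ X, Set.union_add, Set.add_union]
      have e1 : g₁ X + X (Fin.last n) + a₂ (fun i => X i.castSucc) =
        g₁ X + a₂ (fun i => X i.castSucc) + X (Fin.last n) := by abel
      have e2 : a₁ (fun i => X i.castSucc) + (g₂ X + X (Fin.last n)) =
        a₁ (fun i => X i.castSucc) + g₂ X + X (Fin.last n) := by abel
      have e3 : g₁ X + X (Fin.last n) + (g₂ X + X (Fin.last n)) =
        g₁ X + g₂ X + X (Fin.last n) + X (Fin.last n) := by abel
      rw [e1, e2, e3]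
      ac_rfl
  | star f₁ hf₁ ih₁ =>
    obtain ⟨a, g, ha, hg, h⟩ := ih₁
    refine ⟨fun X => (AddSubmonoid.closure (a X) : Set M),
      fun X => (AddSubmonoid.closure (a (fun i => X i.castSucc)) : Set M) +
        (AddSubmonoid.closure (g X + X (Fin.last n)) : Set M) + g X, Rf.star _ ha, ?_, fun X => ?_⟩
    · exact Rf.add _ _ (Rf.add _ _ (Rf.star _ (lift _ ha))
        (Rf.star _ (Rf.add _ _ hg (Rf.var (Fin.last n))))) hg
    · simp only [h X]
      rw [AddSubmonoid.closure_union, AddSubmonoid.coe_sup]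
      conv_lhs => rw [closure_step (g X + X (Fin.last n))]
      rw [Set.add_union, Set.singleton_zero, add_zero]
      congr 1
      abel

end DCh
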