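import Pool.Agent.DCH.Rfa
/-!
# Rfc (size 2): scaling

Let `C` be a submonoid of `M` and let `X' ` agree with `X` except that `X' (last) = C + X (last)` (we only need the
inclusion `⊆`). Claim: `f X' + C ⊆ f X + C`. Induction over `Rf`: constant and other variables: `X' i = X i`;
the last variable: `(C + x) + C ⊆ x + C` as `C + C ⊆ C`; union: `Set.union_add`; sum: let `p ∈ f X'`, `q ∈ g X'`, `c ∈ C`;
`p + 0 ∈ f X + C` and `q + c ∈ g X + C`, and `C + C ⊆ C`; star: for `y ∈ closure (f X')` show `y + c ∈ closure (f X) + C` for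
all `c ∈ C`, by `AddSubmonoid.closure_induction` (a generator `p ∈ f X'`: `p + c ∈ f X + C`; `0`; a sum `y + y'`:
`y' + c = z' + c'`, then `y + c' = z + c''`, and `(z + z') + c''`).
-/
namespace DCh
open Pointwise

variable {M : Type} [AddCommMonoid M] {n : ℕ}

theorem Rf.scale {f : (Fin (n + 1) → Set M) → Set M} (hf : Rf M (n + 1) f) (C : AddSubmonoid M)
    {X X' : Fin (n + 1) → Set M} (h : ∀ i : Fin n, X' i.castSucc ⊆ X i.castSucc)
    (hl : X' (Fin.last n) ⊆ (C : Set M) + X (Fin.last n)) :
    f X' + (C : Set M) ⊆ f X + (C : Set M) := by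
  induction hf with
  | const S hS => exact Set.Subset.rfl
  | var i =>
    induction i using Fin.lastCases with
    | last =>
      rintro _ ⟨x, hx, c, hc, rfl⟩
      obtain ⟨d, hd, y, hy, rfl⟩ := hl hx
      refine ⟨y, hy, d + c, add_mem hd hc, ?_⟩
      show y + (d + c) = d + y + c
      abel
    | cast i => exact Set.add_subset_add_right (h i)
  | union f g hf hg ihf ihg =>
    show (f X' ∪ g X') + (C : Set M) ⊆ (f X ∪ g X) + (C : Set M)
    rw [Set.union_add, Set.union_add]
    exact Set.union_subset_union ihf ihg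
  | add f g hf hg ihf ihg =>
    rintro _ ⟨_, ⟨p, hp, q, hq, rfl⟩, c, hc, rfl⟩
    obtain ⟨p', hp', c', hc', e1⟩ := ihf ⟨p, hp, 0, zero_mem _, rfl⟩
    obtain ⟨q', hq', d', hd', e2⟩ := ihg ⟨q, hq, c, hc, rfl⟩
    refine ⟨p' + q', ⟨p', hp', q', hq', rfl⟩, c' + d', add_mem hc' hd', ?_⟩
    have e1' : p' + c' = p + 0 := e1
    have e2' : q' + d' = q + c := e2
    show p' + q' + (c' + d') = p + q + c
    calc p' + q' + (c' + d') = (p' + c') + (q' + d') := by abel
      _ = p + q + c := by rw [e1', e2']; abel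
  | star f hf ih =>
    have key : ∀ y ∈ AddSubmonoid.closure (f X'), ∀ c ∈ C,
        y + c ∈ (AddSubmonoid.closure (f X) : Set M) + (C : Set M) := by
      intro y hy
      refine AddSubmonoid.closure_induction (motive := fun y _ => ∀ c ∈ C,
        y + c ∈ (AddSubmonoid.closure (f X) : Set M) + (C : Set M)) ?_ ?_ ?_ hy
      · intro p hp c hc
        obtain ⟨p', hp', c', hc', e1⟩ := ih ⟨p, hp, c, hc, rfl⟩
        exact ⟨p', AddSubmonoid.subset_closure hp', c', hc', e1⟩
      · intro c hc
        exact ⟨0, zero_mem _, c, hc, rfl⟩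
      · intro y y' _ _ h1 h2 c hc
        obtain ⟨z, hz, c', hc', e1⟩ := h2 c hc
        obtain ⟨w, hw, c'', hc'', e2⟩ := h1 c' hc'
        have e1' : z + c' = y' + c := e1
        have e2' : w + c'' = y + c' := e2
        refine ⟨z + w, add_mem hz hw, c'', hc'', ?_⟩
        show z + w + c'' = y + y' + c
        calc z + w + c'' = z + (w + c'') := by abel
          _ = y + (z + c') := by rw [e2']; abel
          _ = y + y' + c := by rw [e1']; abel
    rintro _ ⟨y, hy, c, hc, rfl⟩
    exact key y hy c hc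

end DCh
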