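import Pool.Agent.DCH.Rfb
import Pool.Agent.DCH.Rfc
/-!
# Rfd (size 2): solving for the last variable

Take `a`, `g` from `Rf.expand` and `h Y = closure (g (Fin.snoc Y (a Y))) + a Y` (`Rf.comp`, `Rf.star`, `Rf.add`; the
substitution `i ↦ Fin.snoc ..` is given by `Fin.lastCases`/`Fin.snoc` of the variables and `a`).
(1) `f (Fin.snoc Y (h Y)) ⊆ h Y`: let `C = closure (g (Fin.snoc Y (a Y)))`; `a Y ⊆ h Y` as `0 ∈ C`; and by
`Rf.scale` (`X = Fin.snoc Y (a Y)`, `X' = Fin.snoc Y (C + a Y)`): `g (Fin.snoc Y (h Y)) + h Y =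
(g (Fin.snoc Y (h Y)) + C) + a Y ⊆ (g (Fin.snoc Y (a Y)) + C) + a Y ⊆ C + a Y`.
(2) If `f (Fin.snoc Y x) ⊆ x` then `a Y ⊆ x`, so `g (Fin.snoc Y (a Y)) + x ⊆ g (Fin.snoc Y x) + x ⊆ x`
(`Rf.mono`), hence `C + x ⊆ x` (`AddSubmonoid.closure_induction`) and `h Y = C + a Y ⊆ x`.
-/
namespace DCh
open Pointwise

variable {M : Type} [AddCommMonoid M] {n : ℕ}

theorem Rf.solve_last {f : (Fin (n + 1) → Set M) → Set M} (hf : Rf M (n + 1) f) :
    ∃ h : (Fin n → Set M) → Set M, Rf M n h ∧
      (∀ Y : Fin n → Set M, f (Fin.snoc (α := fun _ => Set M) Y (h Y)) ⊆ h Y) ∧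
      (∀ (Y : Fin n → Set M) (x : Set M), f (Fin.snoc (α := fun _ => Set M) Y x) ⊆ x → h Y ⊆ x) := by
  obtain ⟨a, g, ha, hg, hfe⟩ := Rf.expand hf
  have hsn : ∀ (Y : Fin n → Set M) (x : Set M),
      (fun i : Fin n => (Fin.snoc (α := fun _ => Set M) Y x : Fin (n + 1) → Set M) i.castSucc) = Y := by
    intro Y x
    funext i
    simp
  have hf' : ∀ (Y : Fin n → Set M) (x : Set M), f (Fin.snoc (α := fun _ => Set M) Y x) =
      a Y ∪ (g (Fin.snoc (α := fun _ => Set M) Y x) + x) := by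
    intro Y x
    rw [hfe, hsn]
    simp
  refine ⟨fun Y => (AddSubmonoid.closure (g (Fin.snoc (α := fun _ => Set M) Y (a Y))) : Set M) + a Y,
    ?_, ?_, ?_⟩
  · refine Rf.add _ _ (Rf.star _ ?_) ha
    refine Rf.comp hg (h := fun i Y => (Fin.snoc (α := fun _ => Set M) Y (a Y) : Fin (n + 1) → Set M) i) ?_
    intro i
    refine Fin.lastCases ?_ ?_ i
    · simpa using ha
    · intro j
      simpa using Rf.var (M := M) (n := n) j
  · intro Y
    dsimp only
    rw [hf']
    set C : AddSubmonoid M := AddSubmonoid.closure (g (Fin.snoc (α := fun _ => Set M) Y (a Y))) with hC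
    have hgC : g (Fin.snoc (α := fun _ => Set M) Y (a Y)) ⊆ (C : Set M) := AddSubmonoid.subset_closure
    have hsc : g (Fin.snoc (α := fun _ => Set M) Y ((C : Set M) + a Y)) + (C : Set M) ⊆
        g (Fin.snoc (α := fun _ => Set M) Y (a Y)) + (C : Set M) := by
      refine Rf.scale hg C ?_ ?_
      · intro i
        simp
      · simp
    refine Set.union_subset ?_ ?_
    · intro y hy
      exact ⟨0, C.zero_mem, y, hy, by simp⟩
    · rw [← add_assoc]
      refine Set.add_subset_add_right ?_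
      refine hsc.trans ?_
      rintro _ ⟨p, hp, c, hc, rfl⟩
      exact C.add_mem (hgC hp) hc
  · intro Y x hx
    dsimp only
    rw [hf'] at hx
    have hax : a Y ⊆ x := Set.subset_union_left.trans hx
    have hgx : g (Fin.snoc (α := fun _ => Set M) Y x) + x ⊆ x := Set.subset_union_right.trans hx
    have hmono : g (Fin.snoc (α := fun _ => Set M) Y (a Y)) ⊆ g (Fin.snoc (α := fun _ => Set M) Y x) := by
      refine Rf.mono hg ?_
      intro i
      refine Fin.lastCases ?_ ?_ i
      · simpa using hax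
      · intro j
        simp
    rintro _ ⟨c, hc, y, hy, rfl⟩
    have key : ∀ c ∈ AddSubmonoid.closure (g (Fin.snoc (α := fun _ => Set M) Y (a Y))), ∀ y ∈ x,
        c + y ∈ x := by
      intro c hc
      induction hc using AddSubmonoid.closure_induction with
      | mem s hs => intro y hy; exact hgx ⟨s, hmono hs, y, hy, rfl⟩
      | zero => intro y hy; simpa using hy
      | add s t _ _ hs ht =>
        intro y hy
        rw [add_assoc]
        exact hs _ (ht y hy)
    exact key c hc y (hax hy)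

end DCh
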