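import Pool.Agent.DCH.Rfd
/-!
# Rfe (size 3): least solutions of systems are semilinear

`least_fin`: induction over `n`. `n = 0`: trivial. `n + 1`: let `h` be as in `Rf.solve_last` for
`e (Fin.last n)`; the operators `e' i Y = e i.castSucc (Fin.snoc Y (h Y))`, `i : Fin n`, are `Rf` (`Rf.comp`); let `S'` be
the least solution of `e'` by the induction hypothesis, and `S = Fin.snoc S' (h S')`. It is semilinear
(`Rf.semilinear`), `e i S ⊆ S i` for all `i` (`Fin.lastCases`). If `e i X ⊆ X i` for all `i`, let
`Y i = X i.castSucc`, `x = X (Fin.last n)`, so `X = Fin.snoc Y x` (`Fin.snoc_init_self`). Then `h Y ⊆ x`, so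
`e' i Y = e i.castSucc (Fin.snoc Y (h Y)) ⊆ e i.castSucc (Fin.snoc Y x) ⊆ Y i` (`Rf.mono`), hence `S' i ⊆ Y i` and
`h S' ⊆ h Y ⊆ x`.
`Rfi`: the same operators with variables indexed by a finite type `ι`. `least_fintype`: transport along
`Fintype.equivFin ι`: if `f : (ι → Set M) → Set M` is `Rfi` then `fun X : Fin _ → Set M => f (X ∘ equiv)` is `Rf`
(induction), and so on.
-/
namespace DCh
open Pointwise

variable {M : Type} [AddCommMonoid M]

theorem least_fin (n : ℕ) (e : Fin n → (Fin n → Set M) → Set M) (he : ∀ i, Rf M n (e i)) :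
    ∃ S : Fin n → Set M, (∀ i, IsSemilinearSet (S i)) ∧ (∀ i, e i S ⊆ S i) ∧
      ∀ X : Fin n → Set M, (∀ i, e i X ⊆ X i) → ∀ i, S i ⊆ X i := by
  induction n with
  | zero =>
    exact ⟨fun _ => ∅, fun i => i.elim0, fun i => i.elim0, fun _ _ i => i.elim0⟩
  | succ n ih =>
    obtain ⟨h, hh, h1, h2⟩ := Rf.solve_last (he (Fin.last n))
    have hsub : ∀ i : Fin (n + 1), Rf M n
        (fun Y : Fin n → Set M => (Fin.snoc (α := fun _ => Set M) Y (h Y) : Fin (n + 1) → Set M) i) := by
      intro i
      induction i using Fin.lastCases with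
      | last =>
        have : (fun Y : Fin n → Set M =>
            (Fin.snoc (α := fun _ => Set M) Y (h Y) : Fin (n + 1) → Set M) (Fin.last n)) = h := by
          funext Y
          exact Fin.snoc_last (α := fun _ => Set M) _ _
        rw [this]
        exact hh
      | cast i =>
        have : (fun Y : Fin n → Set M =>
            (Fin.snoc (α := fun _ => Set M) Y (h Y) : Fin (n + 1) → Set M) i.castSucc) =
              fun Y => Y i := by
          funext Y
          exact Fin.snoc_castSucc (α := fun _ => Set M) _ _ _
        rw [this]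
        exact Rf.var i
    obtain ⟨S', hS1, hS2, hS3⟩ := ih
      (fun i Y => e i.castSucc (Fin.snoc (α := fun _ => Set M) Y (h Y)))
      (fun i => Rf.comp (he i.castSucc)
        (h := fun i Y => (Fin.snoc (α := fun _ => Set M) Y (h Y) : Fin (n + 1) → Set M) i) hsub)
    refine ⟨Fin.snoc (α := fun _ => Set M) S' (h S'), ?_, ?_, ?_⟩
    · intro i
      induction i using Fin.lastCases with
      | last =>
        rw [Fin.snoc_last (α := fun _ => Set M)]
        exact Rf.semilinear hh hS1
      | cast i =>
        rw [Fin.snoc_castSucc (α := fun _ => Set M)]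
        exact hS1 i
    · intro i
      induction i using Fin.lastCases with
      | last =>
        rw [Fin.snoc_last (α := fun _ => Set M)]
        exact h1 S'
      | cast i =>
        rw [Fin.snoc_castSucc (α := fun _ => Set M)]
        exact hS2 i
    · intro X hX
      have hXs : (Fin.snoc (α := fun _ => Set M) (fun i : Fin n => X i.castSucc) (X (Fin.last n)) :
          Fin (n + 1) → Set M) = X := by
        funext i
        induction i using Fin.lastCases with
        | last => rw [Fin.snoc_last (α := fun _ => Set M)]
        | cast i => rw [Fin.snoc_castSucc (α := fun _ => Set M)]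
      have hl : h (fun i : Fin n => X i.castSucc) ⊆ X (Fin.last n) := by
        refine h2 _ _ ?_
        rw [hXs]
        exact hX (Fin.last n)
      have hS : ∀ i : Fin n, S' i ⊆ X i.castSucc := by
        refine hS3 (fun i => X i.castSucc) (fun i => ?_)
        refine Set.Subset.trans (Rf.mono (he i.castSucc) (Y := X) ?_) (hX i.castSucc)
        intro j
        induction j using Fin.lastCases with
        | last =>
          rw [Fin.snoc_last (α := fun _ => Set M)]
          exact hl
        | cast j => rw [Fin.snoc_castSucc (α := fun _ => Set M)]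
      intro i
      induction i using Fin.lastCases with
      | last =>
        rw [Fin.snoc_last (α := fun _ => Set M)]
        exact Set.Subset.trans (Rf.mono hh hS) hl
      | cast i =>
        rw [Fin.snoc_castSucc (α := fun _ => Set M)]
        exact hS i

/-- polynomial operators with semilinear constants, variables indexed by `ι` -/
inductive Rfi (M : Type) [AddCommMonoid M] (ι : Type) : ((ι → Set M) → Set M) → Prop
  | const (S : Set M) (hS : IsSemilinearSet S) : Rfi M ι (fun _ => S)
  | var (i : ι) : Rfi M ι (fun X => X i)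
  | union (f g : (ι → Set M) → Set M) (hf : Rfi M ι f) (hg : Rfi M ι g) :
      Rfi M ι (fun X => f X ∪ g X)
  | add (f g : (ι → Set M) → Set M) (hf : Rfi M ι f) (hg : Rfi M ι g) :
      Rfi M ι (fun X => f X + g X)

private theorem Rfe_toRf {ι : Type} {n : ℕ} (σ : ι ≃ Fin n) {f : (ι → Set M) → Set M}
    (hf : Rfi M ι f) : Rf M n (fun X => f (fun i => X (σ i))) := by
  induction hf with
  | const S hS => exact Rf.const S hS
  | var i => exact Rf.var (σ i)
  | union f g hf hg ihf ihg => exact Rf.union _ _ ihf ihg
  | add f g hf hg ihf ihg => exact Rf.add _ _ ihf ihg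

theorem least_fintype {ι : Type} [Fintype ι] (e : ι → (ι → Set M) → Set M)
    (he : ∀ i, Rfi M ι (e i)) :
    ∃ S : ι → Set M, (∀ i, IsSemilinearSet (S i)) ∧ (∀ i, e i S ⊆ S i) ∧
      ∀ X : ι → Set M, (∀ i, e i X ⊆ X i) → ∀ i, S i ⊆ X i := by
  have σ : ι ≃ Fin (Fintype.card ι) := Fintype.equivFin ι
  obtain ⟨S, h1, h2, h3⟩ := least_fin (Fintype.card ι)
    (fun j X => e (σ.symm j) (fun i => X (σ i))) (fun j => Rfe_toRf σ (he _))
  refine ⟨fun i => S (σ i), fun i => h1 _, fun i => ?_, fun X hX i => ?_⟩
  · have := h2 (σ i)
    simpa using this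
  · have := h3 (fun j => X (σ.symm j)) (fun j => by simpa using hX (σ.symm j)) (σ i)
    simpa using this

/-- finite unions of polynomial operators -/
theorem Rfi.iUnion {ι κ : Type} [Finite κ] (f : κ → (ι → Set M) → Set M)
    (hf : ∀ j, Rfi M ι (f j)) : Rfi M ι (fun X => ⋃ j, f j X) := by
  classical
  have key : ∀ s : Finset κ, Rfi M ι (fun X => ⋃ j ∈ s, f j X) := by
    intro s
    induction s using Finset.induction_on with
    | empty =>
      have : (fun X : ι → Set M => ⋃ j ∈ (∅ : Finset κ), f j X) = fun _ => ∅ := by
        funext X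
        simp
      rw [this]
      exact Rfi.const ∅ IsSemilinearSet.empty
    | insert a s ha ih =>
      have : (fun X : ι → Set M => ⋃ j ∈ insert a s, f j X) =
          fun X => f a X ∪ ⋃ j ∈ s, f j X := by
        funext X
        exact Finset.set_biUnion_insert a s _
      rw [this]
      exact Rfi.union _ _ (hf a) ih
  cases nonempty_fintype κ
  have := key Finset.univ
  simpa using this

theorem Rfi.mono {ι : Type} {f : (ι → Set M) → Set M} (hf : Rfi M ι f) {X Y : ι → Set M}
    (h : ∀ i, X i ⊆ Y i) : f X ⊆ f Y := by
  induction hf with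
  | const S hS => exact Set.Subset.rfl
  | var i => exact h i
  | union f g hf hg ihf ihg => exact Set.union_subset_union ihf ihg
  | add f g hf hg ihf ihg => exact Set.add_subset_add ihf ihg

end DCh
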