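import Mathlib
/-!
# Squad DCH, definitions for Parikh's theorem

`Rf n M f`: the operator `f : (Fin n → Set M) → Set M` is a regular expression in `n` variables, with semilinear
constants, over the commutative semiring of the subsets of the commutative monoid `M` (union, `+`, and the
submonoid generated by a set as Kleene star).
-/
namespace DCh
open Pointwise

inductive Rf (M : Type) [AddCommMonoid M] (n : ℕ) : ((Fin n → Set M) → Set M) → Prop
  | const (S : Set M) (hS : IsSemilinearSet S) : Rf M n (fun _ => S)
  | var (i : Fin n) : Rf M n (fun X => X i)
  | union (f g : (Fin n → Set M) → Set M) (hf : Rf M n f) (hg : Rf M n g) :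
      Rf M n (fun X => f X ∪ g X)
  | add (f g : (Fin n → Set M) → Set M) (hf : Rf M n f) (hg : Rf M n g) :
      Rf M n (fun X => f X + g X)
  | star (f : (Fin n → Set M) → Set M) (hf : Rf M n f) :
      Rf M n (fun X => (AddSubmonoid.closure (f X) : Set M))

end DCh
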