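import Pool.Agent.DCH.Wda
/-!
# Rge (size 3): regular languages of sorted words give recognizable sets

Let `M : DFA (Fin k) σ` accept `Lk S` and let `c = Fintype.card σ`. Take `N = c` and `p = c !` (`> 0`).
Let `N ≤ x i`. The word `wd x` is `U ++ List.replicate (x i) i ++ V` and
`wd (x + Pi.single i p) = U ++ List.replicate (x i + p) i ++ V` with the same `U`, `V` (put `U` = the sorted word of
`fun j => if j < i then x j else 0`, `V` = the sorted word of `fun j => if i < j then x j else 0`; both words
are sorted and have the right Parikh vectors: `eq_of_cnt`; `cnt` of an append is the sum of the `cnt`s).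
Iteration: for `f : σ → σ`, `q : σ` and `c ≤ n`: `f^[n] q = f^[n + c !] q` (pigeonhole: `f^[a] q = f^[b] q` for
some `a < b ≤ c`; hence `f^[n] q = f^[n + (b - a)] q` for `n ≥ a`, and `b - a ∣ c !` (`Nat.dvd_factorial`)).
Apply this with `f q = M.step q i`: `M.evalFrom q (List.replicate n i) = f^[n] q`.
-/
namespace DCh
open RCone

variable {k : ℕ}

theorem iterate_factorial {σ : Type} [Fintype σ] (f : σ → σ) (q : σ) (n : ℕ)
    (hn : Fintype.card σ ≤ n) : f^[n] q = f^[n + (Fintype.card σ).factorial] q := by
  obtain ⟨a, b, hab, hb, he⟩ : ∃ a b : ℕ, a < b ∧ b ≤ Fintype.card σ ∧ f^[a] q = f^[b] q := by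
    have h1 : ¬ Function.Injective (fun a : Fin (Fintype.card σ + 1) => f^[(a : ℕ)] q) := by
      intro hinj
      have := Fintype.card_le_of_injective _ hinj
      rw [Fintype.card_fin] at this
      omega
    rw [Function.Injective] at h1
    push Not at h1
    obtain ⟨a, b, h, hne⟩ := h1
    rcases lt_or_gt_of_ne (fun e => hne (Fin.ext e) : (a : ℕ) ≠ b) with hlt | hlt
    · exact ⟨a, b, hlt, by omega, h⟩
    · exact ⟨b, a, hlt, by omega, h.symm⟩
  obtain ⟨d, rfl⟩ : ∃ d, b = a + d := ⟨b - a, by omega⟩
  have h2 : ∀ m : ℕ, a ≤ m → f^[m + d] q = f^[m] q := by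
    intro m hm
    obtain ⟨e, rfl⟩ : ∃ e, m = e + a := ⟨m - a, by omega⟩
    rw [add_assoc, Function.iterate_add_apply, ← he, ← Function.iterate_add_apply]
  have h3 : ∀ t m : ℕ, a ≤ m → f^[m + d * t] q = f^[m] q := by
    intro t
    induction t with
    | zero => intro m _; rfl
    | succ t ih =>
      intro m hm
      rw [Nat.mul_succ, ← add_assoc, h2 _ (by omega), ih m hm]
  obtain ⟨t, ht⟩ : d ∣ (Fintype.card σ).factorial := Nat.dvd_factorial (by omega) (by omega)
  rw [ht, h3 t n (by omega)]

private theorem Rge_mem {x : Fin k → ℕ} {a : Fin k} (h : a ∈ wd x) : 0 < x a := by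
  have h1 : 0 < (wd x).count a := List.count_pos_iff.2 h
  have h2 : (wd x).count a = x a := congrFun (cnt_wd x) a
  omega

private theorem Rge_split (i : Fin k) (x : Fin k → ℕ) :
    wd x = wd (fun j => if j < i then x j else 0) ++
      (List.replicate (x i) i ++ wd (fun j => if i < j then x j else 0)) := by
  have hU : ∀ a ∈ wd (fun j => if j < i then x j else 0), a < i := by
    intro a ha
    have h1 := Rge_mem ha
    by_contra h2
    simp only [if_neg h2] at h1
    exact lt_irrefl 0 h1
  have hV : ∀ a ∈ wd (fun j => if i < j then x j else 0), i < a := by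
    intro a ha
    have h1 := Rge_mem ha
    by_contra h2
    simp only [if_neg h2] at h1
    exact lt_irrefl 0 h1
  refine eq_of_cnt (Srt_wd x) ?_ ?_
  · unfold Srt
    rw [List.pairwise_append, List.pairwise_append]
    refine ⟨Srt_wd _, ⟨List.pairwise_replicate.2 (Or.inr le_rfl), Srt_wd _, ?_⟩, ?_⟩
    · intro a ha b hb
      rw [List.eq_of_mem_replicate ha]
      exact (hV b hb).le
    · intro a ha b hb
      rw [List.mem_append] at hb
      rcases hb with hb | hb
      · rw [List.eq_of_mem_replicate hb]
        exact (hU a ha).le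
      · exact ((hU a ha).trans (hV b hb)).le
  · rw [cnt_wd]
    funext j
    have h1 : (wd (fun j => if j < i then x j else 0)).count j = if j < i then x j else 0 :=
      congrFun (cnt_wd _) j
    have h2 : (wd (fun j => if i < j then x j else 0)).count j = if i < j then x j else 0 :=
      congrFun (cnt_wd _) j
    unfold cnt
    rw [List.count_append, List.count_append, List.count_replicate, h1, h2]
    rcases lt_trichotomy j i with h | h | h
    · simp [h, not_lt_of_gt h, h.ne']
    · subst h
      simp
    · simp [h, not_lt_of_gt h, h.ne]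

private theorem Rge_eval {α σ : Type} (M : DFA α σ) (a : α) (n : ℕ) (q : σ) :
    M.evalFrom q (List.replicate n a) = (fun q => M.step q a)^[n] q := by
  induction n generalizing q with
  | zero => rfl
  | succ n ih => rw [List.replicate_succ, DFA.evalFrom_cons, ih, Function.iterate_succ_apply]

private theorem Rge_step {S : Set (Fin k → ℕ)} {σ : Type} [Fintype σ] (M : DFA (Fin k) σ)
    (h1 : ∀ y : Fin k → ℕ, y ∈ S ↔ M.eval (wd y) ∈ M.accept) (i : Fin k) (x y : Fin k → ℕ)
    (hx : Fintype.card σ ≤ x i) (hyi : y i = x i + (Fintype.card σ).factorial)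
    (hyj : ∀ j, j ≠ i → y j = x j) : x ∈ S ↔ y ∈ S := by
  have hU : (fun j => if j < i then y j else 0) = fun j => if j < i then x j else 0 := by
    funext j
    split_ifs with hj
    · exact hyj j hj.ne
    · rfl
  have hV : (fun j => if i < j then y j else 0) = fun j => if i < j then x j else 0 := by
    funext j
    split_ifs with hj
    · exact hyj j hj.ne'
    · rfl
  rw [h1, h1, Rge_split i x, Rge_split i y, hU, hV, hyi]
  unfold DFA.eval
  rw [DFA.evalFrom_of_append, DFA.evalFrom_of_append, DFA.evalFrom_of_append,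
    DFA.evalFrom_of_append, Rge_eval, Rge_eval,
    iterate_factorial (fun q => M.step q i) _ (x i) hx]

theorem rcg_of_regular {S : Set (Fin k → ℕ)} (h : (Lk S).IsRegular) : Rcg S := by
  obtain ⟨σ, hσ, M, hM⟩ := h
  refine ⟨Fintype.card σ, (Fintype.card σ).factorial, Nat.factorial_pos _, fun i x hx => ?_⟩
  have h1 : ∀ y : Fin k → ℕ, y ∈ S ↔ M.eval (wd y) ∈ M.accept := by
    intro y
    rw [← wd_mem_Lk, ← hM, DFA.mem_accepts]
  refine Rge_step M h1 i x _ hx ?_ ?_
  · rw [Pi.add_apply, Pi.single_eq_same]
  · intro j hj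
    rw [Pi.add_apply, Pi.single_eq_of_ne hj, add_zero]

end DCh
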