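import Pool.Agent.DCH.Defs
/-!
# Spa (size 2): points of the splitting

Let `r'` be `2 * t` or `2 * t + 1` (both `≤ m`) according to `hK`, and `c = y₁ (i + r') ≤ K₀`. For every
`r : Fin (m + 1)` one has `Function.update (y ∘ sec i m r) i c = y₁ ∘ sec i m r'`: at `i` both are `c`
(`sec i m r' i = i + r'`); at `j ≠ i`, `sec i m r j = sec i m r' j` does not depend on `r`, and it is `< i` or
`≥ i + 1 + m > i + 2 t + 1`, so `y` and `y₁` agree there. As `y₁ ∈ split V i m`, this point is in `V`, so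
`y ∘ sec i m r ∈ slc V i c`; and `y ∘ sec i m r ∈ V` because `y ∈ split V i m`.
-/
namespace DCh
open RCone

private theorem spa_sec_self {k : ℕ} (i : Fin k) (m : ℕ) (r : Fin (m + 1)) :
    ((sec i m r i : Fin (k + m)) : ℕ) = i + r := by
  simp [sec]

private theorem spa_sec_lt {k : ℕ} (i : Fin k) (m : ℕ) (r : Fin (m + 1)) (j : Fin k) (h : j < i) :
    ((sec i m r j : Fin (k + m)) : ℕ) = j := by
  simp [sec, h]

private theorem spa_sec_gt {k : ℕ} (i : Fin k) (m : ℕ) (r : Fin (m + 1)) (j : Fin k) (h : i < j) :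
    ((sec i m r j : Fin (k + m)) : ℕ) = j + m := by
  have h1 : ¬ j < i := not_lt.2 h.le
  have h2 : ¬ j = i := ne_of_gt h
  simp [sec, h1, h2]

theorem split_step {k m : ℕ} {V : Set (Fin k → ℕ)} {i : Fin k} {K₀ t : ℕ} (ht : 2 * t + 1 ≤ m)
    {y y₁ : Fin (k + m) → ℕ} (hy : y ∈ split V i m) (hy₁ : y₁ ∈ split V i m)
    (he : ∀ j : Fin (k + m), (j : ℕ) ≠ i + 2 * t → (j : ℕ) ≠ i + 2 * t + 1 → y₁ j = y j)
    (hK : (∃ j : Fin (k + m), (j : ℕ) = i + 2 * t ∧ y₁ j ≤ K₀) ∨
      (∃ j : Fin (k + m), (j : ℕ) = i + 2 * t + 1 ∧ y₁ j ≤ K₀)) :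
    y ∈ split (V ∩ {x | ∃ c < K₀ + 1, x ∈ slc V i c}) i m := by
  obtain ⟨r', hr', j', hj', hj'K⟩ : ∃ r' : Fin (m + 1), ((r' : ℕ) = 2 * t ∨ (r' : ℕ) = 2 * t + 1) ∧
      ∃ j' : Fin (k + m), (j' : ℕ) = i + r' ∧ y₁ j' ≤ K₀ := by
    rcases hK with ⟨j, hj, hjK⟩ | ⟨j, hj, hjK⟩
    · exact ⟨⟨2 * t, by omega⟩, Or.inl rfl, j, by simpa using hj, hjK⟩
    · exact ⟨⟨2 * t + 1, by omega⟩, Or.inr rfl, j, by simp only; omega, hjK⟩
  intro r
  refine ⟨hy r, y₁ j', by omega, ?_⟩
  have e : Function.update (y ∘ sec i m r) i (y₁ j') = y₁ ∘ sec i m r' := by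
    funext j
    rcases lt_trichotomy j i with h | h | h
    · have hne : j ≠ i := ne_of_lt h
      rw [Function.update_of_ne hne]
      have a1 := spa_sec_lt i m r j h
      have a2 := spa_sec_lt i m r' j h
      have a3 : sec i m r j = sec i m r' j := Fin.ext (by rw [a1, a2])
      have hlt : (j : ℕ) < (i : ℕ) := h
      have a4 := he (sec i m r' j) (by rw [a2]; omega) (by rw [a2]; omega)
      simp only [Function.comp]
      rw [a3, a4]
    · subst h
      rw [Function.update_self]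
      have a1 := spa_sec_self j m r'
      have a3 : sec j m r' j = j' := Fin.ext (by rw [a1, hj'])
      simp only [Function.comp]
      rw [a3]
    · have hne : j ≠ i := ne_of_gt h
      rw [Function.update_of_ne hne]
      have a1 := spa_sec_gt i m r j h
      have a2 := spa_sec_gt i m r' j h
      have a3 : sec i m r j = sec i m r' j := Fin.ext (by rw [a1, a2])
      have hlt : (i : ℕ) < (j : ℕ) := h
      have a4 := he (sec i m r' j) (by rw [a2]; omega) (by rw [a2]; omega)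
      simp only [Function.comp]
      rw [a3, a4]
  show Function.update (y ∘ sec i m r) i (y₁ j') ∈ V
  rw [e]
  exact hy₁ r'

end DCh
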