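import Pool.Agent.DCH.Pmc
import Pool.Agent.DCH.Cut
import Pool.Agent.DCH.Exc
import Pool.Agent.DCH.Spa
import Pool.Agent.DCH.Dia
import Pool.Agent.DCH.Rca
import Pool.Agent.DCH.Rga
import Pool.Agent.DCH.Rgd
import Pool.Agent.DCH.Rge
import Pool.Agent.DCH.Rgb
import Pool.Agent.RC.RegB
/-!
# Spb (size 4): the splitting lemma

If `l = 0` then every set is recognizable (`Fin 0` is empty). Let `0 < l`.
`hW` is a rational `τ` with `Lk Wᶜ = im τ (Lk (split V i m)ᶜ)`; let `R` be its regular label language and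
`R' = R ∩ {z | Srt (p1 z) ∧ Srt (p2 z)}` (`regular_srt2` in module Rgb), accepted by `M : DFA _ σ` with `σ` a fintype.
Let `K₀ = card σ ^ 2` and `E = V ∩ {x | ∃ c < K₀ + 1, x ∈ slc V i c}`. `E` is recognizable: it is
`{x | ∃ c < K₀ + 1, x ∈ V ∩ slc V i c}` (`Rcg.ex_lt`, `hg`). So `split E i m` is recognizable (`Rcg_split`), and
`L' = {w | ∃ z ∈ R', p1 z ∈ Lk (split E i m)ᶜ ∧ p2 z = w}` is regular (`regular_Lk`, `Rcg.compl`,
`RCone.regular_preimage`, `Language.IsRegular.inf`, `regular_p2`).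
Claim: `Lk Wᶜ = L'`. Then `Lk Wᶜ` is regular, `Wᶜ` is recognizable (`rcg_of_regular`) and `W` too (`Rcg.compl`).
`⊆`: let `w ∈ Lk Wᶜ`; there is a `z ∈ R` with `p1 z ∈ Lk (split V i m)ᶜ`, `p2 z = w`; both are sorted, so
`z ∈ R'`; and `split E i m ⊆ split V i m` as `E ⊆ V`.
`⊇`: let `z ∈ R'`, `p1 z ∈ Lk (split E i m)ᶜ`, and suppose that `w = p2 z ∉ Lk Wᶜ`. (*) For every `z' ∈ R'` with
`p2 z' = w`: `cnt (p1 z') ∈ split V i m` (otherwise `p1 z' ∈ Lk (split V i m)ᶜ` and `w ∈ im τ _ = Lk Wᶜ`).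
Take `t < l`, `b`, `z = u ++ β ++ γ ++ v` from `cuts hl z _ _ i`, and `β₁`, `γ₁` from `trade M (M.evalFrom M.start u) β γ`.
Let `z₁ = u ++ β₁ ++ γ₁ ++ v`. It ends in the same state as `z` (`DFA.evalFrom_of_append`), so it is accepted by `M`
and `z₁ ∈ R'`. By `exchange`, `p2 z₁ = p2 z = w`. By (*) for `z` and for `z₁`, the vectors `y = cnt (p1 z)` and
`y₁ = cnt (p1 z₁)` are in `split V i m`. `split_step` (with `2 * t + 1 ≤ m`, from `t < l`, `2 * l ≤ m + 1`; `hK` from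
the last statement of `trade` and the last two of `exchange`, the letters are `⟨i + 2 * t, _⟩`, `⟨i + 2 * t + 1, _⟩`)
gives `y ∈ split E i m`, which contradicts `p1 z ∈ Lk (split E i m)ᶜ`.
-/
namespace DCh
open RCone

theorem splitting {k l m : ℕ} {V : Set (Fin k → ℕ)} {i : Fin k} (hg : Good V i)
    (hlm : 2 * l ≤ m + 1) {W : Set (Fin l → ℕ)} (hW : W ∈ coT (Lk (split V i m)ᶜ) l) : Rcg W := by
  classical
  rcases Nat.eq_zero_or_pos l with rfl | hl
  · exact ⟨0, 1, one_pos, fun i => i.elim0⟩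
  obtain ⟨τ, ⟨R, hR, hτ⟩, hL0⟩ := hW
  have hL : Lk Wᶜ = im τ (Lk (split V i m)ᶜ) := hL0
  have hR0 : Language.IsRegular (T := Option (Fin (k + m)) × Option (Fin l))
      (R ⊓ {z | Srt (p1 z) ∧ Srt (p2 z)}) := hR.inf (regular_srt2 (k + m) l)
  obtain ⟨σ, hσ, M, hM⟩ := id hR0
  have hmem : ∀ z, z ∈ M.accepts ↔ (z ∈ R ∧ (Srt (p1 z) ∧ Srt (p2 z))) := by
    intro z
    rw [hM]
    rfl
  have hE : Rcg (V ∩ {x | ∃ c < Fintype.card σ ^ 2 + 1, x ∈ slc V i c}) := by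
    have e : V ∩ {x | ∃ c < Fintype.card σ ^ 2 + 1, x ∈ slc V i c} =
        {x | ∃ c < Fintype.card σ ^ 2 + 1, x ∈ V ∩ slc V i c} := by
      ext x
      constructor
      · rintro ⟨hx, c, hc, h⟩
        exact ⟨c, hc, hx, h⟩
      · rintro ⟨c, hc, hx, h⟩
        exact ⟨hx, c, hc, h⟩
    rw [e]
    exact Rcg.ex_lt _ (fun c => V ∩ slc V i c) (fun c _ => hg c)
  obtain ⟨E, hEd⟩ : ∃ E, E = V ∩ {x | ∃ c < Fintype.card σ ^ 2 + 1, x ∈ slc V i c} := ⟨_, rfl⟩
  rw [← hEd] at hE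
  have hsE : split E i m ⊆ split V i m := by
    intro y hy r
    have := hy r
    rw [hEd] at this
    exact this.1
  have hsR : (Lk (split E i m)ᶜ).IsRegular := regular_Lk (Rcg_split hE i m).compl
  have hreg := regular_p2 (hR0.inf (regular_preimage Prod.fst hsR))
  have claim : Lk Wᶜ = {w | ∃ z ∈ ((R ⊓ {z | Srt (p1 z) ∧ Srt (p2 z)}) ⊓
      {z | z.filterMap Prod.fst ∈ Lk (split E i m)ᶜ} :
        Language (Option (Fin (k + m)) × Option (Fin l))), p2 z = w} := by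
    apply Set.Subset.antisymm
    · intro w hw
      have hw' : w ∈ im τ (Lk (split V i m)ᶜ) := by rw [← hL]; exact hw
      obtain ⟨u, hu, huw⟩ := hw'
      obtain ⟨z, hz, rfl, rfl⟩ := (hτ u w).1 huw
      refine ⟨z, ⟨⟨hz, hu.1, hw.1⟩, hu.1, ?_⟩, rfl⟩
      intro hc
      exact hu.2 (hsE hc)
    · rintro w ⟨z, ⟨⟨hz, h1, h2⟩, hzE⟩, rfl⟩
      by_contra hw
      have star : ∀ z', z' ∈ M.accepts → p2 z' = p2 z → cnt (p1 z') ∈ split V i m := by
        intro z' hz' hp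
        by_contra h
        apply hw
        have hz'' := (hmem z').1 hz'
        have : p2 z ∈ im τ (Lk (split V i m)ᶜ) :=
          ⟨p1 z', ⟨hz''.2.1, h⟩, (hτ _ _).2 ⟨z', hz''.1, rfl, hp⟩⟩
        rw [← hL] at this
        exact this
      have hzM : z ∈ M.accepts := (hmem z).2 ⟨hz, h1, h2⟩
      obtain ⟨t, ht, b, u, β, γ, v, hzz, hu1, hβ1, hγ1, hv1, hu2, hβ2, hγ2, hv2⟩ :=
        cuts hl z h1 h2 (i : ℕ)
      obtain ⟨β₁, γ₁, e1, e2, s1, s2, hlen, hor⟩ := trade M (M.evalFrom M.start u) β γ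
      have h1' : Srt (p1 (u ++ β ++ γ ++ v)) := by rw [← hzz]; exact h1
      obtain ⟨x1, x2, x3, x4, x5⟩ := exchange h1' hu1 hβ1 hγ1 hv1 hβ2 hγ2 s1 s2 hlen
      have hz1M : u ++ β₁ ++ γ₁ ++ v ∈ M.accepts := by
        rw [DFA.mem_accepts] at hzM ⊢
        have e3 : M.eval (u ++ β₁ ++ γ₁ ++ v) = M.eval z := by
          rw [hzz]
          unfold DFA.eval
          simp only [DFA.evalFrom_of_append]
          rw [e1, e2]
        rw [e3]
        exact hzM
      have hy : cnt (p1 z) ∈ split V i m := star z hzM rfl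
      have hy1 : cnt (p1 (u ++ β₁ ++ γ₁ ++ v)) ∈ split V i m := by
        apply star _ hz1M
        rw [x2, hzz]
      have ht2 : 2 * t + 1 ≤ m := by omega
      have hi := i.2
      have hfin : cnt (p1 z) ∈ split (V ∩ {x | ∃ c < Fintype.card σ ^ 2 + 1, x ∈ slc V i c}) i m := by
        refine split_step ht2 hy hy1 ?_ ?_
        · intro j hj1 hj2
          rw [x3 j hj1 hj2, ← hzz]
        · rcases hor with h | h
          · left
            refine ⟨⟨(i : ℕ) + 2 * t, by omega⟩, rfl, ?_⟩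
            rw [x4 _ rfl]
            exact h
          · right
            refine ⟨⟨(i : ℕ) + 2 * t + 1, by omega⟩, rfl, ?_⟩
            rw [x5 _ rfl]
            exact h
      rw [← hEd] at hfin
      exact hzE.2 hfin
  have hregW : (Lk Wᶜ).IsRegular := by
    rw [claim]
    exact hreg
  have := (rcg_of_regular hregW).compl
  rwa [compl_compl] at this

end DCh
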