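import Pool.Agent.DCH.Defs
/-!
# Tca (size 2): closure properties of a principal cone

`mem_T_labels`: `hL : L = im τ A` with `τ` rational; the relation `ρ = {(u, w) | ∃ z ∈ R, p1 z = u ∧ p2 z = w}`
is rational by definition, and `IsRational.comp` gives the composition; `im (comp) A = im ρ (im τ A)`.
`inter_regular_mem_T`: `mem_T_labels` with `R = {z | (∀ l ∈ z, ∃ a, l = (some a, some a)) ∧ p1 z ∈ K}`
(`regular_forall`, `regular_preimage`, `Language.IsRegular.inf`): for such `z` one has `p1 z = p2 z`.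
`union_mem_T`: as in `RCone.join_mem`, `IsRational.union`.
`regular_mem_T`: fix `u₀ ∈ A`; take `τ = {(u, w) | u = u₀, w ∈ K}`: it is rational with the label language
`{z | p1 z ∈ {u₀}} ⊓ {z | p2 z ∈ K}` (`RCone.regular_singleton`, `regular_preimage` twice: it contains the label
word `u₀.map (some ·, none) ++ w.map (none, some ·)`).
-/
namespace DCh
open RCone

variable {X : Type} {A : Language X}

theorem mem_T_labels {k l : ℕ} {L : Language (Fin k)}
    (hL : (⟨k, L⟩ : Σ n : ℕ, Language (Fin n)) ∈ T A)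
    {R : Language (Option (Fin k) × Option (Fin l))} (hR : R.IsRegular) :
    (⟨l, {w | ∃ z ∈ R, p1 z ∈ L ∧ p2 z = w}⟩ : Σ n : ℕ, Language (Fin n)) ∈ T A := by
  obtain ⟨τ, hτ, h1⟩ := hL
  dsimp only at h1
  have hρ : IsRational {p : List (Fin k) × List (Fin l) | ∃ z ∈ R, p1 z = p.1 ∧ p2 z = p.2} :=
    ⟨R, hR, fun u w => Iff.rfl⟩
  refine ⟨_, hτ.comp hρ, ?_⟩
  dsimp only
  ext w
  constructor
  · rintro ⟨z, hz, hz1, rfl⟩
    rw [h1] at hz1
    obtain ⟨u, hu, h2⟩ := hz1
    exact ⟨u, hu, p1 z, h2, z, hz, rfl, rfl⟩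
  · rintro ⟨u, hu, v, h2, z, hz, h3, h4⟩
    refine ⟨z, hz, ?_, h4⟩
    rw [h3, h1]
    exact ⟨u, hu, h2⟩

private theorem Tca_diag {k : ℕ} : ∀ z : List (Option (Fin k) × Option (Fin k)),
    (∀ l ∈ z, ∃ a, l = (some a, some a)) → p1 z = p2 z := by
  intro z
  induction z with
  | nil => intro _; rfl
  | cons l z ih =>
    intro h
    obtain ⟨a, rfl⟩ := h l (by simp)
    have := ih (fun l hl => h l (by simp [hl]))
    simp only [p1, p2] at this ⊢
    simp [this]

theorem inter_regular_mem_T {k : ℕ} {L K : Language (Fin k)}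
    (hL : (⟨k, L⟩ : Σ n : ℕ, Language (Fin n)) ∈ T A) (hK : K.IsRegular) :
    (⟨k, {w | w ∈ L ∧ w ∈ K}⟩ : Σ n : ℕ, Language (Fin n)) ∈ T A := by
  have hR : Language.IsRegular (({z | ∀ l ∈ z, ∃ a, l = (some a, some a)} :
      Language (Option (Fin k) × Option (Fin k))) ⊓
      ({z | z.filterMap Prod.fst ∈ K} : Language (Option (Fin k) × Option (Fin k)))) :=
    (regular_forall (fun l : Option (Fin k) × Option (Fin k) => ∃ a, l = (some a, some a))).inf
      (regular_preimage _ hK)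
  have h := mem_T_labels hL hR
  have e : ({w | ∃ z ∈ (({z | ∀ l ∈ z, ∃ a, l = (some a, some a)} :
      Language (Option (Fin k) × Option (Fin k))) ⊓
      ({z | z.filterMap Prod.fst ∈ K} : Language (Option (Fin k) × Option (Fin k)))),
      p1 z ∈ L ∧ p2 z = w} : Language (Fin k)) = {w | w ∈ L ∧ w ∈ K} := by
    ext w
    constructor
    · rintro ⟨z, ⟨hz1, hz2⟩, h1, rfl⟩
      have h3 := Tca_diag z hz1
      refine ⟨h3 ▸ h1, ?_⟩
      rw [← h3]
      exact hz2
    · rintro ⟨h1, h2⟩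
      have e1 : p1 (w.map fun x => ((some x, some x) : Option (Fin k) × Option (Fin k))) = w := by
        simp [p1, List.filterMap_map]
      have e2 : p2 (w.map fun x => ((some x, some x) : Option (Fin k) × Option (Fin k))) = w := by
        simp [p2, List.filterMap_map]
      refine ⟨w.map fun x => ((some x, some x) : Option (Fin k) × Option (Fin k)),
        ⟨?_, ?_⟩, ?_, e2⟩
      · intro l hl
        obtain ⟨x, _, hx⟩ := List.mem_map.1 hl
        exact ⟨x, hx.symm⟩
      · show p1 _ ∈ K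
        rw [e1]
        exact h2
      · rw [e1]
        exact h1
  exact (congrArg (fun M : Language (Fin k) =>
    ((⟨k, M⟩ : Σ n : ℕ, Language (Fin n)) ∈ T A)) e).mp h

theorem union_mem_T {k : ℕ} {L K : Language (Fin k)}
    (hL : (⟨k, L⟩ : Σ n : ℕ, Language (Fin n)) ∈ T A)
    (hK : (⟨k, K⟩ : Σ n : ℕ, Language (Fin n)) ∈ T A) :
    (⟨k, {w | w ∈ L ∨ w ∈ K}⟩ : Σ n : ℕ, Language (Fin n)) ∈ T A := by
  obtain ⟨τ, hτ, h1⟩ := hL
  obtain ⟨ρ, hρ, h2⟩ := hK
  dsimp only at h1 h2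
  refine ⟨_, hτ.union hρ, ?_⟩
  dsimp only
  rw [h1, h2]
  ext w
  constructor
  · rintro (⟨u, hu, h3⟩ | ⟨u, hu, h3⟩)
    · exact ⟨u, hu, Or.inl h3⟩
    · exact ⟨u, hu, Or.inr h3⟩
  · rintro ⟨u, hu, h3 | h3⟩
    · exact Or.inl ⟨u, hu, h3⟩
    · exact Or.inr ⟨u, hu, h3⟩

private theorem Tca_prod {X Y : Type} (u0 : List X) {M : Language Y} (hM : M.IsRegular) :
    IsRational {p : List X × List Y | p.1 = u0 ∧ p.2 ∈ M} := by
  refine ⟨({z | z.filterMap Prod.fst ∈ ({u0} : Language X)} : Language (Option X × Option Y)) ⊓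
    ({z | z.filterMap Prod.snd ∈ M} : Language (Option X × Option Y)),
    (regular_preimage _ (regular_singleton u0)).inf (regular_preimage _ hM), ?_⟩
  intro u w
  constructor
  · rintro ⟨h1, h2⟩
    dsimp only at h1 h2
    subst h1
    have e1 : p1 ((u.map fun x => ((some x, none) : Option X × Option Y)) ++
        w.map fun y => ((none, some y) : Option X × Option Y)) = u := by
      simp [p1, List.filterMap_map]
    have e2 : p2 ((u.map fun x => ((some x, none) : Option X × Option Y)) ++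
        w.map fun y => ((none, some y) : Option X × Option Y)) = w := by
      simp [p2, List.filterMap_map]
    refine ⟨_, ⟨?_, ?_⟩, e1, e2⟩
    · exact e1
    · show p2 _ ∈ M
      rw [e2]
      exact h2
  · rintro ⟨z, ⟨h1, h2⟩, rfl, rfl⟩
    exact ⟨h1, h2⟩

theorem regular_mem_T (hA : ∃ u, u ∈ A) {k : ℕ} {K : Language (Fin k)} (hK : K.IsRegular) :
    (⟨k, K⟩ : Σ n : ℕ, Language (Fin n)) ∈ T A := by
  obtain ⟨u₀, h0⟩ := hA
  refine ⟨_, Tca_prod u₀ hK, ?_⟩
  dsimp only
  ext w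
  constructor
  · intro h
    exact ⟨u₀, h0, rfl, h⟩
  · rintro ⟨u, hu, h1, h2⟩
    exact h2

end DCh
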