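import Pool.Agent.DCH.Tca
/-!
# Tcb (size 2): letter maps and their inverses

`filterMap_mem_T`: `mem_T_labels` with the label language of all `z` whose letters `l` satisfy
`∃ a, l = (some a, f a)` (`RCone.regular_forall`). Such `z` are `u.map (fun a => (some a, f a))`, and then
`p1 z = u`, `p2 z = u.filterMap f`.
`inv_filterMap_mem_T`: the same with the labels `(g b, some b)`: `z = w.map (fun b => (g b, some b))`,
`p2 z = w`, `p1 z = w.filterMap g`.
-/
namespace DCh
open RCone

variable {X : Type} {A : Language X}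

private theorem tcb_one {k l : ℕ} (f : Fin k → Option (Fin l)) :
    ∀ z : List (Option (Fin k) × Option (Fin l)), (∀ a ∈ z, ∃ x : Fin k, a = (some x, f x)) →
      p2 z = (p1 z).filterMap f := by
  intro z
  induction z with
  | nil => intro _; simp [p1, p2]
  | cons a z ih =>
    intro h
    obtain ⟨x, hx⟩ := h a (by simp)
    have h2 := ih (fun b hb => h b (by simp [hb]))
    subst hx
    simp only [p1, p2] at h2 ⊢
    rw [List.filterMap_cons, List.filterMap_cons]
    simp only [List.filterMap_cons, h2]

private theorem tcb_two {k l : ℕ} (g : Fin l → Option (Fin k)) :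
    ∀ z : List (Option (Fin k) × Option (Fin l)), (∀ a ∈ z, ∃ x : Fin l, a = (g x, some x)) →
      p1 z = (p2 z).filterMap g := by
  intro z
  induction z with
  | nil => intro _; simp [p1, p2]
  | cons a z ih =>
    intro h
    obtain ⟨x, hx⟩ := h a (by simp)
    have h2 := ih (fun b hb => h b (by simp [hb]))
    subst hx
    simp only [p1, p2] at h2 ⊢
    rw [List.filterMap_cons, List.filterMap_cons]
    simp only [List.filterMap_cons, h2]

private theorem tcb_eq {l : ℕ} {K K' : Language (Fin l)} (e : K = K')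
    (h : (⟨l, K⟩ : Σ n : ℕ, Language (Fin n)) ∈ T A) :
    (⟨l, K'⟩ : Σ n : ℕ, Language (Fin n)) ∈ T A := by
  subst e
  exact h

theorem filterMap_mem_T {k l : ℕ} {L : Language (Fin k)}
    (hL : (⟨k, L⟩ : Σ n : ℕ, Language (Fin n)) ∈ T A) (f : Fin k → Option (Fin l)) :
    (⟨l, {w | ∃ u ∈ L, u.filterMap f = w}⟩ : Σ n : ℕ, Language (Fin n)) ∈ T A := by
  have h := mem_T_labels (l := l) hL
    (R := ({z | ∀ a ∈ z, ∃ x : Fin k, a = (some x, f x)} :
      Language (Option (Fin k) × Option (Fin l)))) (regular_forall _)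
  have e : ({w | ∃ z ∈ ({z | ∀ a ∈ z, ∃ x : Fin k, a = (some x, f x)} :
      Language (Option (Fin k) × Option (Fin l))), p1 z ∈ L ∧ p2 z = w} : Language (Fin l)) =
      {w | ∃ u ∈ L, u.filterMap f = w} := by
    ext w
    constructor
    · rintro ⟨z, hz, hz1, hz2⟩
      exact ⟨p1 z, hz1, by rw [← tcb_one f z hz, hz2]⟩
    · rintro ⟨u, hu, huw⟩
      have hz : ∀ a ∈ u.map (fun x => ((some x : Option (Fin k)), f x)),
          ∃ x : Fin k, a = (some x, f x) := by
        intro a ha
        obtain ⟨x, _, hx⟩ := List.mem_map.1 ha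
        exact ⟨x, hx.symm⟩
      have h1 : p1 (u.map (fun x => ((some x : Option (Fin k)), f x))) = u := by
        simp only [p1, List.filterMap_map]
        exact List.filterMap_some
      refine ⟨u.map (fun x => (some x, f x)), hz, ?_, ?_⟩
      · rw [h1]; exact hu
      · rw [tcb_one f _ hz, h1, huw]
  exact tcb_eq e h

theorem inv_filterMap_mem_T {k l : ℕ} {L : Language (Fin k)}
    (hL : (⟨k, L⟩ : Σ n : ℕ, Language (Fin n)) ∈ T A) (g : Fin l → Option (Fin k)) :
    (⟨l, {w | w.filterMap g ∈ L}⟩ : Σ n : ℕ, Language (Fin n)) ∈ T A := by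
  have h := mem_T_labels (l := l) hL
    (R := ({z | ∀ a ∈ z, ∃ x : Fin l, a = (g x, some x)} :
      Language (Option (Fin k) × Option (Fin l)))) (regular_forall _)
  have e : ({w | ∃ z ∈ ({z | ∀ a ∈ z, ∃ x : Fin l, a = (g x, some x)} :
      Language (Option (Fin k) × Option (Fin l))), p1 z ∈ L ∧ p2 z = w} : Language (Fin l)) =
      {w | w.filterMap g ∈ L} := by
    ext w
    constructor
    · rintro ⟨z, hz, hz1, hz2⟩
      change w.filterMap g ∈ L
      rw [← hz2, ← tcb_two g z hz]
      exact hz1
    · intro hw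
      have hz : ∀ a ∈ w.map (fun x => (g x, (some x : Option (Fin l)))),
          ∃ x : Fin l, a = (g x, some x) := by
        intro a ha
        obtain ⟨x, _, hx⟩ := List.mem_map.1 ha
        exact ⟨x, hx.symm⟩
      have h1 : p2 (w.map (fun x => (g x, (some x : Option (Fin l))))) = w := by
        simp only [p2, List.filterMap_map]
        exact List.filterMap_some
      refine ⟨w.map (fun x => (g x, some x)), hz, ?_, h1⟩
      rw [tcb_two g _ hz, h1]
      exact hw
  exact tcb_eq e h

end DCh
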