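import Pool.Agent.DCH.Wda
/-!
# Wdb (size 2): bounded words are the images of sorted words

`flatMap_wd`: unfold `wd`, `bw`; `List.flatMap` of a `flatten` of `List.ofFn`; the image of the block
`rep [i] n = List.replicate n i` is `rep (w i) n`. Then `flatMap_srt` is `flatMap_wd` and `eq_wd`.
-/
namespace DCh
open RCone

variable {k : ℕ} {α : Type}

private theorem flatMap_flat {β : Type} (w : β → List α) (L : List (List β)) :
    L.flatten.flatMap w = (L.map (fun l => l.flatMap w)).flatten := by
  induction L with
  | nil => rfl
  | cons l L ih => simp [ih]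

theorem flatMap_wd (w : Fin k → List α) (x : Fin k → ℕ) : (wd x).flatMap w = bw w x := by
  unfold wd bw
  rw [flatMap_flat, List.map_ofFn]
  congr 2
  funext i
  simp only [Function.comp_apply, rep]
  rw [flatMap_flat, List.map_replicate]
  simp

theorem flatMap_srt (w : Fin k → List α) {u : List (Fin k)} (hu : Srt u) :
    u.flatMap w = bw w (cnt u) := by
  conv_lhs => rw [eq_wd hu]
  exact flatMap_wd w (cnt u)

/-- The language of a set of vectors is bounded. -/
theorem BoundedBy_Lk (S : Set (Fin k → ℕ)) : BoundedBy k (Lk S) :=
  ⟨fun i => [i], fun u hu => ⟨cnt u, eq_wd hu.1⟩⟩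

end DCh
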